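import Pool.Agent.Lib_helper40.NLM.Stmts

/-!
The pointwise inequality for the multiplier (module NLM_ALG2, helper7).
-/

set_option autoImplicit false

namespace Pool.Agent.Lib_helper40.NLM

namespace Alg2m

/-- the bracket is nonnegative -/
lemma bracket (N s a b y1 y2 G : ℝ) (hN0 : 0 ≤ N) (hN1 : N ≤ 1) (hG : 0 ≤ G)
    (hy : y1 ^ 2 + y2 ^ 2 ≤ N * G) :
    0 ≤ G - (y1 ^ 2 + y2 ^ 2) - 2 * s * (1 - N) * (a * y1 + b * y2) +
      s ^ 2 * N * (1 - N) * (a ^ 2 + b ^ 2) := by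
  rcases eq_or_lt_of_le hN0 with h | h
  · subst h
    have h1 : y1 = 0 := by nlinarith [sq_nonneg y1, sq_nonneg y2]
    have h2 : y2 = 0 := by nlinarith [sq_nonneg y1, sq_nonneg y2]
    rw [h1, h2]
    linarith
  · have h3 : 0 ≤ N * (G - (y1 ^ 2 + y2 ^ 2) - 2 * s * (1 - N) * (a * y1 + b * y2) +
        s ^ 2 * N * (1 - N) * (a ^ 2 + b ^ 2)) := by
      have e : N * (G - (y1 ^ 2 + y2 ^ 2) - 2 * s * (1 - N) * (a * y1 + b * y2) +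
          s ^ 2 * N * (1 - N) * (a ^ 2 + b ^ 2)) = (N * G - (y1 ^ 2 + y2 ^ 2)) +
          (1 - N) * ((y1 - s * N * a) ^ 2 + (y2 - s * N * b) ^ 2) := by ring
      rw [e]
      have h4 : 0 ≤ (1 - N) * ((y1 - s * N * a) ^ 2 + (y2 - s * N * b) ^ 2) :=
        mul_nonneg (by linarith) (by positivity)
      linarith
    exact nonneg_of_mul_nonneg_right h3 h

/-- `|2 Q| ≤ κ (ρ + G)` -/
lemma q_le (t a b y1 y2 G : ℝ) (ht : 0 ≤ t) (hy : y1 ^ 2 + y2 ^ 2 ≤ t ^ 2 * G) :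
    |2 * (a * y1 + b * y2)| ≤ t * ((a ^ 2 + b ^ 2) + G) := by
  rcases eq_or_lt_of_le ht with h | h
  · subst h
    have h1 : y1 = 0 := by nlinarith [sq_nonneg y1, sq_nonneg y2]
    have h2 : y2 = 0 := by nlinarith [sq_nonneg y1, sq_nonneg y2]
    rw [h1, h2]
    simp
  · rw [abs_le]
    have hpos : 0 < t := h
    have key : ∀ e : ℝ, e ^ 2 = 1 → 0 ≤ t * (t * ((a ^ 2 + b ^ 2) + G) + e * (2 * (a * y1 + b * y2))) := by
      intro e he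
      have e1 : t * (t * ((a ^ 2 + b ^ 2) + G) + e * (2 * (a * y1 + b * y2))) =
          (t * a + e * y1) ^ 2 + (t * b + e * y2) ^ 2 + (t ^ 2 * G - e ^ 2 * (y1 ^ 2 + y2 ^ 2)) := by
        ring
      rw [e1, he]
      have := sq_nonneg (t * a + e * y1)
      have := sq_nonneg (t * b + e * y2)
      linarith
    constructor
    · have := nonneg_of_mul_nonneg_right (key 1 (by norm_num)) hpos
      linarith
    · have := nonneg_of_mul_nonneg_right (key (-1) (by norm_num)) hpos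
      linarith

/-- the term with `V - N F` -/
lemma vterm (n N k s V Vm F κ m a b y1 y2 G : ℝ) (hn : 1 ≤ n) (hN0 : 0 ≤ N) (hN1 : N ≤ 1)
    (hk : 0 < k) (hs : s ≤ 0) (hF : 0 ≤ F) (hNF : N * F ≤ V) (hVm : V ≤ Vm) (hκ : 0 ≤ κ)
    (hκN : κ ^ 2 < N → V = N * F) (hm0 : 0 ≤ m) (hm1 : m ≤ 1) (hG : 0 ≤ G)
    (hy : y1 ^ 2 + y2 ^ 2 ≤ N * G) :
    -(Vm * κ) * ((a ^ 2 + b ^ 2) + G) ≤
      (V - N * F) * m * (2 * (a * y1 + b * y2) + ((n - N) * k - 2 * s * N) * (a ^ 2 + b ^ 2)) := by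
  have hρ : 0 ≤ a ^ 2 + b ^ 2 := by positivity
  have hNF0 : 0 ≤ N * F := mul_nonneg hN0 hF
  have hVm0 : 0 ≤ Vm := by linarith
  have hpos : 0 ≤ (Vm * κ) * ((a ^ 2 + b ^ 2) + G) :=
    mul_nonneg (mul_nonneg hVm0 hκ) (by linarith)
  by_cases hc : κ ^ 2 < N
  · rw [hκN hc]
    have : (N * F - N * F) * m *
      (2 * (a * y1 + b * y2) + ((n - N) * k - 2 * s * N) * (a ^ 2 + b ^ 2)) = 0 := by ring
    rw [this]
    linarith
  · push Not at hc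
    have hy2 : y1 ^ 2 + y2 ^ 2 ≤ κ ^ 2 * G := hy.trans (mul_le_mul_of_nonneg_right hc hG)
    have hq := (abs_le.1 (q_le κ a b y1 y2 G hκ hy2)).1
    have hZ : 0 ≤ (n - N) * k - 2 * s * N := by
      have h1 : 0 ≤ (n - N) * k := mul_nonneg (by linarith) hk.le
      have h2 : 0 ≤ -s * N := mul_nonneg (by linarith) hN0
      linarith
    have hZρ : 0 ≤ ((n - N) * k - 2 * s * N) * (a ^ 2 + b ^ 2) := mul_nonneg hZ hρ
    have h3 : -(κ * ((a ^ 2 + b ^ 2) + G)) ≤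
        2 * (a * y1 + b * y2) + ((n - N) * k - 2 * s * N) * (a ^ 2 + b ^ 2) := by linarith
    have hw0 : 0 ≤ (V - N * F) * m := mul_nonneg (by linarith) hm0
    have hw1 : (V - N * F) * m ≤ Vm := by
      have h4 : (V - N * F) * m ≤ (V - N * F) * 1 := mul_le_mul_of_nonneg_left hm1 (by linarith)
      linarith
    have h5 := mul_le_mul_of_nonneg_left h3 hw0
    have h6 : (V - N * F) * m * (κ * ((a ^ 2 + b ^ 2) + G)) ≤ Vm * (κ * ((a ^ 2 + b ^ 2) + G)) :=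
      mul_le_mul_of_nonneg_right hw1 (mul_nonneg hκ (by linarith))
    have e1 : (V - N * F) * m * -(κ * ((a ^ 2 + b ^ 2) + G)) =
        -((V - N * F) * m * (κ * ((a ^ 2 + b ^ 2) + G))) := by ring
    rw [e1] at h5
    have e2 : Vm * (κ * ((a ^ 2 + b ^ 2) + G)) = (Vm * κ) * ((a ^ 2 + b ^ 2) + G) := by ring
    linarith

/-- the remainder -/
lemma rterm (n N k k₀ s Φ lam1 lam2 V Vm S μ P a b y1 y2 G : ℝ) (hn : 1 ≤ n) (hN0 : 0 ≤ N)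
    (hN1 : N ≤ 1) (hk : 0 < k) (hkk : k ≤ k₀) (hs : s ≤ 0) (hS : -s * N ≤ S) (hΦ0 : 0 ≤ Φ)
    (hΦ1 : Φ ≤ 1) (hl1 : |lam1| ≤ μ) (hl2 : |lam2| ≤ μ) (hV0 : 0 ≤ V) (hVm : V ≤ Vm)
    (hG : 0 ≤ G) (hy : y1 ^ 2 + y2 ^ 2 ≤ N * G)
    (hP : P = N * s ^ 2 - (n - N) * k * s + 1 / 2 * k ^ 2 * (n + 2 - 3 * N)) :
    |2 * (lam1 * Φ) * (y1 ^ 2 + y2 ^ 2) +
      ((n + 2) * (lam1 * Φ) * k + N * (lam2 * Φ - 4 * s * (lam1 * Φ) - 3 * (lam1 * Φ) * k)) *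
        (a * y1 + b * y2) + V * N * (lam1 * Φ) * (a ^ 2 + b ^ 2) +
      N * (lam1 * Φ) * P * (a ^ 2 + b ^ 2)| ≤
    (3 + (n + 5) * k₀ + 4 * S + Vm + S ^ 2 + n * k₀ * S + (n + 2) * k₀ ^ 2) * μ *
      ((a ^ 2 + b ^ 2) + G) := by
  set ρ := a ^ 2 + b ^ 2 with hρdef
  have hρ : 0 ≤ ρ := by positivity
  have hμ : 0 ≤ μ := (abs_nonneg _).trans hl1
  have hk0 : 0 < k₀ := hk.trans_le hkk
  have hS0 : 0 ≤ S := (mul_nonneg (by linarith) hN0 : 0 ≤ -s * N).trans hS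
  have hVm0 : 0 ≤ Vm := hV0.trans hVm
  have hT : 0 ≤ ρ + G := by linarith
  -- the two coefficients
  have c1 : |lam1 * Φ| ≤ μ := by
    rw [abs_mul, abs_of_nonneg hΦ0]
    calc |lam1| * Φ ≤ μ * 1 := mul_le_mul hl1 hΦ1 hΦ0 hμ
      _ = μ := mul_one μ
  have c2 : |lam2 * Φ| ≤ μ := by
    rw [abs_mul, abs_of_nonneg hΦ0]
    calc |lam2| * Φ ≤ μ * 1 := mul_le_mul hl2 hΦ1 hΦ0 hμ
      _ = μ := mul_one μ
  -- `|y|^2 ≤ G`
  have hyG : y1 ^ 2 + y2 ^ 2 ≤ G := hy.trans (by nlinarith)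
  have hyn : 0 ≤ y1 ^ 2 + y2 ^ 2 := by positivity
  have hQ : |a * y1 + b * y2| ≤ (ρ + G) / 2 := by
    have h1 := q_le 1 a b y1 y2 G zero_le_one (by rw [one_pow, one_mul]; exact hyG)
    rw [abs_mul, abs_of_pos (by norm_num : (0 : ℝ) < 2), one_mul] at h1
    linarith
  -- first term
  have t1 : |2 * (lam1 * Φ) * (y1 ^ 2 + y2 ^ 2)| ≤ 2 * μ * (ρ + G) := by
    rw [abs_mul, abs_mul, abs_of_pos (by norm_num : (0 : ℝ) < 2), abs_of_nonneg hyn]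
    exact mul_le_mul (by linarith) (by linarith) hyn (by positivity)
  -- second term
  have hsN : |s * N| ≤ S := by
    rw [abs_of_nonpos (mul_nonpos_of_nonpos_of_nonneg hs hN0)]
    linarith
  have c3 : |(n + 2) * (lam1 * Φ) * k + N * (lam2 * Φ - 4 * s * (lam1 * Φ) - 3 * (lam1 * Φ) * k)| ≤
      ((n + 5) * k₀ + 1 + 4 * S) * μ := by
    have e : (n + 2) * (lam1 * Φ) * k + N * (lam2 * Φ - 4 * s * (lam1 * Φ) - 3 * (lam1 * Φ) * k) =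
        ((n + 2) * k) * (lam1 * Φ) + N * (lam2 * Φ) + (-(4 * (s * N))) * (lam1 * Φ)
          + (-(3 * N * k)) * (lam1 * Φ) := by ring
    rw [e]
    have u1 : |((n + 2) * k) * (lam1 * Φ)| ≤ ((n + 2) * k₀) * μ := by
      rw [abs_mul, abs_of_nonneg (mul_nonneg (by linarith) hk.le)]
      exact mul_le_mul (mul_le_mul_of_nonneg_left hkk (by linarith)) c1 (abs_nonneg _)
        (mul_nonneg (by linarith) hk0.le)
    have u2 : |N * (lam2 * Φ)| ≤ 1 * μ := by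
      rw [abs_mul, abs_of_nonneg hN0]
      exact mul_le_mul hN1 c2 (abs_nonneg _) zero_le_one
    have u3 : |(-(4 * (s * N))) * (lam1 * Φ)| ≤ (4 * S) * μ := by
      rw [abs_mul, abs_neg, abs_mul, abs_of_pos (by norm_num : (0 : ℝ) < 4)]
      exact mul_le_mul (by linarith) c1 (abs_nonneg _) (by positivity)
    have u4 : |(-(3 * N * k)) * (lam1 * Φ)| ≤ (3 * k₀) * μ := by
      rw [abs_mul, abs_neg, abs_of_nonneg (by positivity : (0 : ℝ) ≤ 3 * N * k)]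
      refine mul_le_mul ?_ c1 (abs_nonneg _) (by positivity)
      have : N * k ≤ 1 * k₀ := mul_le_mul hN1 hkk hk.le zero_le_one
      linarith
    have h4 := abs_add_le (((n + 2) * k) * (lam1 * Φ) + N * (lam2 * Φ) + (-(4 * (s * N))) * (lam1 * Φ))
      ((-(3 * N * k)) * (lam1 * Φ))
    have h5 := abs_add_le (((n + 2) * k) * (lam1 * Φ) + N * (lam2 * Φ)) ((-(4 * (s * N))) * (lam1 * Φ))
    have h6 := abs_add_le (((n + 2) * k) * (lam1 * Φ)) (N * (lam2 * Φ))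
    have e2 : ((n + 5) * k₀ + 1 + 4 * S) * μ = ((n + 2) * k₀) * μ + 1 * μ + (4 * S) * μ + (3 * k₀) * μ := by
      ring
    rw [e2]
    linarith
  have t2 : |((n + 2) * (lam1 * Φ) * k + N * (lam2 * Φ - 4 * s * (lam1 * Φ) - 3 * (lam1 * Φ) * k)) *
      (a * y1 + b * y2)| ≤ ((n + 5) * k₀ + 1 + 4 * S) * μ * ((ρ + G) / 2) := by
    rw [abs_mul]
    exact mul_le_mul c3 hQ (abs_nonneg _) (mul_nonneg (by
      have : 0 ≤ (n + 5) * k₀ := mul_nonneg (by linarith) hk0.le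
      linarith) hμ)
  -- third term
  have t3 : |V * N * (lam1 * Φ) * ρ| ≤ Vm * μ * (ρ + G) := by
    rw [abs_mul, abs_mul, abs_of_nonneg (mul_nonneg hV0 hN0), abs_of_nonneg hρ]
    have h1 : V * N ≤ Vm := by
      calc V * N ≤ Vm * 1 := mul_le_mul hVm hN1 hN0 hVm0
        _ = Vm := mul_one _
    exact mul_le_mul (mul_le_mul h1 c1 (abs_nonneg _) hVm0) (by linarith) hρ
      (mul_nonneg hVm0 hμ)
  -- fourth term
  have hNP : |N * P| ≤ S ^ 2 + n * k₀ * S + (n + 2) * k₀ ^ 2 / 2 := by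
    have e : N * P = (s * N) ^ 2 + (-(((n - N) * k) * (s * N))) +
        1 / 2 * k ^ 2 * (N * (n + 2 - 3 * N)) := by rw [hP]; ring
    rw [e]
    have u1 : |(s * N) ^ 2| ≤ S ^ 2 := by
      rw [abs_of_nonneg (sq_nonneg _), ← sq_abs]
      exact pow_le_pow_left₀ (abs_nonneg _) hsN 2
    have u2 : |(-(((n - N) * k) * (s * N)))| ≤ n * k₀ * S := by
      rw [abs_neg, abs_mul, abs_of_nonneg (mul_nonneg (by linarith) hk.le)]
      refine mul_le_mul ?_ hsN (abs_nonneg _) (mul_nonneg (by linarith) hk0.le)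
      exact mul_le_mul (by linarith) hkk hk.le (by linarith)
    have u3 : |1 / 2 * k ^ 2 * (N * (n + 2 - 3 * N))| ≤ (n + 2) * k₀ ^ 2 / 2 := by
      have h1 : 0 ≤ N * (n + 2 - 3 * N) := mul_nonneg hN0 (by linarith)
      have h2 : N * (n + 2 - 3 * N) ≤ 1 * (n + 2) := mul_le_mul hN1 (by linarith) (by linarith)
        zero_le_one
      rw [abs_of_nonneg (mul_nonneg (by positivity) h1)]
      have h3 : k ^ 2 ≤ k₀ ^ 2 := pow_le_pow_left₀ hk.le hkk 2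
      have h4 : k ^ 2 * (N * (n + 2 - 3 * N)) ≤ k₀ ^ 2 * (1 * (n + 2)) :=
        mul_le_mul h3 h2 h1 (by positivity)
      linarith
    have h4 := abs_add_le ((s * N) ^ 2 + (-(((n - N) * k) * (s * N))))
      (1 / 2 * k ^ 2 * (N * (n + 2 - 3 * N)))
    have h5 := abs_add_le ((s * N) ^ 2) (-(((n - N) * k) * (s * N)))
    linarith
  have t4 : |N * (lam1 * Φ) * P * ρ| ≤
      (S ^ 2 + n * k₀ * S + (n + 2) * k₀ ^ 2 / 2) * μ * (ρ + G) := by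
    have e : N * (lam1 * Φ) * P * ρ = (N * P) * (lam1 * Φ) * ρ := by ring
    rw [e, abs_mul, abs_mul, abs_of_nonneg hρ]
    have h0 : 0 ≤ S ^ 2 + n * k₀ * S + (n + 2) * k₀ ^ 2 / 2 := (abs_nonneg _).trans hNP
    exact mul_le_mul (mul_le_mul hNP c1 (abs_nonneg _) h0) (by linarith) hρ (mul_nonneg h0 hμ)
  have h4 := abs_add_le (2 * (lam1 * Φ) * (y1 ^ 2 + y2 ^ 2) +
      ((n + 2) * (lam1 * Φ) * k + N * (lam2 * Φ - 4 * s * (lam1 * Φ) - 3 * (lam1 * Φ) * k)) *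
        (a * y1 + b * y2) + V * N * (lam1 * Φ) * ρ) (N * (lam1 * Φ) * P * ρ)
  have h5 := abs_add_le (2 * (lam1 * Φ) * (y1 ^ 2 + y2 ^ 2) +
      ((n + 2) * (lam1 * Φ) * k + N * (lam2 * Φ - 4 * s * (lam1 * Φ) - 3 * (lam1 * Φ) * k)) *
        (a * y1 + b * y2)) (V * N * (lam1 * Φ) * ρ)
  have h6 := abs_add_le (2 * (lam1 * Φ) * (y1 ^ 2 + y2 ^ 2))
      (((n + 2) * (lam1 * Φ) * k + N * (lam2 * Φ - 4 * s * (lam1 * Φ) - 3 * (lam1 * Φ) * k)) *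
        (a * y1 + b * y2))
  have hx : 0 ≤ μ * (ρ + G) := mul_nonneg hμ hT
  have hy1 : 0 ≤ (n + 5) * k₀ * (μ * (ρ + G)) := mul_nonneg (mul_nonneg (by linarith) hk0.le) hx
  have hy2 : 0 ≤ S * (μ * (ρ + G)) := mul_nonneg hS0 hx
  have hy3 : 0 ≤ (n + 2) * k₀ ^ 2 * (μ * (ρ + G)) := mul_nonneg (mul_nonneg (by linarith)
    (by positivity)) hx
  have e : (3 + (n + 5) * k₀ + 4 * S + Vm + S ^ 2 + n * k₀ * S + (n + 2) * k₀ ^ 2) * μ * (ρ + G) =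
      2 * μ * (ρ + G) + ((n + 5) * k₀ + 1 + 4 * S) * μ * ((ρ + G) / 2) + Vm * μ * (ρ + G) +
      (S ^ 2 + n * k₀ * S + (n + 2) * k₀ ^ 2 / 2) * μ * (ρ + G) +
      (1 / 2 * (μ * (ρ + G)) + 1 / 2 * ((n + 5) * k₀ * (μ * (ρ + G))) + 2 * (S * (μ * (ρ + G))) +
        1 / 2 * ((n + 2) * k₀ ^ 2 * (μ * (ρ + G)))) := by ring
  rw [e]
  linarith

end Alg2m

open Alg2m in
theorem alg2 : Alg2Stmt := by
  intro n N k k₀ s Φ lam lam1 lam2 F V Vm S μ κ a b y1 y2 G hn hN0 hN1 hk hkk hs hS hΦ0 hΦ1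
    hlam0 hlam1 hl1 hl2 hV0 hNF hVm hκ hκN hF hG hy m mg mgg P Pg Q ρ hm hmg hmgg hP hPg hQ hρ
  have hm0 : 0 ≤ m := by rw [hm]; exact mul_nonneg hlam0 hΦ0
  have hm1 : m ≤ 1 := by
    rw [hm]
    calc lam * Φ ≤ 1 * 1 := mul_le_mul hlam1 hΦ1 hΦ0 zero_le_one
      _ = 1 := one_mul 1
  have hB := bracket N s a b y1 y2 G hN0 hN1 hG hy
  have hV := vterm n N k s V Vm F κ m a b y1 y2 G hn hN0 hN1 hk hs hF hNF hVm hκ hκN hm0 hm1 hG hy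
  have hR := (abs_le.1 (rterm n N k k₀ s Φ lam1 lam2 V Vm S μ P a b y1 y2 G hn hN0 hN1 hk hkk hs hS
    hΦ0 hΦ1 hl1 hl2 hV0 hVm hG hy hP)).1
  have h1 : 0 ≤ m * (2 * k * (G - (y1 ^ 2 + y2 ^ 2) - 2 * s * (1 - N) * (a * y1 + b * y2) +
      s ^ 2 * N * (1 - N) * (a ^ 2 + b ^ 2))) :=
    mul_nonneg hm0 (mul_nonneg (by linarith) hB)
  have h2 : 0 ≤ m * (-s * ((2 * y1 + ((n - N) * k - 2 * s * N) * a) ^ 2 +
      (2 * y2 + ((n - N) * k - 2 * s * N) * b) ^ 2)) :=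
    mul_nonneg hm0 (mul_nonneg (by linarith) (by positivity))
  have dec : 2 * (mg - m * k) * (y1 ^ 2 + y2 ^ 2) + 2 * m * k * G
        + ((n + 2) * (mg * k - m * k ^ 2) + N * (mgg - 3 * mg * k + 3 * m * k ^ 2)) * Q
        + V * (2 * m * Q + ((n - N) * m * k + N * mg) * ρ)
        + 2 * m * P * Q + ((n - N) * m * P * k + N * (mg * P + m * Pg)) * ρ =
      m * (2 * k * (G - (y1 ^ 2 + y2 ^ 2) - 2 * s * (1 - N) * (a * y1 + b * y2) +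
        s ^ 2 * N * (1 - N) * (a ^ 2 + b ^ 2))) +
      m * (-s * ((2 * y1 + ((n - N) * k - 2 * s * N) * a) ^ 2 +
        (2 * y2 + ((n - N) * k - 2 * s * N) * b) ^ 2)) +
      1 / 2 * m * (k ^ 3 * ((n - 1) * (n - 3) + 6 * (n - 3) * (1 - N) + 15 * (1 - N) ^ 2)) *
        (a ^ 2 + b ^ 2) +
      (V - N * F) * m * (2 * (a * y1 + b * y2) + ((n - N) * k - 2 * s * N) * (a ^ 2 + b ^ 2)) +
      (2 * (lam1 * Φ) * (y1 ^ 2 + y2 ^ 2) +
        ((n + 2) * (lam1 * Φ) * k + N * (lam2 * Φ - 4 * s * (lam1 * Φ) - 3 * (lam1 * Φ) * k)) *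
          (a * y1 + b * y2) + V * N * (lam1 * Φ) * (a ^ 2 + b ^ 2) +
        N * (lam1 * Φ) * P * (a ^ 2 + b ^ 2)) := by
    have hmg' : mg = lam1 * Φ - 2 * s * m := by rw [hmg, hm]
    have hmgg' : mgg = lam2 * Φ - 4 * s * (lam1 * Φ) + (6 * s ^ 2 - 2 * F) * m := by
      rw [hmgg, hm]
    rw [hmgg', hmg', hPg, hQ, hρ, hP]
    ring
  rw [dec, hρ]
  have e : ((3 + (n + 5) * k₀ + 4 * S + Vm + S ^ 2 + n * k₀ * S + (n + 2) * k₀ ^ 2) * μ + Vm * κ) *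
      (a ^ 2 + b ^ 2 + G) =
      (3 + (n + 5) * k₀ + 4 * S + Vm + S ^ 2 + n * k₀ * S + (n + 2) * k₀ ^ 2) * μ *
        (a ^ 2 + b ^ 2 + G) + Vm * κ * (a ^ 2 + b ^ 2 + G) := by ring
  rw [e]
  have e3 : -(Vm * κ) * ((a ^ 2 + b ^ 2) + G) = -(Vm * κ * (a ^ 2 + b ^ 2 + G)) := by ring
  rw [e3] at hV
  linarith

end Pool.Agent.Lib_helper40.NLM
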