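import Pool.Agent.Lib_helper40.NLM.Stmts

/-!
# The virial inequality for linear vector fields
-/

namespace Pool.Agent.Lib_helper40.NLM

open MeasureTheory Set Filter Topology
open Pool.Agent.Lib_helper40.NLN

noncomputable section

namespace Lin

variable {n : ℕ}

/-! ### finite sums -/

lemma quad_nonneg (A : E n →L[ℝ] E n) (hA : ∀ x, 0 ≤ inner ℝ (A x) x) (p : Fin n → ℝ) :
    0 ≤ ∑ i, ∑ j, A (bv i) j * (p i * p j) := by
  have h := hA (∑ i, p i • bv i)
  have e1 : ∀ j, (∑ i, p i • bv i : E n) j = p j := by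
    intro j
    have e3 : (∑ i, p i • bv i : E n) j = ∑ i, p i * Pi.single (M := fun _ => ℝ) i 1 j := by
      simp [bv, Finset.sum_apply]
    rw [e3, Finset.sum_eq_single j]
    · simp
    · intro i _ hij
      rw [Pi.single_eq_of_ne (Ne.symm hij), mul_zero]
    · intro h
      exact absurd (Finset.mem_univ j) h
  have e2 : ∀ j, (A (∑ i, p i • bv i : E n)) j = ∑ i, p i * A (bv i) j := by
    intro j
    rw [map_sum]
    simp [Finset.sum_apply]
  rw [PiLp.inner_apply] at h
  rw [Finset.sum_comm]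
  refine h.trans (le_of_eq ?_)
  refine Finset.sum_congr rfl fun j _ => ?_
  rw [e1, e2]
  simp only [RCLike.inner_apply, conj_trivial]
  rw [Finset.mul_sum]
  refine Finset.sum_congr rfl fun i _ => ?_
  ring

lemma abs_quad_le (c : Fin n → Fin n → ℝ) {M : ℝ} (hc : ∀ i j, |c i j| ≤ M) (p q : Fin n → ℝ) :
    |∑ i, ∑ j, c i j * (p i * p j + q i * q j)| ≤ M * (n * ∑ j, (p j ^ 2 + q j ^ 2)) := by
  have h1 : ∀ i j, |c i j * (p i * p j + q i * q j)| ≤
      M * (((p i ^ 2 + q i ^ 2) + (p j ^ 2 + q j ^ 2)) / 2) := by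
    intro i j
    rw [abs_mul]
    have hM : 0 ≤ M := (abs_nonneg _).trans (hc i j)
    refine mul_le_mul (hc i j) ?_ (abs_nonneg _) hM
    rw [abs_le]
    constructor <;> nlinarith [sq_nonneg (p i + p j), sq_nonneg (q i + q j),
      sq_nonneg (p i - p j), sq_nonneg (q i - q j)]
  calc |∑ i, ∑ j, c i j * (p i * p j + q i * q j)|
      ≤ ∑ i, ∑ j, |c i j * (p i * p j + q i * q j)| :=
        (Finset.abs_sum_le_sum_abs _ _).trans
          (Finset.sum_le_sum fun i _ => Finset.abs_sum_le_sum_abs _ _)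
    _ ≤ ∑ i, ∑ j, M * (((p i ^ 2 + q i ^ 2) + (p j ^ 2 + q j ^ 2)) / 2) :=
        Finset.sum_le_sum fun i _ => Finset.sum_le_sum fun j _ => h1 i j
    _ = M * (n * ∑ j, (p j ^ 2 + q j ^ 2)) := by
        simp only [← Finset.mul_sum, ← Finset.sum_div]
        congr 1
        simp only [Finset.sum_add_distrib, Finset.sum_const, Finset.card_univ, Fintype.card_fin,
          nsmul_eq_mul, ← Finset.mul_sum]
        ring

lemma abs_lin_le (c : Fin n → ℝ) {M : ℝ} (hM : 0 ≤ M) (hc : ∀ i, |c i| ≤ M) (u v : ℝ)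
    (p q : Fin n → ℝ) :
    |∑ i, c i * (u * p i + v * q i)| ≤
      M * (n * (u ^ 2 + v ^ 2) + ∑ j, (p j ^ 2 + q j ^ 2)) := by
  have h1 : ∀ i, |c i * (u * p i + v * q i)| ≤
      M * ((u ^ 2 + v ^ 2) + (p i ^ 2 + q i ^ 2)) := by
    intro i
    rw [abs_mul]
    refine mul_le_mul (hc i) ?_ (abs_nonneg _) hM
    rw [abs_le]
    constructor <;> nlinarith [sq_nonneg (u + p i), sq_nonneg (v + q i),
      sq_nonneg (u - p i), sq_nonneg (v - q i), sq_nonneg u, sq_nonneg v, sq_nonneg (p i),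
      sq_nonneg (q i)]
  calc |∑ i, c i * (u * p i + v * q i)|
      ≤ ∑ i, |c i * (u * p i + v * q i)| := Finset.abs_sum_le_sum_abs _ _
    _ ≤ ∑ i, M * ((u ^ 2 + v ^ 2) + (p i ^ 2 + q i ^ 2)) :=
        Finset.sum_le_sum fun i _ => h1 i
    _ = M * (n * (u ^ 2 + v ^ 2) + ∑ j, (p j ^ 2 + q j ^ 2)) := by
        rw [← Finset.mul_sum]
        congr 1
        rw [Finset.sum_add_distrib]
        simp
        ring

lemma err_le (c : Fin n → ℝ) {θ : ℝ} (hθ : 0 < θ) (z1 z2 : ℝ) (p q : Fin n → ℝ) :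
    -(θ * ∑ j, (p j ^ 2 + q j ^ 2)) - θ⁻¹ * (∑ i, c i ^ 2) * (z1 ^ 2 + z2 ^ 2) ≤
      2 * ∑ i, c i * (z1 * p i + z2 * q i) := by
  have h1 : ∀ i, -(θ * (p i ^ 2 + q i ^ 2)) - θ⁻¹ * c i ^ 2 * (z1 ^ 2 + z2 ^ 2) ≤
      2 * (c i * (z1 * p i + z2 * q i)) := by
    intro i
    have h0 : 0 ≤ θ⁻¹ * ((θ * p i + c i * z1) ^ 2 + (θ * q i + c i * z2) ^ 2) := by positivity
    have h2 : θ⁻¹ * ((θ * p i + c i * z1) ^ 2 + (θ * q i + c i * z2) ^ 2) =
        θ * (p i ^ 2 + q i ^ 2) + θ⁻¹ * c i ^ 2 * (z1 ^ 2 + z2 ^ 2)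
          + 2 * (c i * (z1 * p i + z2 * q i)) := by
      field_simp
      ring
    linarith
  have h2 := Finset.sum_le_sum fun (i : Fin n) (_ : i ∈ Finset.univ) => h1 i
  have h3 : 2 * ∑ i, c i * (z1 * p i + z2 * q i) =
      ∑ i, 2 * (c i * (z1 * p i + z2 * q i)) := Finset.mul_sum _ _ _
  rw [h3]
  refine le_trans (le_of_eq ?_) h2
  rw [Finset.sum_sub_distrib, Finset.sum_neg_distrib, ← Finset.mul_sum, ← Finset.sum_mul,
    ← Finset.mul_sum]

lemma err_le' {θ : ℝ} (hθ : 0 < θ) (D u v z1 z2 : ℝ) :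
    -(θ * (u ^ 2 + v ^ 2)) - θ⁻¹ * D ^ 2 * (z1 ^ 2 + z2 ^ 2) ≤ D * (u * z1 + v * z2) := by
  have h0 : 0 ≤ θ⁻¹ * ((θ * u + D * z1 / 2) ^ 2 + (θ * v + D * z2 / 2) ^ 2) := by positivity
  have h2 : θ⁻¹ * ((θ * u + D * z1 / 2) ^ 2 + (θ * v + D * z2 / 2) ^ 2) =
      θ * (u ^ 2 + v ^ 2) + θ⁻¹ * D ^ 2 * (z1 ^ 2 + z2 ^ 2) / 4 + D * (u * z1 + v * z2) := by
    field_simp
    ring
  have h3 : 0 ≤ θ⁻¹ * D ^ 2 * (z1 ^ 2 + z2 ^ 2) := by positivity
  linarith

/-! ### the field -/

/-- the trace -/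
def tr (A : E n →L[ℝ] E n) : ℝ := ∑ j, A (bv j) j

def K0 (A : E n →L[ℝ] E n) (β : E n) : ℝ := ‖A‖ + ‖β‖

def K1 (A : E n →L[ℝ] E n) (β : E n) : ℝ := 2 * n * K0 A β + 2 * K0 A β + n * ‖A‖ + |tr A|

def KK (A : E n →L[ℝ] E n) (β : E n) : ℝ :=
  5 * n * K0 A β + (n + 1) * K1 A β + 4 * n * K0 A β ^ 2 + (|tr A| + 2 * n * K0 A β) ^ 2

/-- the affine field -/
def LL (A : E n →L[ℝ] E n) (β : E n) (j : Fin n) (x : E n) : ℝ := A x j + β j

def XX (A : E n →L[ℝ] E n) (β : E n) (lam : ℝ → ℝ) (j : Fin n) (x : E n) : ℝ :=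
  lam (hn x) * LL A β j x

def XX1 (A : E n →L[ℝ] E n) (β : E n) (lam lam1 : ℝ → ℝ) (i j : Fin n) (x : E n) : ℝ :=
  lam1 (hn x) * x i * LL A β j x + lam (hn x) * A (bv i) j

def xL (A : E n →L[ℝ] E n) (β : E n) (x : E n) : ℝ := ∑ j, x j * LL A β j x

def DD1 (A : E n →L[ℝ] E n) (β : E n) (lam1 lam2 : ℝ → ℝ) (i : Fin n) (x : E n) : ℝ :=
  lam2 (hn x) * x i * xL A β x + lam1 (hn x) * (LL A β i x + ∑ j, x j * A (bv i) j)
    + lam1 (hn x) * x i * tr A

lemma norm_bv (i : Fin n) : ‖(bv i : E n)‖ = 1 := by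
  unfold bv
  simp

lemma abs_apply_le (x : E n) (j : Fin n) : |x j| ≤ ‖x‖ := by
  have := PiLp.norm_apply_le x j
  rwa [Real.norm_eq_abs] at this

lemma K0_nonneg (A : E n →L[ℝ] E n) (β : E n) : 0 ≤ K0 A β := by unfold K0; positivity

lemma LL_le (A : E n →L[ℝ] E n) (β : E n) (j : Fin n) (x : E n) :
    |LL A β j x| ≤ K0 A β * (1 + ‖x‖) := by
  have h1 := abs_apply_le (A x + β) j
  have h2 : ‖A x + β‖ ≤ ‖A‖ * ‖x‖ + ‖β‖ :=
    (norm_add_le _ _).trans (by gcongr; exact A.le_opNorm x)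
  have h3 : (A x + β) j = LL A β j x := rfl
  rw [h3] at h1
  refine h1.trans (h2.trans ?_)
  unfold K0
  have := norm_nonneg x
  have := norm_nonneg β
  have := norm_nonneg A
  nlinarith

lemma A_le (A : E n →L[ℝ] E n) (i j : Fin n) : |A (bv i) j| ≤ ‖A‖ := by
  refine (abs_apply_le _ _).trans ?_
  have := A.le_opNorm (bv i)
  rwa [norm_bv, mul_one] at this

lemma xL_le (A : E n →L[ℝ] E n) (β : E n) (x : E n) :
    |xL A β x| ≤ n * (K0 A β * (‖x‖ * (1 + ‖x‖))) := by
  unfold xL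
  refine (Finset.abs_sum_le_sum_abs _ _).trans ?_
  have h : ∀ j : Fin n, |x j * LL A β j x| ≤ K0 A β * (‖x‖ * (1 + ‖x‖)) := by
    intro j
    rw [abs_mul]
    have := mul_le_mul (abs_apply_le x j) (LL_le A β j x) (abs_nonneg _) (norm_nonneg x)
    linarith
  refine (Finset.sum_le_sum fun j _ => h j).trans (le_of_eq ?_)
  simp

lemma sum_XX1 (A : E n →L[ℝ] E n) (β : E n) (lam lam1 : ℝ → ℝ) (x : E n) :
    ∑ j, XX1 A β lam lam1 j j x = lam1 (hn x) * xL A β x + lam (hn x) * tr A := by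
  unfold XX1 xL tr
  rw [Finset.sum_add_distrib, Finset.mul_sum, Finset.mul_sum]
  congr 1
  refine Finset.sum_congr rfl fun j _ => ?_
  ring

/-- the pointwise lower bound -/
theorem lin_pt (A : E n →L[ℝ] E n) (β : E n) (hA : ∀ x, 0 ≤ inner ℝ (A x) x)
    {lam lam1 lam2 : ℝ → ℝ} {μ T θ : ℝ} (hT : 0 < T) (hθ : 0 < θ) (hμ1 : μ ≤ 1)
    (hC : CutN lam lam1 lam2 μ T) (x : E n) (p q : Fin n → ℝ) (u v z1 z2 : ℝ) :
    tr A / 2 * (lam (hn x) * (u ^ 2 + v ^ 2) ^ 2) - KK A β * μ * (u ^ 2 + v ^ 2) ^ 2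
      - (KK A β * μ + θ) * ((u ^ 2 + v ^ 2) + ∑ j, (p j ^ 2 + q j ^ 2))
      - θ⁻¹ * (KK A β * (1 + T)) *
        (Metric.closedBall (0 : E n) (√(2 * T))).indicator (fun _ => z1 ^ 2 + z2 ^ 2) x ≤
      2 * (∑ i, ∑ j, XX1 A β lam lam1 i j x * (p i * p j + q i * q j))
      + (∑ i, DD1 A β lam1 lam2 i x * (u * p i + v * q i))
      + 1 / 2 * (∑ j, XX1 A β lam lam1 j j x) * (u ^ 2 + v ^ 2) ^ 2
      + 2 * (∑ i, XX A β lam i x * (z1 * p i + z2 * q i))
      + (∑ j, XX1 A β lam lam1 j j x) * (u * z1 + v * z2) := by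
  have hx0 := hn_nonneg x
  have hμ : 0 ≤ μ := le_trans (by positivity) (hC.b1 (hn x) hx0)
  have hr0 := norm_nonneg x
  have hrr : 2 * hn x = ‖x‖ ^ 2 := by unfold hn; ring
  have b1 := hC.b1 (hn x) hx0
  have b2 := hC.b2 (hn x) hx0
  rw [hrr] at b1 b2
  obtain ⟨l0, l1⟩ := hC.nn (hn x)
  have hk := K0_nonneg A β
  have hA0 := norm_nonneg A
  have htr0 := abs_nonneg (tr A)
  have hn0 : (0 : ℝ) ≤ n := Nat.cast_nonneg n
  set r := ‖x‖ with hr
  set G := ∑ j, (p j ^ 2 + q j ^ 2) with hG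
  have hG0 : 0 ≤ G := by rw [hG]; positivity
  set ρ := u ^ 2 + v ^ 2 with hρ
  have hρ0 : 0 ≤ ρ := by rw [hρ]; positivity
  set k := K0 A β with hkdef
  -- elementary bounds for the cutoff
  have c1 : |lam1 (hn x)| * (r * (1 + r)) ≤ 2 * μ := by
    have : r * (1 + r) ≤ 2 * (1 + r ^ 2) := by nlinarith [sq_nonneg (r - 1)]
    have h := mul_le_mul_of_nonneg_left this (abs_nonneg (lam1 (hn x)))
    nlinarith
  have c2 : |lam1 (hn x)| * (1 + r) ≤ 2 * μ := by
    have : 1 + r ≤ 2 * (1 + r ^ 2) := by nlinarith [sq_nonneg (r - 1)]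
    have h := mul_le_mul_of_nonneg_left this (abs_nonneg (lam1 (hn x)))
    nlinarith
  have c3 : |lam1 (hn x)| * r ≤ μ := by
    have : r ≤ 1 + r ^ 2 := by nlinarith [sq_nonneg (r - 1)]
    have h := mul_le_mul_of_nonneg_left this (abs_nonneg (lam1 (hn x)))
    nlinarith
  have c4 : |lam2 (hn x)| * (r * (r * (1 + r))) ≤ 2 * μ := by
    have h1 : r * (1 + r) ≤ 2 * (1 + r ^ 2) := by nlinarith [sq_nonneg (r - 1)]
    have h2 : r ≤ 1 + r ^ 2 := by nlinarith [sq_nonneg (r - 1)]
    have h3 : r * (r * (1 + r)) ≤ (1 + r ^ 2) * (2 * (1 + r ^ 2)) :=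
      mul_le_mul h2 h1 (by positivity) (by positivity)
    have h := mul_le_mul_of_nonneg_left h3 (abs_nonneg (lam2 (hn x)))
    nlinarith
  -- first term
  have t1 : -(4 * n * k * μ * G) ≤
      2 * (∑ i, ∑ j, XX1 A β lam lam1 i j x * (p i * p j + q i * q j)) := by
    have e : ∑ i, ∑ j, XX1 A β lam lam1 i j x * (p i * p j + q i * q j) =
        ∑ i, ∑ j, (lam1 (hn x) * (x i * LL A β j x)) * (p i * p j + q i * q j) +
        lam (hn x) * ((∑ i, ∑ j, A (bv i) j * (p i * p j)) +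
          ∑ i, ∑ j, A (bv i) j * (q i * q j)) := by
      rw [← Finset.sum_add_distrib, Finset.mul_sum, ← Finset.sum_add_distrib]
      refine Finset.sum_congr rfl fun i _ => ?_
      rw [← Finset.sum_add_distrib, Finset.mul_sum, ← Finset.sum_add_distrib]
      refine Finset.sum_congr rfl fun j _ => ?_
      unfold XX1
      ring
    have h1 : 0 ≤ lam (hn x) * ((∑ i, ∑ j, A (bv i) j * (p i * p j)) +
          ∑ i, ∑ j, A (bv i) j * (q i * q j)) :=
      mul_nonneg l0 (add_nonneg (quad_nonneg A hA p) (quad_nonneg A hA q))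
    have h2 : ∀ i j, |lam1 (hn x) * (x i * LL A β j x)| ≤ 2 * k * μ := by
      intro i j
      rw [abs_mul, abs_mul]
      have h3 : |x i| * |LL A β j x| ≤ r * (k * (1 + r)) :=
        mul_le_mul (abs_apply_le x i) (LL_le A β j x) (abs_nonneg _) hr0
      have h4 := mul_le_mul_of_nonneg_left h3 (abs_nonneg (lam1 (hn x)))
      have h5 := mul_le_mul_of_nonneg_left c1 hk
      nlinarith
    have h6 := (abs_le.1 (abs_quad_le _ h2 p q)).1
    rw [e]
    linarith
  -- second term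
  have t2 : -((n + 1) * K1 A β * μ * (ρ + G)) ≤
      ∑ i, DD1 A β lam1 lam2 i x * (u * p i + v * q i) := by
    have hK1 : 0 ≤ K1 A β := by
      unfold K1; positivity
    have h1 : ∀ i, |DD1 A β lam1 lam2 i x| ≤ K1 A β * μ := by
      intro i
      unfold DD1
      have a1 : |lam2 (hn x) * x i * xL A β x| ≤ 2 * n * k * μ := by
        rw [abs_mul, abs_mul]
        have h3 : |x i| * |xL A β x| ≤ r * (n * (k * (r * (1 + r)))) :=
          mul_le_mul (abs_apply_le x i) (xL_le A β x) (abs_nonneg _) hr0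
        have h4 := mul_le_mul_of_nonneg_left h3 (abs_nonneg (lam2 (hn x)))
        have h5 := mul_le_mul_of_nonneg_left c4 (mul_nonneg hn0 hk)
        nlinarith
      have a2 : |lam1 (hn x) * (LL A β i x + ∑ j, x j * A (bv i) j)| ≤
          2 * k * μ + n * ‖A‖ * μ := by
        rw [abs_mul]
        have h3 : |LL A β i x + ∑ j, x j * A (bv i) j| ≤ k * (1 + r) + n * (r * ‖A‖) := by
          refine (abs_add_le _ _).trans (add_le_add (LL_le A β i x) ?_)
          refine (Finset.abs_sum_le_sum_abs _ _).trans ?_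
          have h : ∀ j : Fin n, |x j * A (bv i) j| ≤ r * ‖A‖ := by
            intro j
            rw [abs_mul]
            exact mul_le_mul (abs_apply_le x j) (A_le A i j) (abs_nonneg _) hr0
          refine (Finset.sum_le_sum fun j _ => h j).trans (le_of_eq ?_)
          simp
        have h4 := mul_le_mul_of_nonneg_left h3 (abs_nonneg (lam1 (hn x)))
        have h5 := mul_le_mul_of_nonneg_left c2 hk
        have h6 := mul_le_mul_of_nonneg_left c3 (mul_nonneg hn0 hA0)
        nlinarith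
      have a3 : |lam1 (hn x) * x i * tr A| ≤ |tr A| * μ := by
        rw [abs_mul, abs_mul]
        have h3 := mul_le_mul_of_nonneg_left (abs_apply_le x i) (abs_nonneg (lam1 (hn x)))
        have h4 : |lam1 (hn x)| * |x i| ≤ μ := h3.trans c3
        have h5 := mul_le_mul_of_nonneg_right h4 htr0
        linarith
      have e : K1 A β * μ = 2 * n * k * μ + (2 * k * μ + n * ‖A‖ * μ) + |tr A| * μ := by
        unfold K1; ring
      rw [e]
      exact (abs_add_le _ _).trans (add_le_add ((abs_add_le _ _).trans (add_le_add a1 a2)) a3)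
    have h6 := (abs_le.1 (abs_lin_le _ (by positivity) h1 u v p q)).1
    have h7 : K1 A β * μ * (n * ρ + G) ≤ (n + 1) * K1 A β * μ * (ρ + G) := by
      have h8 : 0 ≤ K1 A β * μ := by positivity
      have h9 : n * ρ + G ≤ (n + 1) * (ρ + G) := by
        have : 0 ≤ n * G := by positivity
        linarith
      have := mul_le_mul_of_nonneg_left h9 h8
      linarith
    linarith
  -- the divergence
  have dv := sum_XX1 A β lam lam1 x
  have d1 : |lam1 (hn x) * xL A β x| ≤ 2 * n * k * μ := by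
    rw [abs_mul]
    have h4 := mul_le_mul_of_nonneg_left (xL_le A β x) (abs_nonneg (lam1 (hn x)))
    have h5 := mul_le_mul_of_nonneg_left c1 (mul_nonneg hn0 hk)
    nlinarith
  set D := ∑ j, XX1 A β lam lam1 j j x with hD
  have t4 : tr A / 2 * (lam (hn x) * ρ ^ 2) - n * k * μ * ρ ^ 2 ≤ 1 / 2 * D * ρ ^ 2 := by
    have h1 : lam (hn x) * tr A - 2 * n * k * μ ≤ D := by
      rw [dv]
      have := (abs_le.1 d1).1
      linarith
    have h2 := mul_le_mul_of_nonneg_right h1 (sq_nonneg ρ)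
    linarith
  have hKK : KK A β = 5 * n * k + (n + 1) * K1 A β + 4 * n * k ^ 2 +
      (|tr A| + 2 * n * k) ^ 2 := rfl
  have hK10 : 0 ≤ K1 A β := by unfold K1; positivity
  -- the error terms
  have t5 : -(θ * G) - θ⁻¹ * (∑ i, XX A β lam i x ^ 2) * (z1 ^ 2 + z2 ^ 2) ≤
      2 * ∑ i, XX A β lam i x * (z1 * p i + z2 * q i) := err_le _ hθ z1 z2 p q
  have t6 : -(θ * ρ) - θ⁻¹ * D ^ 2 * (z1 ^ 2 + z2 ^ 2) ≤ D * (u * z1 + v * z2) :=
    err_le' hθ D u v z1 z2
  have hZ0 : 0 ≤ z1 ^ 2 + z2 ^ 2 := by positivity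
  have terr : θ⁻¹ * (∑ i, XX A β lam i x ^ 2) * (z1 ^ 2 + z2 ^ 2) +
      θ⁻¹ * D ^ 2 * (z1 ^ 2 + z2 ^ 2) ≤ θ⁻¹ * (KK A β * (1 + T)) *
        (Metric.closedBall (0 : E n) (√(2 * T))).indicator (fun _ => z1 ^ 2 + z2 ^ 2) x := by
    by_cases hxT : T < hn x
    · obtain ⟨y0, y1, -⟩ := hC.z _ hxT.le
      have e1 : ∀ i, XX A β lam i x = 0 := by
        intro i; unfold XX; rw [y0, zero_mul]
      have e2 : D = 0 := by rw [dv, y0, y1]; ring
      have hind : 0 ≤ (Metric.closedBall (0 : E n) (√(2 * T))).indicator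
        (fun _ => z1 ^ 2 + z2 ^ 2) x := indicator_nonneg (fun _ _ => by positivity) x
      have hKK0 : 0 ≤ KK A β := by rw [hKK]; positivity
      simp only [e1, e2]
      have : 0 ≤ θ⁻¹ * (KK A β * (1 + T)) * (Metric.closedBall (0 : E n) (√(2 * T))).indicator
        (fun _ => z1 ^ 2 + z2 ^ 2) x := by positivity
      simpa using this
    · have hT' := not_lt.1 hxT
      have hr2 : r ^ 2 ≤ 2 * T := by rw [← hrr]; linarith
      have hxb : x ∈ Metric.closedBall (0 : E n) (√(2 * T)) := by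
        rw [Metric.mem_closedBall, dist_zero_right]
        exact Real.le_sqrt_of_sq_le hr2
      rw [indicator_of_mem hxb]
      have s1 : ∑ i, XX A β lam i x ^ 2 ≤ 4 * n * k ^ 2 * (1 + T) := by
        have h1 : ∀ i, XX A β lam i x ^ 2 ≤ 4 * k ^ 2 * (1 + T) := by
          intro i
          have h2 : |XX A β lam i x| ≤ k * (1 + r) := by
            unfold XX
            rw [abs_mul, abs_of_nonneg l0]
            have := LL_le A β i x
            have h3 := abs_nonneg (LL A β i x)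
            nlinarith
          have h3 : XX A β lam i x ^ 2 ≤ (k * (1 + r)) ^ 2 := by
            rw [← sq_abs]
            exact pow_le_pow_left₀ (abs_nonneg _) h2 2
          have h4 : (k * (1 + r)) ^ 2 ≤ 4 * k ^ 2 * (1 + T) := by
            have h5 : (1 + r) ^ 2 ≤ 4 * (1 + T) := by nlinarith [sq_nonneg (r - 1)]
            have := mul_le_mul_of_nonneg_left h5 (sq_nonneg k)
            nlinarith
          exact h3.trans h4
        refine (Finset.sum_le_sum fun i _ => h1 i).trans (le_of_eq ?_)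
        simp
        ring
      have s2 : D ^ 2 ≤ (|tr A| + 2 * n * k) ^ 2 * (1 + T) := by
        have h1 : |D| ≤ |tr A| + 2 * n * k := by
          rw [dv]
          refine (abs_add_le _ _).trans ?_
          have h2 : |lam (hn x) * tr A| ≤ |tr A| := by
            rw [abs_mul, abs_of_nonneg l0]
            exact mul_le_of_le_one_left htr0 l1
          have h3 : 2 * n * k * μ ≤ 2 * n * k := by
            have : 0 ≤ 2 * n * k := by positivity
            nlinarith
          linarith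
        have h2 : D ^ 2 ≤ (|tr A| + 2 * n * k) ^ 2 := by
          rw [← sq_abs]
          exact pow_le_pow_left₀ (abs_nonneg _) h1 2
        have h3 : 0 ≤ (|tr A| + 2 * n * k) ^ 2 * T := by positivity
        linarith
      have s3 : (∑ i, XX A β lam i x ^ 2) + D ^ 2 ≤ KK A β * (1 + T) := by
        rw [hKK]
        have h3 : 0 ≤ (5 * n * k + (n + 1) * K1 A β) * (1 + T) := by positivity
        linarith
      have s4 : θ⁻¹ * ((∑ i, XX A β lam i x ^ 2) + D ^ 2) * (z1 ^ 2 + z2 ^ 2) ≤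
          θ⁻¹ * (KK A β * (1 + T)) * (z1 ^ 2 + z2 ^ 2) := by gcongr
      linarith
  have hq : n * k * μ * ρ ^ 2 ≤ KK A β * μ * ρ ^ 2 := by
    have : n * k ≤ KK A β := by
      rw [hKK]
      have h3 : 0 ≤ 4 * n * k + (n + 1) * K1 A β + 4 * n * k ^ 2 +
        (|tr A| + 2 * n * k) ^ 2 := by positivity
      linarith
    gcongr
  have hG2 : 4 * n * k * μ * G + (n + 1) * K1 A β * μ * (ρ + G) ≤ KK A β * μ * (ρ + G) := by
    have h1 : 4 * n * k * μ * G ≤ 4 * n * k * μ * (ρ + G) := by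
      have : 0 ≤ 4 * n * k * μ * ρ := by positivity
      linarith
    have h2 : (4 * n * k + (n + 1) * K1 A β) ≤ KK A β := by
      rw [hKK]
      have h3 : 0 ≤ n * k + 4 * n * k ^ 2 + (|tr A| + 2 * n * k) ^ 2 := by positivity
      linarith
    have h3 := mul_le_mul_of_nonneg_right h2 (by positivity : 0 ≤ μ * (ρ + G))
    linarith
  linarith

/-! ### calculus -/

lemma A_cont (A : E n →L[ℝ] E n) (j : Fin n) : Continuous fun x : E n => A x j := by
  fun_prop

lemma LL_cont (A : E n →L[ℝ] E n) (β : E n) (j : Fin n) : Continuous (LL A β j) := by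
  unfold LL
  exact (A_cont A j).add continuous_const

lemma PD_LL (A : E n →L[ℝ] E n) (β : E n) (i j : Fin n) :
    PD i (LL A β j) (fun _ => A (bv i) j) := fun x => by
  have h : HasDerivAt (fun t : ℝ => LL A β j (x + t • bv i)) (A (bv i) j) 0 := by
    have e : (fun t : ℝ => LL A β j (x + t • bv i)) = fun t => LL A β j x + t * A (bv i) j := by
      funext t
      unfold LL
      rw [map_add, map_smul]
      simp only [PiLp.add_apply, PiLp.smul_apply, smul_eq_mul]
      ring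
    rw [e]
    simpa using ((hasDerivAt_id' (0 : ℝ)).mul_const (A (bv i) j)).const_add (LL A β j x)
  exact h

lemma PD_xL (A : E n →L[ℝ] E n) (β : E n) (i : Fin n) :
    PD i (xL A β) (fun x => LL A β i x + ∑ j, x j * A (bv i) j) := by
  have h1 := PD.sum (i := i) Finset.univ (f := fun j x => x j * LL A β j x)
    (fun j _ => (PD.coord i j).mul (PD_LL A β i j))
  refine h1.congr fun x => ?_
  rw [Finset.sum_add_distrib]
  simp [Finset.sum_ite_eq']

lemma PD_XX (A : E n →L[ℝ] E n) (β : E n) {lam lam1 : ℝ → ℝ}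
    (h : ∀ τ, HasDerivAt lam (lam1 τ) τ) (i j : Fin n) :
    PD i (XX A β lam j) (XX1 A β lam lam1 i j) := by
  refine ((PD.radial (i := i) h).mul (PD_LL A β i j)).congr fun x => ?_
  unfold XX1
  ring

lemma PD_D (A : E n →L[ℝ] E n) (β : E n) {lam lam1 lam2 : ℝ → ℝ}
    (h : ∀ τ, HasDerivAt lam (lam1 τ) τ) (h' : ∀ τ, HasDerivAt lam1 (lam2 τ) τ) (i : Fin n) :
    PD i (fun x => ∑ j, XX1 A β lam lam1 j j x) (DD1 A β lam1 lam2 i) := by
  have e : (fun x : E n => ∑ j, XX1 A β lam lam1 j j x) =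
      fun x => lam1 (hn x) * xL A β x + lam (hn x) * tr A := by
    funext x
    exact sum_XX1 A β lam lam1 x
  rw [e]
  refine (((PD.radial (i := i) h').mul (PD_xL A β i)).add
    ((PD.radial (i := i) h).mul (PD.const (tr A)))).congr fun x => ?_
  unfold DD1
  ring

end Lin

open Lin in
theorem lin (hR : RepXStmt) (hX : VirXStmt) : LinStmt := by
  intro n A β hA
  have hk := K0_nonneg A β
  refine ⟨KK A β, ?_, ?_⟩
  · have : 0 ≤ K1 A β := by unfold K1; positivity
    unfold KK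
    positivity
  intro V hV hVr lam lam1 lam2 μ T θ hT hθ hμ1 hC a b v1 v2 e1 e2 a1 b1 w1 w2 a2 b2 hS iρ iG iρ2
  have ca := hS.ca
  have cb := hS.cb
  have ca1 := hS.ca1
  have cb1 := hS.cb1
  have cv1 := hS.cv1
  have cv2 := hS.cv2
  have cw1 := hS.cw1
  have cw2 := hS.cw2
  have ce1 := hS.ce1
  have ce2 := hS.ce2
  have kh : Continuous (hn : E n → ℝ) := hn_cont
  have kg := gsq_cont hS.ca1 hS.cb1
  have cV := hV.continuous
  have cl : Continuous lam := cont_of_d hC.d1
  have cl1 : Continuous lam1 := cont_of_d hC.d2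
  have cl2 := hC.c2
  have cLL := LL_cont A β
  have cxL : Continuous (xL A β) := by
    unfold xL
    refine continuous_finsetSum _ fun j _ => ?_
    have := cLL j
    fun_prop
  have cXX : ∀ j, Continuous (XX A β lam j) := by
    intro j
    unfold XX
    have := cLL j
    fun_prop
  have cXX1 : ∀ i j, Continuous (XX1 A β lam lam1 i j) := by
    intro i j
    unfold XX1
    have := cLL j
    fun_prop
  have cDD1 : ∀ i, Continuous (DD1 A β lam1 lam2 i) := by
    intro i
    unfold DD1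
    have := cLL i
    fun_prop
  have hz : ∀ x : E n, √(2 * T) < ‖x‖ → lam (hn x) = 0 ∧ lam1 (hn x) = 0 ∧ lam2 (hn x) = 0 :=
    fun x hx => hC.z _ (lt_hn hx).le
  have zXX : ∀ j x, √(2 * T) < ‖x‖ → XX A β lam j x = 0 := by
    intro j x hx
    unfold XX
    rw [(hz x hx).1, zero_mul]
  have zXX1 : ∀ i j x, √(2 * T) < ‖x‖ → XX1 A β lam lam1 i j x = 0 := by
    intro i j x hx
    unfold XX1
    rw [(hz x hx).1, (hz x hx).2.1]
    ring
  have zDD1 : ∀ i x, √(2 * T) < ‖x‖ → DD1 A β lam1 lam2 i x = 0 := by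
    intro i x hx
    unfold DD1
    rw [(hz x hx).2.1, (hz x hx).2.2]
    ring
  have hvir := hX n V a b v1 v2 e1 e2 a1 b1 w1 w2 a2 b2 cV hS (XX A β lam) (XX1 A β lam lam1)
    (DD1 A β lam1 lam2) (fun i => CK.of_zero (cXX i) (zXX i)) (PD_XX A β hC.d1)
    (fun i j => CK.of_zero (cXX1 i j) (zXX1 i j)) (PD_D A β hC.d1 hC.d2)
    (fun i => CK.of_zero (cDD1 i) (zDD1 i))
  have hrep := hR n V hV a b a1 b1 hS.da hS.db ca cb ca1 cb1 (XX A β lam)
    (fun i => XX1 A β lam lam1 i i) (fun i => CK.of_zero (cXX i) (zXX i))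
    (fun i => PD_XX A β hC.d1 i i) (fun i => CK.of_zero (cXX1 i i) (zXX1 i i))
  have hJ : ∫ x, ∑ i, lam (hn x) * (A x i + β i) *
        (v1 x * b1 i x + a x * w2 i x - v2 x * a1 i x - b x * w1 i x) =
      ∫ x, ∑ i, XX A β lam i x * (v1 x * b1 i x + a x * w2 i x - v2 x * a1 i x - b x * w1 i x) :=
    rfl
  rw [hJ, hvir]
  -- the potential part
  set P : E n → ℝ := fun x => V x * (2 * (∑ i, XX A β lam i x * (a x * a1 i x + b x * b1 i x))
        + (∑ j, XX1 A β lam lam1 j j x) * (a x ^ 2 + b x ^ 2)) with hP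
  set M : E n → ℝ := fun x =>
      2 * (∑ i, ∑ j, XX1 A β lam lam1 i j x * (a1 i x * a1 j x + b1 i x * b1 j x))
      + (∑ i, DD1 A β lam1 lam2 i x * (a x * a1 i x + b x * b1 i x))
      + 1 / 2 * (∑ j, XX1 A β lam lam1 j j x) * (a x ^ 2 + b x ^ 2) ^ 2
      + 2 * (∑ i, XX A β lam i x * (e1 x * a1 i x + e2 x * b1 i x))
      + (∑ j, XX1 A β lam lam1 j j x) * (a x * e1 x + b x * e2 x) with hM
  have cS1 : Continuous fun x => ∑ j, XX1 A β lam lam1 j j x :=
    continuous_finsetSum _ fun j _ => cXX1 j j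
  have zS1 : ∀ x, √(2 * T) < ‖x‖ → ∑ j, XX1 A β lam lam1 j j x = 0 := fun x hx =>
    Finset.sum_eq_zero fun j _ => zXX1 j j x hx
  have iP : Integrable P := by
    refine CK.int (CK.of_zero (L := √(2 * T)) ?_ fun x hx => ?_)
    · have h1 : Continuous fun x => ∑ i, XX A β lam i x * (a x * a1 i x + b x * b1 i x) :=
        continuous_finsetSum _ fun i _ => by
          have := cXX i
          have := ca1 i
          have := cb1 i
          fun_prop
      rw [hP]
      fun_prop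
    · rw [hP]
      simp only
      rw [zS1 x hx, Finset.sum_eq_zero fun i _ => by rw [zXX i x hx, zero_mul]]
      ring
  have iM : Integrable M := by
    refine CK.int (CK.of_zero (L := √(2 * T)) ?_ fun x hx => ?_)
    · have h1 : Continuous fun x => ∑ i, ∑ j, XX1 A β lam lam1 i j x *
          (a1 i x * a1 j x + b1 i x * b1 j x) :=
        continuous_finsetSum _ fun i _ => continuous_finsetSum _ fun j _ => by
          have := cXX1 i j
          have := ca1 i
          have := cb1 i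
          have := ca1 j
          have := cb1 j
          fun_prop
      have h2 : Continuous fun x => ∑ i, DD1 A β lam1 lam2 i x * (a x * a1 i x + b x * b1 i x) :=
        continuous_finsetSum _ fun i _ => by
          have := cDD1 i
          have := ca1 i
          have := cb1 i
          fun_prop
      have h3 : Continuous fun x => ∑ i, XX A β lam i x * (e1 x * a1 i x + e2 x * b1 i x) :=
        continuous_finsetSum _ fun i _ => by
          have := cXX i
          have := ca1 i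
          have := cb1 i
          fun_prop
      rw [hM]
      fun_prop
    · rw [hM]
      simp only
      rw [zS1 x hx, Finset.sum_eq_zero fun i _ => Finset.sum_eq_zero fun j _ => by
        rw [zXX1 i j x hx, zero_mul], Finset.sum_eq_zero fun i _ => by
        rw [zDD1 i x hx, zero_mul], Finset.sum_eq_zero fun i _ => by rw [zXX i x hx, zero_mul]]
      ring
  have hsplit : ∫ x, (2 * (∑ i, ∑ j, XX1 A β lam lam1 i j x * (a1 i x * a1 j x + b1 i x * b1 j x))
      + (∑ i, DD1 A β lam1 lam2 i x * (a x * a1 i x + b x * b1 i x))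
      + V x * (2 * (∑ i, XX A β lam i x * (a x * a1 i x + b x * b1 i x))
        + (∑ j, XX1 A β lam lam1 j j x) * (a x ^ 2 + b x ^ 2))
      + 1 / 2 * (∑ j, XX1 A β lam lam1 j j x) * (a x ^ 2 + b x ^ 2) ^ 2
      + 2 * (∑ i, XX A β lam i x * (e1 x * a1 i x + e2 x * b1 i x))
      + (∑ j, XX1 A β lam lam1 j j x) * (a x * e1 x + b x * e2 x)) =
      (∫ x, M x) + ∫ x, P x := by
    rw [← integral_add iM iP]
    refine integral_congr_ae (Filter.Eventually.of_forall fun x => ?_)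
    simp only [hM, hP]
    ring
  rw [hsplit]
  have hP0 : 0 ≤ ∫ x, P x := by
    have e0 : ∫ x, P x = -∫ x, (∑ i, XX A β lam i x * fderiv ℝ V x (bv i)) *
        (a x ^ 2 + b x ^ 2) := hrep
    rw [e0]
    have : ∫ x, (∑ i, XX A β lam i x * fderiv ℝ V x (bv i)) * (a x ^ 2 + b x ^ 2) ≤ 0 := by
      refine integral_nonpos fun x => ?_
      have e1 : ∑ i, XX A β lam i x * fderiv ℝ V x (bv i) =
          lam (hn x) * fderiv ℝ V x (A x + β) := by
        have e2 : A x + β = ∑ i, LL A β i x • bv i := by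
          ext j
          have e3 : (∑ i, LL A β i x • bv i : E n) j =
              ∑ i, LL A β i x * Pi.single (M := fun _ => ℝ) i 1 j := by
            simp [bv, Finset.sum_apply]
          rw [e3, Finset.sum_eq_single j]
          · simp [LL]
          · intro i _ hij
            rw [Pi.single_eq_of_ne (Ne.symm hij), mul_zero]
          · intro h
            exact absurd (Finset.mem_univ j) h
        rw [e2, map_sum, Finset.mul_sum]
        refine Finset.sum_congr rfl fun i _ => ?_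
        rw [map_smul, smul_eq_mul]
        unfold XX
        ring
      simp only [Pi.zero_apply]
      rw [e1]
      have h1 : lam (hn x) * fderiv ℝ V x (A x + β) ≤ 0 :=
        mul_nonpos_of_nonneg_of_nonpos (hC.nn _).1 (hVr x)
      exact mul_nonpos_of_nonpos_of_nonneg h1 (by positivity)
    linarith
  -- the lower bound is integrable
  have iq : Integrable fun x : E n => lam (hn x) * (a x ^ 2 + b x ^ 2) ^ 2 := by
    refine CK.int (CK.of_zero (L := √(2 * T)) (by fun_prop) fun x hx => ?_)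
    rw [(hz x hx).1]
    ring
  have ie : IntegrableOn (fun x : E n => e1 x ^ 2 + e2 x ^ 2)
      (Metric.closedBall (0 : E n) (√(2 * T))) :=
    (by fun_prop : Continuous fun x : E n => e1 x ^ 2 + e2 x ^ 2).continuousOn.integrableOn_compact
      (isCompact_closedBall _ _)
  have ie' : Integrable ((Metric.closedBall (0 : E n) (√(2 * T))).indicator
      (fun x => e1 x ^ 2 + e2 x ^ 2)) := ie.integrable_indicator measurableSet_closedBall
  have hpt : ∀ x, tr A / 2 * (lam (hn x) * (a x ^ 2 + b x ^ 2) ^ 2)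
      - KK A β * μ * (a x ^ 2 + b x ^ 2) ^ 2
      - (KK A β * μ + θ) * ((a x ^ 2 + b x ^ 2) + gsq a1 b1 x)
      - θ⁻¹ * (KK A β * (1 + T)) *
        (Metric.closedBall (0 : E n) (√(2 * T))).indicator (fun x => e1 x ^ 2 + e2 x ^ 2) x ≤
      M x := by
    intro x
    have h := lin_pt A β hA hT hθ hμ1 hC x (fun i => a1 i x) (fun i => b1 i x) (a x) (b x)
      (e1 x) (e2 x)
    have e0 : (Metric.closedBall (0 : E n) (√(2 * T))).indicator (fun x => e1 x ^ 2 + e2 x ^ 2) x
      = (Metric.closedBall (0 : E n) (√(2 * T))).indicator (fun _ => e1 x ^ 2 + e2 x ^ 2) x := by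
      by_cases hx : x ∈ Metric.closedBall (0 : E n) (√(2 * T))
      · rw [indicator_of_mem hx, indicator_of_mem hx]
      · rw [indicator_of_notMem hx, indicator_of_notMem hx]
    rw [e0]
    exact h
  have iA : Integrable fun x : E n => tr A / 2 * (lam (hn x) * (a x ^ 2 + b x ^ 2) ^ 2) :=
    iq.const_mul _
  have iB : Integrable fun x : E n => KK A β * μ * (a x ^ 2 + b x ^ 2) ^ 2 := iρ2.const_mul _
  have iD : Integrable fun x : E n => (KK A β * μ + θ) *
        ((a x ^ 2 + b x ^ 2) + gsq a1 b1 x) := (iρ.add iG).const_mul _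
  have iE : Integrable fun x : E n => θ⁻¹ * (KK A β * (1 + T)) *
        (Metric.closedBall (0 : E n) (√(2 * T))).indicator (fun x => e1 x ^ 2 + e2 x ^ 2) x :=
    ie'.const_mul _
  have iAB : Integrable fun x : E n => tr A / 2 * (lam (hn x) * (a x ^ 2 + b x ^ 2) ^ 2)
      - KK A β * μ * (a x ^ 2 + b x ^ 2) ^ 2 := iA.sub iB
  have iABD : Integrable fun x : E n => tr A / 2 * (lam (hn x) * (a x ^ 2 + b x ^ 2) ^ 2)
      - KK A β * μ * (a x ^ 2 + b x ^ 2) ^ 2
      - (KK A β * μ + θ) * ((a x ^ 2 + b x ^ 2) + gsq a1 b1 x) := iAB.sub iD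
  have hm := integral_mono (iABD.sub iE) iM hpt
  simp only [Pi.sub_apply] at hm
  rw [integral_sub iABD iE, integral_sub iAB iD, integral_sub iA iB,
    integral_const_mul, integral_const_mul, integral_const_mul,
    integral_const_mul, integral_add iρ iG, integral_indicator measurableSet_closedBall] at hm
  have etr : (∑ j, A (bv j) j) = tr A := rfl
  rw [etr]
  linarith

end

end Pool.Agent.Lib_helper40.NLM
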