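import Pool.Agent.Lib_helper40.NLM.Stmts

/-!
# NLM_RAGE: from virial functionals to averaged local decay
-/

namespace Pool.Agent.Lib_helper40.NLM

open MeasureTheory Set Filter Topology
open Pool.Agent.Lib_helper40.NLN

noncomputable section

namespace Rage

variable {n : ℕ}

lemma cont_mass {ψ : ℝ → E n → ℂ} (h2 : ∀ t, MemLp (ψ t) 2 volume)
    (hc : ∀ t₀, Tendsto (fun t => ∫ x, ‖ψ t x - ψ t₀ x‖ ^ 2) (𝓝 t₀) (𝓝 0)) (B : Set (E n)) :
    Continuous fun t => ∫ x in B, ‖ψ t x‖ ^ 2 := by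
  rw [continuous_iff_continuousAt]
  intro t₀
  rw [Metric.continuousAt_iff']
  intro ε hε
  have i : ∀ t, Integrable fun x => ‖ψ t x‖ ^ 2 := fun t =>
    (h2 t).integrable_norm_pow (by norm_num)
  have id : ∀ t, Integrable fun x => ‖ψ t x - ψ t₀ x‖ ^ 2 := fun t =>
    ((h2 t).sub (h2 t₀)).integrable_norm_pow (by norm_num)
  set m₀ := ∫ x in B, ‖ψ t₀ x‖ ^ 2 with hm
  have hm₀ : 0 ≤ m₀ := integral_nonneg fun x => by positivity
  set δ := ε / (2 * (m₀ + 1)) with hδe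
  have hδ : 0 < δ := by positivity
  have h1 : ∀ᶠ t in 𝓝 t₀, ∫ x, ‖ψ t x - ψ t₀ x‖ ^ 2 < ε / (2 * (1 + δ⁻¹)) :=
    (hc t₀).eventually_lt_const (by positivity)
  filter_upwards [h1] with t ht
  rw [Real.dist_eq, hm, ← integral_sub (i t).integrableOn (i t₀).integrableOn,
    ← Real.norm_eq_abs]
  have h3 : ‖∫ x in B, (‖ψ t x‖ ^ 2 - ‖ψ t₀ x‖ ^ 2)‖ ≤
      ∫ x in B, ((1 + δ⁻¹) * ‖ψ t x - ψ t₀ x‖ ^ 2 + δ * ‖ψ t₀ x‖ ^ 2) := by
    refine norm_integral_le_of_norm_le
      (((id t).integrableOn.const_mul _).add ((i t₀).integrableOn.const_mul _))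
      (ae_of_all _ fun x => ?_)
    rw [Real.norm_eq_abs]
    set a := ‖ψ t x‖
    set b := ‖ψ t₀ x‖
    set d := ‖ψ t x - ψ t₀ x‖
    have ha : 0 ≤ a := norm_nonneg _
    have hb : 0 ≤ b := norm_nonneg _
    have hd : 0 ≤ d := norm_nonneg _
    have h5 : |a - b| ≤ d := abs_norm_sub_norm_le _ _
    have h6 := abs_le.1 h5
    have h7 : 2 * (d * b) ≤ δ⁻¹ * d ^ 2 + δ * b ^ 2 := by
      have : 0 ≤ δ⁻¹ * (d - δ * b) ^ 2 := by positivity
      have h8 : δ⁻¹ * (d - δ * b) ^ 2 = δ⁻¹ * d ^ 2 + δ * b ^ 2 - 2 * (d * b) := by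
        field_simp; ring
      linarith
    rw [abs_le]
    constructor
    · nlinarith
    · nlinarith
  refine h3.trans_lt ?_
  rw [integral_add ((id t).integrableOn.const_mul _) ((i t₀).integrableOn.const_mul _),
    integral_const_mul, integral_const_mul]
  have h4 : ∫ x in B, ‖ψ t x - ψ t₀ x‖ ^ 2 ≤ ∫ x, ‖ψ t x - ψ t₀ x‖ ^ 2 :=
    setIntegral_le_integral (id t) (ae_of_all _ fun x => by
      simp only [Pi.zero_apply]; positivity)
  have h5 : (1 + δ⁻¹) * ∫ x in B, ‖ψ t x - ψ t₀ x‖ ^ 2 < ε / 2 := by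
    have h6 : (1 + δ⁻¹) * ∫ x in B, ‖ψ t x - ψ t₀ x‖ ^ 2 <
        (1 + δ⁻¹) * (ε / (2 * (1 + δ⁻¹))) := by
      apply mul_lt_mul_of_pos_left (h4.trans_lt ht)
      positivity
    have h7 : (1 + δ⁻¹) * (ε / (2 * (1 + δ⁻¹))) = ε / 2 := by
      field_simp
    linarith
  have h6 : δ * m₀ ≤ ε / 2 := by
    rw [hδe, div_mul_eq_mul_div, div_le_div_iff₀ (by positivity) (by norm_num)]
    nlinarith
  linarith

/-- the pointwise (in time) inequality -/
lemma mass_bd {f g : E n → ℂ} {R c D η : ℝ} (hR : 0 < R) (hc : 0 < c)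
    (hf : MemLp f 2 volume) (hg : Continuous g)
    (h1 : (∫ x in Metric.closedBall (0 : E n) R, ‖g x - f x‖ ^ 2) ≤ η)
    (h2 : c * (∫ x in Metric.closedBall (0 : E n) R, ‖g x‖ ^ 4) ≤ D) :
    (∫ x in Metric.closedBall (0 : E n) R, ‖f x‖ ^ 2) ^ 2 ≤
      8 * (volume.real (Metric.closedBall (0 : E n) R) / c * D) + 8 * η ^ 2 := by
  set B := Metric.closedBall (0 : E n) R with hB
  set vol := volume.real B with hvol
  have hvolp : 0 < vol := ball_vol hR
  have hBc : IsCompact B := isCompact_closedBall _ _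
  have i1 : IntegrableOn (fun x => ‖f x‖ ^ 2) B :=
    (hf.integrable_norm_pow (by norm_num)).integrableOn
  have i2 : IntegrableOn (fun x => ‖g x‖ ^ 2) B :=
    (by fun_prop : Continuous fun x => ‖g x‖ ^ 2).continuousOn.integrableOn_compact hBc
  have i3 : IntegrableOn (fun x => ‖g x - f x‖ ^ 2) B := by
    refine ((i2.const_mul 2).add (i1.const_mul 2)).mono'
      ((hg.aestronglyMeasurable.restrict.sub hf.1.restrict).norm.pow 2) (ae_of_all _ fun x => ?_)
    rw [norm_pow, norm_norm]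
    have h1 : ‖g x - f x‖ ≤ ‖g x‖ + ‖f x‖ := norm_sub_le _ _
    simp only [Pi.add_apply]
    nlinarith [norm_nonneg (g x), norm_nonneg (f x),
      norm_nonneg (g x - f x), sq_nonneg (‖g x‖ - ‖f x‖)]
  set A := ∫ x in B, ‖g x‖ ^ 2 with hA
  have hA0 : 0 ≤ A := integral_nonneg fun x => by positivity
  set m := ∫ x in B, ‖f x‖ ^ 2 with hm
  have hm0 : 0 ≤ m := integral_nonneg fun x => by positivity
  have h3 : m ≤ 2 * A + 2 * η := by
    have e5 : ∫ x in B, ‖f x‖ ^ 2 ≤ ∫ x in B, (2 * ‖g x‖ ^ 2 + 2 * ‖g x - f x‖ ^ 2) := by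
      refine integral_mono i1 ((i2.const_mul 2).add (i3.const_mul 2)) fun x => ?_
      simp only
      have h1 : ‖f x‖ ≤ ‖g x‖ + ‖g x - f x‖ := by
        calc ‖f x‖ = ‖g x - (g x - f x)‖ := by congr 1; ring
          _ ≤ _ := norm_sub_le _ _
      nlinarith [norm_nonneg (g x), norm_nonneg (f x),
        norm_nonneg (g x - f x), sq_nonneg (‖g x‖ - ‖g x - f x‖)]
    rw [integral_add (i2.const_mul 2) (i3.const_mul 2),
      integral_const_mul, integral_const_mul] at e5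
    linarith
  have h4 := sq_lower (R := R) (m := A) (by fun_prop : Continuous fun x => ‖g x‖ ^ 2) hR hA0 le_rfl
  rw [← hB, ← hvol] at h4
  have h5 : ∫ x in B, (‖g x‖ ^ 2) ^ 2 = ∫ x in B, ‖g x‖ ^ 4 := by
    congr 1; ext x; ring
  rw [h5] at h4
  have h6 : c * (A ^ 2 / vol) ≤ D := le_trans (by gcongr) h2
  have h7 : A ^ 2 ≤ vol / c * D := by
    have : vol / c * (c * (A ^ 2 / vol)) ≤ vol / c * D := by gcongr
    have h8 : vol / c * (c * (A ^ 2 / vol)) = A ^ 2 := by field_simp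
    linarith
  have h9 : m ^ 2 ≤ (2 * A + 2 * η) ^ 2 := by gcongr
  nlinarith [sq_nonneg (A - η)]

end Rage

open Rage in
theorem rage : RageStmt := by
  intro n ψ h2 hc R c hR hcp H ε hε
  set B := Metric.closedBall (0 : E n) R with hB
  set vol := volume.real B with hvol
  have hvolp : 0 < vol := ball_vol hR
  set l := ε / 4 with hl
  have hl0 : 0 < l := by positivity
  set ε₀ := ε * l * c / (8 * vol) with hε₀
  have hε₀p : 0 < ε₀ := by positivity
  obtain ⟨Q, hQ⟩ := H ε₀ hε₀p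
  set η := min 1 (ε * l / 8) with hη
  have hηp : 0 < η := by positivity
  have hη2 : η ^ 2 ≤ ε * l / 8 := by
    have h1 : η ≤ 1 := min_le_left _ _
    have h2 : η ≤ ε * l / 8 := min_le_right _ _
    nlinarith
  have hcont := cont_mass h2 hc B
  set m : ℝ → ℝ := fun t => ∫ x in B, ‖ψ t x‖ ^ 2 with hm
  refine ⟨max 1 (16 * vol * Q / (c * l * ε)), by positivity, fun s T hT => ?_⟩
  have hT1 : 1 ≤ T := (le_max_left _ _).trans hT
  have hT0 : 0 < T := by linarith
  have hT2 : 16 * vol * Q / (c * l * ε) ≤ T := (le_max_right _ _).trans hT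
  obtain ⟨φ, M, M', hφ⟩ := hQ s T η hT0 hηp
  have hmono : MonotoneOn (fun t => l * t + 1 / (4 * l) * (8 * (vol / c * (M t + ε₀ * t))
      + 8 * η ^ 2 * t) - ∫ u in s..t, m u) (Icc s (s + T)) := by
    have hd : ∀ t ∈ Icc s (s + T), HasDerivAt (fun t => l * t + 1 / (4 * l) * (8 * (vol / c *
        (M t + ε₀ * t)) + 8 * η ^ 2 * t) - ∫ u in s..t, m u)
        (l * 1 + 1 / (4 * l) * (8 * (vol / c * (M' t + ε₀ * 1)) + 8 * η ^ 2 * 1) - m t) t := by
      intro t ht
      obtain ⟨-, -, h3, -, -⟩ := hφ t ht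
      have e1 : HasDerivAt (fun t : ℝ => l * t) (l * 1) t := (hasDerivAt_id' t).const_mul _
      have e2 : HasDerivAt (fun t : ℝ => ε₀ * t) (ε₀ * 1) t := (hasDerivAt_id' t).const_mul _
      have e3 : HasDerivAt (fun t : ℝ => 8 * η ^ 2 * t) (8 * η ^ 2 * 1) t :=
        (hasDerivAt_id' t).const_mul _
      have e4 : HasDerivAt (fun t => ∫ u in s..t, m u) (m t) t :=
        intervalIntegral.integral_hasDerivAt_right (hcont.intervalIntegrable _ _)
          hcont.stronglyMeasurable.stronglyMeasurableAtFilter hcont.continuousAt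
      exact (e1.add (((((h3.add e2).const_mul _).const_mul _).add e3).const_mul _)).sub e4
    refine monotoneOn_of_deriv_nonneg (convex_Icc _ _) (fun t ht => ?_) (fun t ht => ?_)
      (fun t ht => ?_)
    · exact (hd t ht).continuousAt.continuousWithinAt
    · exact (hd t (interior_subset ht)).differentiableAt.differentiableWithinAt
    · rw [(hd t (interior_subset ht)).deriv]
      obtain ⟨k1, k2, k3, k4, k5⟩ := hφ t (interior_subset ht)
      have k6 := mass_bd hR hcp (h2 t) k1 k4 k5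
      rw [← hB, ← hvol] at k6
      have k7 : m t ≤ l + 1 / (4 * l) * (m t) ^ 2 := by
        have : 0 ≤ 1 / (4 * l) * (m t - 2 * l) ^ 2 := by positivity
        have h8 : 1 / (4 * l) * (m t - 2 * l) ^ 2 = l + 1 / (4 * l) * (m t) ^ 2 - m t := by
          field_simp; ring
        linarith
      have k8 : 1 / (4 * l) * (m t) ^ 2 ≤
          1 / (4 * l) * (8 * (vol / c * (M' t + ε₀)) + 8 * η ^ 2) := by
        gcongr
      simp only [mul_one]
      linarith
  have h1 := hmono (left_mem_Icc.2 (by linarith)) (right_mem_Icc.2 (by linarith))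
    (by linarith : s ≤ s + T)
  simp only [intervalIntegral.integral_same, sub_zero] at h1
  obtain ⟨-, q1, -⟩ := hφ s (left_mem_Icc.2 (by linarith))
  obtain ⟨-, q2, -⟩ := hφ (s + T) (right_mem_Icc.2 (by linarith))
  have h3 := (abs_le.1 q2).2
  have h4 := (abs_le.1 q1).1
  have h5 : ∫ u in s..(s + T), m u ≤ l * T + 1 / (4 * l) * (8 * (vol / c * (2 * Q + ε₀ * T))
      + 8 * η ^ 2 * T) := by
    have h6 : 1 / (4 * l) * (8 * (vol / c * (M (s + T) - M s))) ≤
        1 / (4 * l) * (8 * (vol / c * (2 * Q))) := by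
      gcongr
      linarith
    have h7 : l * (s + T) + 1 / (4 * l) * (8 * (vol / c * (M (s + T) + ε₀ * (s + T)))
        + 8 * η ^ 2 * (s + T)) - (l * s + 1 / (4 * l) * (8 * (vol / c * (M s + ε₀ * s))
        + 8 * η ^ 2 * s)) = l * T + 1 / (4 * l) * (8 * (vol / c * (M (s + T) - M s)))
        + 1 / (4 * l) * (8 * (vol / c * (ε₀ * T)) + 8 * η ^ 2 * T) := by ring
    have h8 : l * T + 1 / (4 * l) * (8 * (vol / c * (2 * Q + ε₀ * T)) + 8 * η ^ 2 * T) =
        l * T + 1 / (4 * l) * (8 * (vol / c * (2 * Q)))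
        + 1 / (4 * l) * (8 * (vol / c * (ε₀ * T)) + 8 * η ^ 2 * T) := by ring
    rw [h8]
    linarith
  refine h5.trans ?_
  have g1 : 1 / (4 * l) * (8 * (vol / c * (ε₀ * T))) = ε / 4 * T := by
    rw [hε₀]; field_simp
  have g2 : 1 / (4 * l) * (8 * η ^ 2 * T) ≤ ε / 4 * T := by
    have : 1 / (4 * l) * (8 * (ε * l / 8) * T) = ε / 4 * T := by
      field_simp
    rw [← this]
    gcongr
  have g3 : 1 / (4 * l) * (8 * (vol / c * (2 * Q))) ≤ ε / 4 * T := by
    have : 1 / (4 * l) * (8 * (vol / c * (2 * Q))) = ε / 4 * (16 * vol * Q / (c * l * ε)) := by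
      field_simp; ring
    rw [this]
    gcongr
  have g4 : l * T + 1 / (4 * l) * (8 * (vol / c * (2 * Q + ε₀ * T)) + 8 * η ^ 2 * T) =
      l * T + 1 / (4 * l) * (8 * (vol / c * (2 * Q))) + 1 / (4 * l) * (8 * (vol / c * (ε₀ * T)))
        + 1 / (4 * l) * (8 * η ^ 2 * T) := by ring
  rw [g4, hl]
  rw [hl] at g1 g2 g3
  linarith

end

end Pool.Agent.Lib_helper40.NLM
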