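import Pool.Agent.Lib_helper40.NLM.Stmts

/-!
# The divergence identity for vector fields with compact support (module NLM_REPX)
-/

namespace Pool.Agent.Lib_helper40.NLM

open MeasureTheory Set Filter Topology
open Pool.Agent.Lib_helper40.NLN

noncomputable section

namespace RepXM

variable {n : ℕ}

lemma ck_mul_left {f g : E n → ℝ} (hf : Continuous f) (hg : CK g) : CK (fun x => f x * g x) :=
  ⟨hf.mul hg.1, hg.2.mul_left⟩

lemma ck_add {f g : E n → ℝ} (hf : CK f) (hg : CK g) : CK (fun x => f x + g x) :=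
  ⟨hf.1.add hg.1, hf.2.add hg.2⟩

end RepXM

open RepXM in
/-- module NLM_REPX -/
theorem repx : RepXStmt := by
  intro n U hU a b a1 b1 ha hb ca cb ca1 cb1 X X1 kX hX kX1
  have cU : Continuous U := hU.continuous
  have cfd : Continuous (fderiv ℝ U) := hU.continuous_fderiv (by norm_num)
  have cU' : ∀ i : Fin n, Continuous fun x => fderiv ℝ U x (bv i) := fun i =>
    cfd.clm_apply continuous_const
  have dU : ∀ i : Fin n, PD i U (fun x => fderiv ℝ U x (bv i)) := fun i =>
    pd_of_hasFDerivAt (f' := fderiv ℝ U) fun x =>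
      (hU.differentiable (by norm_num)).differentiableAt.hasFDerivAt
  have cρ : Continuous fun x : E n => a x ^ 2 + b x ^ 2 := (ca.pow 2).add (cb.pow 2)
  -- the derivative of the field
  set dW : Fin n → E n → ℝ := fun i x =>
    (fderiv ℝ U x (bv i) * (a x ^ 2 + b x ^ 2) +
      U x * (2 * a x * a1 i x + 2 * b x * b1 i x)) * X i x +
    U x * (a x ^ 2 + b x ^ 2) * X1 i x with hdW
  have hPD : ∀ i, PD i (fun x => U x * (a x ^ 2 + b x ^ 2) * X i x) (dW i) := fun i =>
    ((dU i).mul (((ha i).sq).add ((hb i).sq))).mul (hX i)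
  have kW : ∀ i, CK (fun x => U x * (a x ^ 2 + b x ^ 2) * X i x) := fun i =>
    ck_mul_left (cU.mul cρ) (kX i)
  have kdW : ∀ i, CK (dW i) := fun i => by
    refine ck_add (ck_mul_left ?_ (kX i)) (ck_mul_left (cU.mul cρ) (kX1 i))
    have e3 := cU' i
    have e5 := ca1 i
    have e6 := cb1 i
    fun_prop
  have hz : ∀ i, ∫ x, dW i x = 0 := fun i => (hPD i).int_zero (kW i) (kdW i)
  have hsum : ∫ x, ∑ i, dW i x = 0 := by
    rw [integral_finsetSum _ fun i _ => (kdW i).int]
    simp [hz]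
  have kR : ∀ i : Fin n, CK (fun x => (fderiv ℝ U x (bv i) * (a x ^ 2 + b x ^ 2)) * X i x) :=
    fun i => ck_mul_left ((cU' i).mul cρ) (kX i)
  have hI : ∀ x, U x * (2 * (∑ i, X i x * (a x * a1 i x + b x * b1 i x))
      + (∑ i, X1 i x) * (a x ^ 2 + b x ^ 2)) =
      (∑ i, dW i x) - ∑ i, (fderiv ℝ U x (bv i) * (a x ^ 2 + b x ^ 2)) * X i x := fun x => by
    rw [← Finset.sum_sub_distrib, Finset.mul_sum, Finset.sum_mul, ← Finset.sum_add_distrib,
      Finset.mul_sum]
    refine Finset.sum_congr rfl fun i _ => ?_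
    simp only [hdW]
    ring
  have hJ : ∀ x, (∑ i, X i x * fderiv ℝ U x (bv i)) * (a x ^ 2 + b x ^ 2) =
      ∑ i, (fderiv ℝ U x (bv i) * (a x ^ 2 + b x ^ 2)) * X i x := fun x => by
    rw [Finset.sum_mul]
    refine Finset.sum_congr rfl fun i _ => ?_
    ring
  simp only [hI, hJ]
  rw [MeasureTheory.integral_sub (integrable_finsetSum _ fun i _ => (kdW i).int)
    (integrable_finsetSum _ fun i _ => (kR i).int), hsum, zero_sub]

end

end Pool.Agent.Lib_helper40.NLM
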