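import Pool.Agent.Lib_helper40.NLM.Stmts

/-!
# The virial identity for a vector field with compact support
-/

namespace Pool.Agent.Lib_helper40.NLM

open MeasureTheory Set Filter Topology
open Pool.Agent.Lib_helper40.NLN

noncomputable section

namespace VirX

variable {n : ℕ}

lemma ck_mul {f g : E n → ℝ} (hf : CK f) (hg : Continuous g) : CK (fun x => f x * g x) :=
  ⟨hf.1.mul hg, hf.2.mul_right⟩

lemma ck_add {f g : E n → ℝ} (hf : CK f) (hg : CK g) : CK (fun x => f x + g x) :=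
  ⟨hf.1.add hg.1, hf.2.add hg.2⟩

lemma ck_sub {f g : E n → ℝ} (hf : CK f) (hg : CK g) : CK (fun x => f x - g x) := by
  refine ⟨hf.1.sub hg.1, ?_⟩
  have h := ck_add hf (ck_mul hg (continuous_const (y := (-1 : ℝ))))
  have e : (fun x => f x - g x) = fun x => f x + g x * (-1) := by
    funext x
    ring
  rw [e]
  exact h.2

lemma ck_congr {f g : E n → ℝ} (hf : CK f) (h : ∀ x, g x = f x) : CK g := by
  have e : g = f := funext h
  rw [e]
  exact hf

lemma ck_zero : CK (fun _ : E n => (0 : ℝ)) := ⟨continuous_const, HasCompactSupport.zero⟩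

lemma ck_sum {ι : Type*} (s : Finset ι) {f : ι → E n → ℝ} (h : ∀ i ∈ s, CK (f i)) :
    CK (fun x => ∑ i ∈ s, f i x) := by
  classical
  induction s using Finset.induction_on with
  | empty => simpa using ck_zero
  | insert a s ha ih =>
    have e : (fun x => ∑ i ∈ insert a s, f i x) = fun x => f a x + ∑ i ∈ s, f i x := by
      funext x
      rw [Finset.sum_insert ha]
    rw [e]
    exact ck_add (h a (Finset.mem_insert_self _ _))
      (ih fun i hi => h i (Finset.mem_insert_of_mem hi))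

/-- `X · ∇ f` -/
def rX (X f1 : Fin n → E n → ℝ) (x : E n) : ℝ := ∑ j, X j x * f1 j x

lemma pd_rX {X : Fin n → E n → ℝ} {X1 : Fin n → Fin n → E n → ℝ}
    (hX : ∀ i j, PD i (X j) (X1 i j)) {f1 : Fin n → E n → ℝ} {f2 : Fin n → Fin n → E n → ℝ}
    (h : ∀ i j, PD i (f1 j) (f2 i j)) (i : Fin n) :
    PD i (rX X f1) (fun x => ∑ j, (X1 i j x * f1 j x + X j x * f2 i j x)) :=
  PD.sum (i := i) Finset.univ (f := fun j x => X j x * f1 j x)
    (fun j _ => (hX i j).mul (h i j))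

/-- the vector field of the identity -/
def FX (X : Fin n → E n → ℝ) (D : E n → ℝ) (a b : E n → ℝ) (a1 b1 : Fin n → E n → ℝ)
    (v1 v2 : E n → ℝ) (i : Fin n) (x : E n) : ℝ :=
  X i x * (a x * v2 x - b x * v1 x) + X i x * gsq a1 b1 x
    - 2 * (rX X a1 x * a1 i x + rX X b1 x * b1 i x)
    - D x * (a x * a1 i x + b x * b1 i x)
    + 1 / 2 * (X i x * (a x ^ 2 + b x ^ 2) ^ 2)

/-- its derivative -/
def dFX (X : Fin n → E n → ℝ) (X1 : Fin n → Fin n → E n → ℝ) (D : E n → ℝ)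
    (D1 : Fin n → E n → ℝ) (a b : E n → ℝ) (a1 b1 : Fin n → E n → ℝ)
    (a2 b2 : Fin n → Fin n → E n → ℝ) (v1 v2 : E n → ℝ) (w1 w2 : Fin n → E n → ℝ)
    (i : Fin n) (x : E n) : ℝ :=
  (X1 i i x * (a x * v2 x - b x * v1 x)
    + X i x * (a1 i x * v2 x + a x * w2 i x - (b1 i x * v1 x + b x * w1 i x)))
    + (X1 i i x * gsq a1 b1 x + X i x * (2 * ∑ j, (a1 j x * a2 i j x + b1 j x * b2 i j x)))
    - 2 * ((∑ j, (X1 i j x * a1 j x + X j x * a2 i j x)) * a1 i x + rX X a1 x * a2 i i x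
        + ((∑ j, (X1 i j x * b1 j x + X j x * b2 i j x)) * b1 i x + rX X b1 x * b2 i i x))
    - (D1 i x * (a x * a1 i x + b x * b1 i x)
      + D x * (a1 i x * a1 i x + a x * a2 i i x + (b1 i x * b1 i x + b x * b2 i i x)))
    + 1 / 2 * (X1 i i x * (a x ^ 2 + b x ^ 2) ^ 2
      + X i x * (2 * (a x ^ 2 + b x ^ 2) * (2 * a x * a1 i x + 2 * b x * b1 i x)))

variable {V a b v1 v2 e1 e2 : E n → ℝ} {a1 b1 w1 w2 : Fin n → E n → ℝ}
  {a2 b2 : Fin n → Fin n → E n → ℝ}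

lemma pd_FX {X : Fin n → E n → ℝ} {X1 : Fin n → Fin n → E n → ℝ}
    (hX : ∀ i j, PD i (X j) (X1 i j)) {D : E n → ℝ} {D1 : Fin n → E n → ℝ}
    (hD : ∀ i, PD i D (D1 i))
    (hS : SnapN V a b a1 b1 a2 b2 v1 v2 w1 w2 e1 e2) (i : Fin n) :
    PD i (FX X D a b a1 b1 v1 v2 i) (dFX X X1 D D1 a b a1 b1 a2 b2 v1 v2 w1 w2 i) := by
  have xi := hX i i
  have ha := hS.da i
  have hb := hS.db i
  have ha1 := hS.da1 i i
  have hb1 := hS.db1 i i
  have hv1 := hS.dv1 i
  have hv2 := hS.dv2 i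
  have hA := pd_rX hX hS.da1 i
  have hB := pd_rX hX hS.db1 i
  have hG := PD.gsq hS.da1 hS.db1 i
  have hρ := ha.sq.add hb.sq
  have H := (((((xi.mul ((ha.mul hv2).sub (hb.mul hv1))).add (xi.mul hG)).sub
    (((hA.mul ha1).add (hB.mul hb1)).const_mul 2)).sub
    ((hD i).mul ((ha.mul ha1).add (hb.mul hb1)))).add ((xi.mul hρ.sq).const_mul (1 / 2)))
  exact H

/-- swapping the Hessian -/
lemma hess_swapX {X f1 : Fin n → E n → ℝ} {f2 : Fin n → Fin n → E n → ℝ}
    (hs : ∀ i j x, f2 i j x = f2 j i x) (x : E n) :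
    ∑ i, X i x * (∑ j, f1 j x * f2 i j x) = ∑ i, (∑ j, X j x * f2 i j x) * f1 i x := by
  simp only [Finset.mul_sum, Finset.sum_mul]
  rw [Finset.sum_comm]
  refine Finset.sum_congr rfl fun i _ => Finset.sum_congr rfl fun j _ => ?_
  rw [hs i j]; ring

/-- the divergence identity -/
lemma div_FX {X : Fin n → E n → ℝ} {X1 : Fin n → Fin n → E n → ℝ} {D1 : Fin n → E n → ℝ}
    (hS : SnapN V a b a1 b1 a2 b2 v1 v2 w1 w2 e1 e2) (x : E n) :
    ∑ i, dFX X X1 (fun x => ∑ j, X1 j j x) D1 a b a1 b1 a2 b2 v1 v2 w1 w2 i x =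
      (∑ i, X i x * (v1 x * b1 i x + a x * w2 i x - v2 x * a1 i x - b x * w1 i x)) -
      (2 * (∑ i, ∑ j, X1 i j x * (a1 i x * a1 j x + b1 i x * b1 j x))
      + (∑ i, D1 i x * (a x * a1 i x + b x * b1 i x))
      + V x * (2 * (∑ i, X i x * (a x * a1 i x + b x * b1 i x))
        + (∑ j, X1 j j x) * (a x ^ 2 + b x ^ 2))
      + 1 / 2 * (∑ j, X1 j j x) * (a x ^ 2 + b x ^ 2) ^ 2
      + 2 * (∑ i, X i x * (e1 x * a1 i x + e2 x * b1 i x))
      + (∑ j, X1 j j x) * (a x * e1 x + b x * e2 x)) := by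
  set ρ := a x ^ 2 + b x ^ 2 with hρ
  set D := ∑ j, X1 j j x with hD
  have s2 : ∑ i, X i x * a1 i x = rX X a1 x := rfl
  have s3 : ∑ i, X i x * b1 i x = rX X b1 x := rfl
  have s5 := hess_swapX (X := X) (f1 := a1) hS.sa x
  have s6 := hess_swapX (X := X) (f1 := b1) hS.sb x
  have hdec : ∀ i, dFX X X1 (fun x => ∑ j, X1 j j x) D1 a b a1 b1 a2 b2 v1 v2 w1 w2 i x =
      (a x * v2 x - b x * v1 x + gsq a1 b1 x + 1 / 2 * ρ ^ 2) * X1 i i x
      + (v2 x + 2 * ρ * a x) * (X i x * a1 i x)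
      + (-v1 x + 2 * ρ * b x) * (X i x * b1 i x)
      + X i x * (a x * w2 i x - b x * w1 i x)
      + 2 * (X i x * (∑ j, a1 j x * a2 i j x)) + 2 * (X i x * (∑ j, b1 j x * b2 i j x))
      + (-2) * ((∑ j, X j x * a2 i j x) * a1 i x)
      + (-2) * ((∑ j, X j x * b2 i j x) * b1 i x)
      + (-2) * (∑ j, X1 i j x * (a1 i x * a1 j x + b1 i x * b1 j x))
      + (-1) * (D1 i x * (a x * a1 i x + b x * b1 i x))
      + (-D) * (a1 i x ^ 2 + b1 i x ^ 2)
      + (-(2 * rX X a1 x) - D * a x) * a2 i i x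
      + (-(2 * rX X b1 x) - D * b x) * b2 i i x := by
    intro i
    have t1 : ∑ j, X1 i j x * (a1 i x * a1 j x + b1 i x * b1 j x) =
        (∑ j, X1 i j x * a1 j x) * a1 i x + (∑ j, X1 i j x * b1 j x) * b1 i x := by
      rw [Finset.sum_mul, Finset.sum_mul, ← Finset.sum_add_distrib]
      exact Finset.sum_congr rfl fun j _ => by ring
    simp only [dFX]
    rw [t1, Finset.sum_add_distrib, Finset.sum_add_distrib, Finset.sum_add_distrib, ← hD, ← hρ]
    ring
  simp only [hdec, Finset.sum_add_distrib, ← Finset.mul_sum]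
  rw [s2, s3, s5, s6, ← hD]
  have s4' : ∑ i, a1 i x ^ 2 + ∑ i, b1 i x ^ 2 = gsq a1 b1 x := by
    rw [← Finset.sum_add_distrib]; rfl
  rw [s4']
  have hd : ∑ i, X i x * (v1 x * b1 i x + a x * w2 i x - v2 x * a1 i x - b x * w1 i x) =
      v1 x * rX X b1 x - v2 x * rX X a1 x + ∑ i, X i x * (a x * w2 i x - b x * w1 i x) := by
    rw [← s2, ← s3, Finset.mul_sum, Finset.mul_sum, ← Finset.sum_sub_distrib,
      ← Finset.sum_add_distrib]
    exact Finset.sum_congr rfl fun i _ => by ring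
  have hf : ∑ i, X i x * (a x * a1 i x + b x * b1 i x) = a x * rX X a1 x + b x * rX X b1 x := by
    rw [← s2, ← s3, Finset.mul_sum, Finset.mul_sum, ← Finset.sum_add_distrib]
    exact Finset.sum_congr rfl fun i _ => by ring
  have hg : ∑ i, X i x * (e1 x * a1 i x + e2 x * b1 i x) =
      e1 x * rX X a1 x + e2 x * rX X b1 x := by
    rw [← s2, ← s3, Finset.mul_sum, Finset.mul_sum, ← Finset.sum_add_distrib]
    exact Finset.sum_congr rfl fun i _ => by ring
  rw [hd, hf, hg]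
  have e1' := hS.hv1 x
  have e2' := hS.hv2 x
  rw [← hρ] at e1' e2'
  rw [e1', e2']
  ring

lemma ck_FX {X : Fin n → E n → ℝ} (hX : ∀ i, CK (X i)) {D : E n → ℝ} (hD : CK D)
    (hS : SnapN V a b a1 b1 a2 b2 v1 v2 w1 w2 e1 e2) (i : Fin n) :
    CK (FX X D a b a1 b1 v1 v2 i) := by
  have ca := hS.ca
  have cb := hS.cb
  have ca1 := hS.ca1
  have cb1 := hS.cb1
  have ca1i := hS.ca1 i
  have cb1i := hS.cb1 i
  have cv1 := hS.cv1
  have cv2 := hS.cv2
  have kg := gsq_cont ca1 cb1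
  have kA : CK (rX X a1) := ck_sum Finset.univ fun j _ => ck_mul (hX j) (ca1 j)
  have kB : CK (rX X b1) := ck_sum Finset.univ fun j _ => ck_mul (hX j) (cb1 j)
  have h1 := ck_mul (g := fun x => a x * v2 x - b x * v1 x) (hX i) (by fun_prop)
  have h2 := ck_mul (hX i) kg
  have h3 := ck_mul (g := fun _ => 2) (ck_add (ck_mul kA ca1i) (ck_mul kB cb1i))
    continuous_const
  have h4 := ck_mul (g := fun x => a x * a1 i x + b x * b1 i x) hD (by fun_prop)
  have h5 := ck_mul (g := fun x => (a x ^ 2 + b x ^ 2) ^ 2 * (1 / 2)) (hX i) (by fun_prop)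
  have H := ck_add (ck_sub (ck_sub (ck_add h1 h2) h3) h4) h5
  have e : (fun x => X i x * (a x * v2 x - b x * v1 x) + X i x * gsq a1 b1 x
      - (rX X a1 x * a1 i x + rX X b1 x * b1 i x) * 2
      - D x * (a x * a1 i x + b x * b1 i x)
      + X i x * ((a x ^ 2 + b x ^ 2) ^ 2 * (1 / 2))) = FX X D a b a1 b1 v1 v2 i := by
    funext x
    unfold FX
    ring
  rw [← e]
  exact H

lemma ck_dFX {X : Fin n → E n → ℝ} (hX : ∀ i, CK (X i)) {X1 : Fin n → Fin n → E n → ℝ}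
    (hX1 : ∀ i j, CK (X1 i j)) {D : E n → ℝ} (hD : CK D) {D1 : Fin n → E n → ℝ}
    (hD1 : ∀ i, CK (D1 i))
    (hS : SnapN V a b a1 b1 a2 b2 v1 v2 w1 w2 e1 e2) (i : Fin n) :
    CK (dFX X X1 D D1 a b a1 b1 a2 b2 v1 v2 w1 w2 i) := by
  have ca := hS.ca
  have cb := hS.cb
  have ca1 := hS.ca1
  have cb1 := hS.cb1
  have ca1i := hS.ca1 i
  have cb1i := hS.cb1 i
  have ca2i := hS.ca2 i i
  have cb2i := hS.cb2 i i
  have cv1 := hS.cv1
  have cv2 := hS.cv2
  have cw1 := hS.cw1 i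
  have cw2 := hS.cw2 i
  have kg := gsq_cont ca1 cb1
  have kA : CK (rX X a1) := ck_sum Finset.univ fun j _ => ck_mul (hX j) (ca1 j)
  have kB : CK (rX X b1) := ck_sum Finset.univ fun j _ => ck_mul (hX j) (cb1 j)
  have kA1 : CK (fun x => ∑ j, (X1 i j x * a1 j x + X j x * a2 i j x)) :=
    ck_sum Finset.univ fun j _ => ck_add (ck_mul (hX1 i j) (ca1 j)) (ck_mul (hX j) (hS.ca2 i j))
  have kB1 : CK (fun x => ∑ j, (X1 i j x * b1 j x + X j x * b2 i j x)) :=
    ck_sum Finset.univ fun j _ => ck_add (ck_mul (hX1 i j) (cb1 j)) (ck_mul (hX j) (hS.cb2 i j))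
  have s1 : Continuous fun x : E n => ∑ j, (a1 j x * a2 i j x + b1 j x * b2 i j x) :=
    continuous_finsetSum _ fun j _ => by
      have := ca1 j
      have := cb1 j
      have := hS.ca2 i j
      have := hS.cb2 i j
      fun_prop
  have h1 := ck_mul (g := fun x => a x * v2 x - b x * v1 x) (hX1 i i) (by fun_prop)
  have h2 := ck_mul (g := fun x => a1 i x * v2 x + a x * w2 i x - (b1 i x * v1 x + b x * w1 i x))
    (hX i) (by fun_prop)
  have h3 := ck_mul (hX1 i i) kg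
  have h4 := ck_mul (g := fun x => 2 * ∑ j, (a1 j x * a2 i j x + b1 j x * b2 i j x)) (hX i)
    (by fun_prop)
  have h5 := ck_mul (g := fun _ => 2) (ck_add (ck_add (ck_mul kA1 ca1i) (ck_mul kA ca2i))
    (ck_add (ck_mul kB1 cb1i) (ck_mul kB cb2i))) continuous_const
  have h6 := ck_mul (g := fun x => a x * a1 i x + b x * b1 i x) (hD1 i) (by fun_prop)
  have h7 := ck_mul (g := fun x => a1 i x * a1 i x + a x * a2 i i x
    + (b1 i x * b1 i x + b x * b2 i i x)) hD (by fun_prop)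
  have h8 := ck_mul (g := fun x => (a x ^ 2 + b x ^ 2) ^ 2 * (1 / 2)) (hX1 i i) (by fun_prop)
  have h9 := ck_mul (g := fun x => (2 * (a x ^ 2 + b x ^ 2) *
    (2 * a x * a1 i x + 2 * b x * b1 i x)) * (1 / 2)) (hX i) (by fun_prop)
  have H := ck_add (ck_sub (ck_sub (ck_add (ck_add h1 h2) (ck_add h3 h4)) h5) (ck_add h6 h7))
    (ck_add h8 h9)
  refine ck_congr H fun x => ?_
  unfold dFX
  ring

end VirX

theorem virx : VirXStmt := by
  intro n V a b v1 v2 e1 e2 a1 b1 w1 w2 a2 b2 hV hS X X1 D1 hX hX1 hcX1 hD1 hcD1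
  have ca := hS.ca
  have cb := hS.cb
  have cv1 := hS.cv1
  have cv2 := hS.cv2
  have ce1 := hS.ce1
  have ce2 := hS.ce2
  have hD : CK (fun x => ∑ j, X1 j j x) := VirX.ck_sum Finset.univ fun j _ => hcX1 j j
  have K2 := fun i => VirX.ck_FX hX hD hS i
  have K3 := fun i => VirX.ck_dFX hX hcX1 hD hcD1 hS i
  have h0 : ∫ x, ∑ i, VirX.dFX X X1 (fun x => ∑ j, X1 j j x) D1 a b a1 b1 a2 b2 v1 v2 w1 w2 i x
      = 0 := by
    rw [integral_finsetSum _ fun i _ => (K3 i).int]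
    exact Finset.sum_eq_zero fun i _ => (VirX.pd_FX hX1 hD1 hS i).int_zero (K2 i) (K3 i)
  have KL : CK (fun x => ∑ i, X i x * (v1 x * b1 i x + a x * w2 i x - v2 x * a1 i x
      - b x * w1 i x)) := by
    refine VirX.ck_sum Finset.univ fun i _ => VirX.ck_mul (hX i) ?_
    have := hS.ca1 i
    have := hS.cb1 i
    have := hS.cw1 i
    have := hS.cw2 i
    fun_prop
  have KR : CK (fun x => (2 * (∑ i, ∑ j, X1 i j x * (a1 i x * a1 j x + b1 i x * b1 j x))
      + (∑ i, D1 i x * (a x * a1 i x + b x * b1 i x))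
      + V x * (2 * (∑ i, X i x * (a x * a1 i x + b x * b1 i x))
        + (∑ j, X1 j j x) * (a x ^ 2 + b x ^ 2))
      + 1 / 2 * (∑ j, X1 j j x) * (a x ^ 2 + b x ^ 2) ^ 2
      + 2 * (∑ i, X i x * (e1 x * a1 i x + e2 x * b1 i x))
      + (∑ j, X1 j j x) * (a x * e1 x + b x * e2 x))) := by
    have k1 : CK (fun x => ∑ i, ∑ j, X1 i j x * (a1 i x * a1 j x + b1 i x * b1 j x)) := by
      refine VirX.ck_sum Finset.univ fun i _ => VirX.ck_sum Finset.univ fun j _ =>
        VirX.ck_mul (hcX1 i j) ?_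
      have := hS.ca1 i
      have := hS.cb1 i
      have := hS.ca1 j
      have := hS.cb1 j
      fun_prop
    have k2 : CK (fun x => ∑ i, D1 i x * (a x * a1 i x + b x * b1 i x)) := by
      refine VirX.ck_sum Finset.univ fun i _ => VirX.ck_mul (hcD1 i) ?_
      have := hS.ca1 i
      have := hS.cb1 i
      fun_prop
    have k3 : CK (fun x => ∑ i, X i x * (a x * a1 i x + b x * b1 i x)) := by
      refine VirX.ck_sum Finset.univ fun i _ => VirX.ck_mul (hX i) ?_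
      have := hS.ca1 i
      have := hS.cb1 i
      fun_prop
    have k4 : CK (fun x => ∑ i, X i x * (e1 x * a1 i x + e2 x * b1 i x)) := by
      refine VirX.ck_sum Finset.univ fun i _ => VirX.ck_mul (hX i) ?_
      have := hS.ca1 i
      have := hS.cb1 i
      fun_prop
    have H := VirX.ck_add (VirX.ck_add (VirX.ck_add (VirX.ck_add (VirX.ck_add
      (VirX.ck_mul (g := fun _ => 2) k1 continuous_const) k2)
      (VirX.ck_mul (VirX.ck_add (VirX.ck_mul (g := fun _ => 2) k3 continuous_const)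
        (VirX.ck_mul (g := fun x => a x ^ 2 + b x ^ 2) hD (by fun_prop))) hV))
      (VirX.ck_mul (g := fun x => (a x ^ 2 + b x ^ 2) ^ 2 * (1 / 2)) hD (by fun_prop)))
      (VirX.ck_mul (g := fun _ => 2) k4 continuous_const))
      (VirX.ck_mul (g := fun x => a x * e1 x + b x * e2 x) hD (by fun_prop))
    refine VirX.ck_congr H fun x => ?_
    ring
  simp only [VirX.div_FX hS] at h0
  rw [integral_sub KL.int KR.int, sub_eq_zero] at h0
  exact h0

end

end Pool.Agent.Lib_helper40.NLM
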