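import Pool.Agent.Lib_helper40.NLM.Tf
import Pool.Agent.Lib_helper40.NLM.Rage
import Pool.Agent.Lib_helper40.NLM.VirX
import Pool.Agent.Lib_helper40.NLM.RepX
import Pool.Agent.Lib_helper40.NLM.Lin

/-!
# Averaged local decay
-/

namespace Pool.Agent.Lib_helper40.NLM

open MeasureTheory Set Filter Topology
open Pool.Agent.Lib_helper40.NLN

noncomputable section

variable {n : ℕ}

lemma ck_bd {p : Fin n → E n → ℝ} (hp : ∀ j, CK (p j)) : ∃ Q : ℝ, 0 ≤ Q ∧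
    ∀ (x : E n) (a b : ℝ) (a1 b1 : Fin n → E n → ℝ),
      |∑ j, p j x * (a * b1 j x - b * a1 j x)| ≤ Q * ((a ^ 2 + b ^ 2) + gsq a1 b1 x) := by
  have h1 : ∀ j, ∃ P : ℝ, ∀ x, ‖p j x‖ ≤ P := fun j =>
    (hp j).1.bounded_above_of_compact_support (hp j).2
  choose P hP using h1
  have hP0 : ∀ j, 0 ≤ P j := fun j => (norm_nonneg _).trans (hP j 0)
  set S := ∑ j, P j with hS
  have hS0 : 0 ≤ S := Finset.sum_nonneg fun j _ => hP0 j
  have hle : ∀ j, P j ≤ S := fun j =>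
    Finset.single_le_sum (fun i _ => hP0 i) (Finset.mem_univ j)
  refine ⟨S * (n + 1), by positivity, fun x a b a1 b1 => ?_⟩
  have hG := gsq_nonneg a1 b1 x
  have e : ∑ j : Fin n, S * ((a ^ 2 + b ^ 2) + (a1 j x ^ 2 + b1 j x ^ 2)) =
      S * (n * (a ^ 2 + b ^ 2) + gsq a1 b1 x) := by
    rw [← Finset.mul_sum, Finset.sum_add_distrib, Finset.sum_const, Finset.card_univ,
      Fintype.card_fin, nsmul_eq_mul]
    rfl
  calc |∑ j, p j x * (a * b1 j x - b * a1 j x)|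
      ≤ ∑ j, |p j x * (a * b1 j x - b * a1 j x)| := Finset.abs_sum_le_sum_abs _ _
    _ ≤ ∑ j : Fin n, S * ((a ^ 2 + b ^ 2) + (a1 j x ^ 2 + b1 j x ^ 2)) := by
        refine Finset.sum_le_sum fun j _ => ?_
        rw [abs_mul]
        have h2 : |a * b1 j x - b * a1 j x| ≤ (a ^ 2 + b ^ 2) + (a1 j x ^ 2 + b1 j x ^ 2) := by
          rw [abs_le]
          constructor <;> nlinarith [sq_nonneg (a + b1 j x), sq_nonneg (a - b1 j x),
            sq_nonneg (b + a1 j x), sq_nonneg (b - a1 j x), sq_nonneg a, sq_nonneg b,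
            sq_nonneg (a1 j x), sq_nonneg (b1 j x)]
        exact mul_le_mul ((hP j x).trans (hle j)) h2 (abs_nonneg _) hS0
    _ = S * (n * (a ^ 2 + b ^ 2) + gsq a1 b1 x) := e
    _ ≤ S * ((n + 1) * ((a ^ 2 + b ^ 2) + gsq a1 b1 x)) := by
        refine mul_le_mul_of_nonneg_left ?_ hS0
        have h3 : 0 ≤ a ^ 2 + b ^ 2 := by positivity
        have h4 : 0 ≤ (n : ℝ) * gsq a1 b1 x := by positivity
        linarith
    _ = _ := by ring

section

variable {V : E n → ℝ} {Vm : ℝ} {ψ : ℝ → E n → ℂ} {ψ' : ℝ → Fin n → E n → ℂ} {C : ℝ}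

/-- averaged local decay from virial inequalities -/
theorem avg_of_vir (cV : Continuous V) (hVb : ∀ x, |V x| ≤ Vm) (h : SolN V ψ ψ' C)
    {R c : ℝ} (hR : 0 < R) (hc : 0 < c)
    (H : ∀ ε₀ : ℝ, 0 < ε₀ → ∃ (p : Fin n → E n → ℝ) (KE L : ℝ), 0 ≤ KE ∧ (∀ j, CK (p j)) ∧
      VirBd V C (fun _ => 1) c ε₀ R p KE L) :
    ∀ ε : ℝ, 0 < ε → ∃ T₀ : ℝ, 0 < T₀ ∧ ∀ s T : ℝ, T₀ ≤ T →
      ∫ t in s..(s + T), ∫ x in Metric.closedBall (0 : E n) R, ‖ψ t x‖ ^ 2 ≤ ε * T := by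
  refine rage n ψ (fun t => (h.h1 t).mem) h.c2 R c hR hc fun ε₀ hε => ?_
  obtain ⟨p, KE, L, hKE, hp, hvb⟩ := H (ε₀ / 2) (by positivity)
  obtain ⟨Q, hQ, hQb⟩ := ck_bd hp
  refine ⟨Q * C, fun s T η hT hη => ?_⟩
  obtain ⟨k, ε, hk, hk2⟩ := func cV hVb h hKE hp hvb (T := |s| + T) (η := η) (δ := ε₀ / 2) hη
    (by positivity)
  refine ⟨fun t => mo k (ψ t), Mf k p ψ ψ', Mf' V k p ψ ψ', fun t ht => ?_⟩
  have htm : t ∈ Icc (-(|s| + T)) (|s| + T) := by
    have h1 := neg_abs_le s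
    have h2 := le_abs_self s
    exact ⟨by linarith [ht.1], by linarith [ht.2]⟩
  obtain ⟨e1, e2⟩ := hk2 t htm
  refine ⟨((mo_stmt n k hk.ker).1 _ ((h.h1 t).mem.locallyIntegrable (by norm_num))).1,
    Mf_bd cV hVb h hk hp hQ hQb t, Mf_d cV hVb h hk.ker hp t, e1, ?_⟩
  simp only [one_mul] at e2
  linarith

/-- `NLN.vir_ineq` with the vector field inside the sum -/
theorem vir_ineq_x (hn1 : 1 ≤ n) {Φ s Vt lam lam1 lam2 W : ℝ → ℝ} {U : E n → ℝ}
    {κ T S μ θ Vm : ℝ} (hκ : 0 < κ) (hθ : 0 < θ) (hT0 : 0 < T) (hC : CutN lam lam1 lam2 μ T)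
    (hF : FieldN W Vt Φ s κ T S) (hW0 : ∀ r, 0 ≤ W r)
    (hWm : ∀ x : E n, W ‖x‖ ≤ Vm) (hU : ContDiff ℝ 1 U) (hUr : ∀ x, fderiv ℝ U x x ≤ 0)
    {a b v1 v2 e1 e2 : E n → ℝ} {a1 b1 w1 w2 : Fin n → E n → ℝ}
    {a2 b2 : Fin n → Fin n → E n → ℝ}
    (hS : SnapN (fun x => W ‖x‖ + U x) a b a1 b1 a2 b2 v1 v2 w1 w2 e1 e2)
    (iρ : Integrable (fun x => a x ^ 2 + b x ^ 2)) (iG : Integrable (gsq a1 b1))
    (iρ2 : Integrable (fun x => (a x ^ 2 + b x ^ 2) ^ 2)) :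
    n / 2 * (∫ x, lam (hn x) * Φ (hn x) * (a x ^ 2 + b x ^ 2) ^ 2)
      - μ / 2 * (∫ x, (a x ^ 2 + b x ^ 2) ^ 2)
      - ((n + 5 + 2 * S + Vm + S ^ 2 + n * S) * μ + Vm * κ + θ) *
        ((∫ x, (a x ^ 2 + b x ^ 2)) + ∫ x, gsq a1 b1 x)
      - θ⁻¹ * (2 * T + (n + μ + 2 * S) ^ 2) *
        (∫ x in Metric.closedBall (0 : E n) (√(2 * T)), (e1 x ^ 2 + e2 x ^ 2)) ≤
      ∫ x, ∑ i, cc Φ lam (hn x) * x i *
        (v1 x * b1 i x + a x * w2 i x - v2 x * a1 i x - b x * w1 i x) := by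
  have h := vir_ineq rep_stmt hn1 hκ hθ hT0 hC hF hW0 hWm hU hUr hS iρ iG iρ2
  refine h.trans (le_of_eq ?_)
  refine integral_congr_ae (ae_of_all _ fun x => ?_)
  simp only
  rw [Finset.mul_sum]
  exact Finset.sum_congr rfl fun i _ => by ring

/-- the virial inequality for the multiplier `λ Φ x` -/
theorem virbd_x (hn1 : 1 ≤ n) {W : ℝ → ℝ} {U : E n → ℝ} {Vm C : ℝ} (hC : 0 ≤ C)
    (hW : Continuous W) (hW0 : ∀ r, 0 ≤ W r)
    (hWm : ∀ x : E n, W ‖x‖ ≤ Vm) (hWi : IntegrableOn (fun r => r * W r) (Ioi 0))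
    (hU : ContDiff ℝ 1 U) (hUr : ∀ x, fderiv ℝ U x x ≤ 0) {R ε₀ : ℝ} (hε : 0 < ε₀) :
    ∃ (p : Fin n → E n → ℝ) (KE L : ℝ), 0 ≤ KE ∧ (∀ j, CK (p j)) ∧
      VirBd (fun x => W ‖x‖ + U x) C (fun _ => 1)
        (n / 2 * Real.exp (-∫ r in Ioi 0, r * W r)) ε₀ R p KE L := by
  have hVm0 : 0 ≤ Vm := (hW0 _).trans (hWm 0)
  have hn0 : (1 : ℝ) ≤ n := by exact_mod_cast hn1
  set S := ∫ r in Ioi 0, r * W r with hS
  have hS0 : 0 ≤ S := setIntegral_nonneg measurableSet_Ioi fun r hr =>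
    mul_nonneg (le_of_lt hr) (hW0 r)
  set A := n + 5 + 2 * S + Vm + S ^ 2 + n * S with hA
  have hA0 : 0 ≤ A := by positivity
  set μ := min 1 (ε₀ / (4 * (A + 1) * (C + 1))) with hμ
  have hμ0 : 0 < μ := by positivity
  set κ := ε₀ / (4 * (Vm + 1) * (C + 1)) with hκ
  have hκ0 : 0 < κ := by positivity
  set θ := ε₀ / (4 * (C + 1)) with hθ
  have hθ0 : 0 < θ := by positivity
  obtain ⟨b₀, hb, lam, lam1, lam2, d1, d2, c2, nn, bb1, bb2, hone, hz⟩ :=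
    cut_stmt μ (R ^ 2 / 2) hμ0
  have hbR : R ^ 2 / 2 < b₀ := by
    by_contra hc
    have h1 := hone b₀ hb.le (not_lt.1 hc)
    have h2 := (hz b₀ le_rfl).1
    linarith
  obtain ⟨Vt, Φ, s, f1, f2, f3, f4, f5, f6, f7, f8, f9⟩ := fld_stmt W hW hW0 hWi κ b₀ hκ0 hb
  have hCut : CutN lam lam1 lam2 μ b₀ := ⟨d1, d2, c2, nn, bb1, bb2, hz⟩
  have hFld : FieldN W Vt Φ s κ b₀ S := ⟨f1, f2, f3, f4, f5, f6, f8, f9⟩
  have cl : Continuous lam := cont_of_d d1
  have cΦ : Continuous Φ := cont_of_d f5.dΦ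
  have kh : Continuous (hn : E n → ℝ) := hn_cont
  have ccc : Continuous fun x : E n => cc Φ lam (hn x) := by
    unfold cc
    fun_prop
  set L := √(2 * b₀) with hL
  have hz0 : ∀ x : E n, L < ‖x‖ → lam (hn x) = 0 := fun x hx => (hz _ (lt_hn hx).le).1
  set KE := θ⁻¹ * (2 * b₀ + (n + 1 + 2 * S) ^ 2) with hKE
  refine ⟨fun j x => cc Φ lam (hn x) * x j, KE, L, by positivity, fun j => ?_, ?_⟩
  · refine CK.of_zero (L := L) (ccc.mul (by fun_prop)) fun x hx => ?_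
    change cc Φ lam (hn x) * x j = 0
    unfold cc
    rw [hz0 x hx, zero_mul, zero_mul]
  · intro a b v1 v2 e1 e2 a1 b1 w1 w2 a2 b2 hSn iρ iG iρ2 hb1 hb2
    have hv := vir_ineq_x hn1 hκ0 hθ0 hb hCut hFld hW0 hWm hU hUr hSn iρ iG iρ2
    have ca := hSn.ca
    have cb := hSn.cb
    refine le_trans ?_ hv
    have iq : Integrable fun x : E n => lam (hn x) * Φ (hn x) * (a x ^ 2 + b x ^ 2) ^ 2 :=
      CK.int (CK.of_zero (L := L) (by fun_prop) fun x hx => by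
        rw [hz0 x hx, zero_mul, zero_mul])
    have hquart : Real.exp (-S) *
        (∫ x in Metric.closedBall (0 : E n) R, 1 * (a x ^ 2 + b x ^ 2) ^ 2) ≤
        ∫ x, lam (hn x) * Φ (hn x) * (a x ^ 2 + b x ^ 2) ^ 2 := by
      rw [← integral_const_mul]
      calc ∫ x in Metric.closedBall (0 : E n) R, Real.exp (-S) * (1 * (a x ^ 2 + b x ^ 2) ^ 2)
          ≤ ∫ x in Metric.closedBall (0 : E n) R,
              lam (hn x) * Φ (hn x) * (a x ^ 2 + b x ^ 2) ^ 2 := by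
            refine setIntegral_mono_on ?_ iq.integrableOn measurableSet_closedBall fun x hx => ?_
            · exact (by fun_prop : Continuous fun x => Real.exp (-S) *
                (1 * (a x ^ 2 + b x ^ 2) ^ 2)).continuousOn.integrableOn_compact
                (isCompact_closedBall _ _)
            · rw [Metric.mem_closedBall, dist_zero_right] at hx
              have hg := hn_le hx
              have h1 : lam (hn x) = 1 := hone _ (hn_nonneg x) hg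
              have h2 := f7 (hn x) (hn_nonneg x) (hg.trans hbR.le)
              rw [h1, one_mul, one_mul]
              exact mul_le_mul_of_nonneg_right h2 (by positivity)
        _ ≤ _ := setIntegral_le_integral iq (ae_of_all _ fun x =>
            mul_nonneg (mul_nonneg (nn _).1 (f6 _).1) (by positivity))
    have hq2 : n / 2 * Real.exp (-S) *
        (∫ x in Metric.closedBall (0 : E n) R, 1 * (a x ^ 2 + b x ^ 2) ^ 2) ≤
        n / 2 * ∫ x, lam (hn x) * Φ (hn x) * (a x ^ 2 + b x ^ 2) ^ 2 := by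
      rw [mul_assoc]
      exact mul_le_mul_of_nonneg_left hquart (by positivity)
    set I1 := (∫ x, (a x ^ 2 + b x ^ 2)) + ∫ x, gsq a1 b1 x with hI1
    set I2 := ∫ x, (a x ^ 2 + b x ^ 2) ^ 2 with hI2
    set I3 := ∫ x in Metric.closedBall (0 : E n) L, (e1 x ^ 2 + e2 x ^ 2) with hI3
    have hI30 : 0 ≤ I3 := integral_nonneg fun x => by positivity
    have hμ1 : μ ≤ 1 := min_le_left _ _
    have hμ2 : μ ≤ ε₀ / (4 * (A + 1) * (C + 1)) := min_le_right _ _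
    have w0 : μ * (4 * (A + 1) * (C + 1)) ≤ ε₀ := by
      rw [le_div_iff₀ (by positivity)] at hμ2; exact hμ2
    have w1 : A * μ * I1 ≤ ε₀ / 4 := by
      have : A * μ * I1 ≤ A * μ * C := by gcongr
      have h2 : 0 ≤ μ * (A + C + 1) := by positivity
      nlinarith
    have w2 : μ / 2 * I2 ≤ ε₀ / 8 := by
      have : μ / 2 * I2 ≤ μ / 2 * C := by gcongr
      have h2 : 0 ≤ μ * (A * C + A + 1) := by positivity
      nlinarith
    have w3 : Vm * κ * I1 ≤ ε₀ / 4 := by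
      have h1 : Vm * κ * I1 ≤ Vm * κ * C := by gcongr
      have h2 : κ * (4 * (Vm + 1) * (C + 1)) = ε₀ := by
        rw [hκ]; field_simp
      have h3 : 0 ≤ κ * (Vm + C + 1) := by positivity
      nlinarith
    have w4 : θ * I1 ≤ ε₀ / 4 := by
      have h1 : θ * I1 ≤ θ * C := by gcongr
      have h2 : θ * (4 * (C + 1)) = ε₀ := by rw [hθ]; field_simp
      nlinarith
    have w5 : θ⁻¹ * (2 * b₀ + (n + μ + 2 * S) ^ 2) * I3 ≤ KE * I3 := by
      rw [hKE]; gcongr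
    have e5 : (A * μ + Vm * κ + θ) * I1 = A * μ * I1 + Vm * κ * I1 + θ * I1 := by
      ring
    rw [e5]
    linarith

/-- the virial inequality for linear vector fields -/
theorem virbd_lin (A : E n →L[ℝ] E n) (β : E n) (hA : ∀ x, 0 ≤ inner ℝ (A x) x)
    (htr : 0 < ∑ j, A (bv j) j) {V : E n → ℝ} (hV : ContDiff ℝ 1 V)
    (hVr : ∀ x, fderiv ℝ V x (A x + β) ≤ 0) {C : ℝ} (hC : 0 ≤ C) {R ε₀ : ℝ} (hε : 0 < ε₀) :
    ∃ (p : Fin n → E n → ℝ) (KE L : ℝ), 0 ≤ KE ∧ (∀ j, CK (p j)) ∧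
      VirBd V C (fun _ => 1) ((∑ j, A (bv j) j) / 2) ε₀ R p KE L := by
  obtain ⟨K, hK, hlin⟩ := lin repx virx n A β hA
  set μ := min 1 (ε₀ / (4 * (K + 1) * (C + 1))) with hμ
  have hμ0 : 0 < μ := by positivity
  set θ := ε₀ / (4 * (C + 1)) with hθ
  have hθ0 : 0 < θ := by positivity
  obtain ⟨b₀, hb, lam, lam1, lam2, d1, d2, c2, nn, bb1, bb2, hone, hz⟩ :=
    cut_stmt μ (R ^ 2 / 2) hμ0
  have hCut : CutN lam lam1 lam2 μ b₀ := ⟨d1, d2, c2, nn, bb1, bb2, hz⟩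
  have cl : Continuous lam := cont_of_d d1
  have kh : Continuous (hn : E n → ℝ) := hn_cont
  set L := √(2 * b₀) with hL
  have hz0 : ∀ x : E n, L < ‖x‖ → lam (hn x) = 0 := fun x hx => (hz _ (lt_hn hx).le).1
  refine ⟨fun j x => lam (hn x) * (A x j + β j), θ⁻¹ * (K * (1 + b₀)), L, by positivity,
    fun j => ?_, ?_⟩
  · have cA : Continuous fun x : E n => A x j := by
      have : Continuous fun x : E n => A x := A.continuous
      fun_prop
    refine CK.of_zero (L := L) ((cl.comp kh).mul (cA.add continuous_const)) fun x hx => ?_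
    change lam (hn x) * (A x j + β j) = 0
    rw [hz0 x hx, zero_mul]
  · intro a b v1 v2 e1 e2 a1 b1 w1 w2 a2 b2 hSn iρ iG iρ2 hb1 hb2
    have hv := hlin V hV hVr lam lam1 lam2 μ b₀ θ hb hθ0 (min_le_left _ _) hCut a b v1 v2 e1 e2
      a1 b1 w1 w2 a2 b2 hSn iρ iG iρ2
    have ca := hSn.ca
    have cb := hSn.cb
    refine le_trans ?_ hv
    have iq : Integrable fun x : E n => lam (hn x) * (a x ^ 2 + b x ^ 2) ^ 2 :=
      CK.int (CK.of_zero (L := L) (by fun_prop) fun x hx => by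
        rw [hz0 x hx, zero_mul])
    have hquart : (∫ x in Metric.closedBall (0 : E n) R, 1 * (a x ^ 2 + b x ^ 2) ^ 2) ≤
        ∫ x, lam (hn x) * (a x ^ 2 + b x ^ 2) ^ 2 := by
      calc ∫ x in Metric.closedBall (0 : E n) R, 1 * (a x ^ 2 + b x ^ 2) ^ 2
          = ∫ x in Metric.closedBall (0 : E n) R, lam (hn x) * (a x ^ 2 + b x ^ 2) ^ 2 := by
            refine setIntegral_congr_fun measurableSet_closedBall fun x hx => ?_
            rw [Metric.mem_closedBall, dist_zero_right] at hx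
            simp only [hone _ (hn_nonneg x) (hn_le hx)]
        _ ≤ _ := setIntegral_le_integral iq (ae_of_all _ fun x =>
            mul_nonneg (nn _).1 (by positivity))
    have hq2 := mul_le_mul_of_nonneg_left hquart (by positivity : 0 ≤ (∑ j, A (bv j) j) / 2)
    set I1 := (∫ x, (a x ^ 2 + b x ^ 2)) + ∫ x, gsq a1 b1 x with hI1
    set I2 := ∫ x, (a x ^ 2 + b x ^ 2) ^ 2 with hI2
    have hμ2 : μ ≤ ε₀ / (4 * (K + 1) * (C + 1)) := min_le_right _ _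
    have w0 : μ * (4 * (K + 1) * (C + 1)) ≤ ε₀ := by
      rw [le_div_iff₀ (by positivity)] at hμ2; exact hμ2
    have w1 : K * μ * I1 ≤ ε₀ / 4 := by
      have : K * μ * I1 ≤ K * μ * C := by gcongr
      have h2 : 0 ≤ μ * (K + C + 1) := by positivity
      nlinarith
    have w2 : K * μ * I2 ≤ ε₀ / 4 := by
      have : K * μ * I2 ≤ K * μ * C := by gcongr
      have h2 : 0 ≤ μ * (K + C + 1) := by positivity
      nlinarith
    have w4 : θ * I1 ≤ ε₀ / 4 := by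
      have h1 : θ * I1 ≤ θ * C := by gcongr
      have h2 : θ * (4 * (C + 1)) = ε₀ := by rw [hθ]; field_simp
      nlinarith
    have e5 : (K * μ + θ) * I1 = K * μ * I1 + θ * I1 := by ring
    rw [e5]
    linarith

end

end

end Pool.Agent.Lib_helper40.NLM
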