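import Pool.Agent.Lib_helper40.NLM.Stmts
import Pool.Agent.Lib_helper40.NLN.ConB

/-!
# Averages are contractions in `L⁶` (module NLM_CON6)
-/

namespace Pool.Agent.Lib_helper40.NLM

open MeasureTheory Set Filter Topology
open Pool.Agent.Lib_helper40.NLN

noncomputable section

namespace Con6M

variable {n : ℕ}

/-- Jensen for the sixth power -/
lemma j6 {w : E n → ℝ} (hw : ErrM.W w) {d : E n → ℂ} (h1 : Integrable fun y => w y • d y)
    (h2 : Integrable fun y => w y * ‖d y‖ ^ 2) (h6 : Integrable fun y => w y * ‖d y‖ ^ 6) :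
    ‖∫ y, w y • d y‖ ^ 6 ≤ ∫ y, w y * ‖d y‖ ^ 6 := by
  set u : E n → ℝ := fun y => ‖d y‖ ^ 2 with hu
  have hu0 : ∀ y, 0 ≤ u y := fun y => by simp only [hu]; positivity
  have e : ∀ y, w y * ‖d y‖ ^ 6 = w y * u y ^ 3 := fun y => by simp only [hu]; ring
  simp only [e] at h6 ⊢
  set a := ∫ y, w y * u y with ha
  have ha0 : 0 ≤ a := integral_nonneg fun y => mul_nonneg (hw.nn _) (hu0 y)
  have h0 : 0 ≤ ∫ y, w y * ((u y - a) ^ 2 * (u y + 2 * a)) :=
    integral_nonneg fun y => mul_nonneg (hw.nn _)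
      (mul_nonneg (sq_nonneg _) (by linarith [hu0 y]))
  have e1 : ∀ y, w y * ((u y - a) ^ 2 * (u y + 2 * a)) =
      w y * u y ^ 3 - 3 * a ^ 2 * (w y * u y) + w y * (2 * a ^ 3) := fun y => by ring
  simp only [e1] at h0
  have i6 : Integrable fun y => w y * u y ^ 3 - 3 * a ^ 2 * (w y * u y) :=
    h6.sub (h2.const_mul _)
  rw [MeasureTheory.integral_add i6 (hw.integrable.mul_const _),
    MeasureTheory.integral_sub h6 (h2.const_mul _),
    MeasureTheory.integral_const_mul, MeasureTheory.integral_mul_const, hw.int, ← ha] at h0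
  have h5 : ‖∫ y, w y • d y‖ ^ 2 ≤ a := hw.j2 h1 h2
  calc ‖∫ y, w y • d y‖ ^ 6 = (‖∫ y, w y • d y‖ ^ 2) ^ 3 := by ring
    _ ≤ a ^ 3 := by gcongr
    _ ≤ _ := by nlinarith

end Con6M

theorem con6 : Con6Stmt := by
  intro n k ε hk f hf hf6m
  have hloc : LocallyIntegrable f volume := hf.locallyIntegrable (by norm_num)
  have hf2 : Integrable (fun y => ‖f y‖ ^ 2) := hf.integrable_norm_pow (by norm_num)
  have hf6 : Integrable (fun y => ‖f y‖ ^ 6) := hf6m.integrable_norm_pow (by norm_num)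
  have hc : Continuous (mo k f) := ConM.mo_cont hk.ker hloc
  obtain ⟨h1, h2⟩ := ErrM.cv_int hk hf6
  have hp : ∀ x, ‖mo k f x‖ ^ 6 ≤ ErrM.cv k (fun y => ‖f y‖ ^ 6) x := fun x => by
    have hw := ErrM.W.of_avg hk x
    rw [ErrM.mo_eq]
    exact Con6M.j6 hw (hw.smul_int hloc) (hw.mul_int hf2) (hw.mul_int hf6)
  have h3 : Integrable (fun x => ‖mo k f x‖ ^ 6) := by
    refine h1.mono' (hc.norm.pow 6).aestronglyMeasurable (ae_of_all _ fun x => ?_)
    rw [norm_pow, norm_norm]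
    exact hp x
  refine ⟨h3, ?_⟩
  rw [← h2]
  exact integral_mono h3 h1 hp

end

end Pool.Agent.Lib_helper40.NLM
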