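import Pool.Agent.Lib_helper40.NLM.Stmts

/-!
# NLM_DEC: a nonnegative Lipschitz function in `L²(ℝ)` tends to zero
-/

namespace Pool.Agent.Lib_helper40.NLM

open MeasureTheory Set Filter Topology
open Pool.Agent.Lib_helper40.NLN

namespace Dec

theorem top (F : ℝ → ℝ) (K B : ℝ) (h0 : ∀ t, 0 ≤ F t) (hL : ∀ s t, |F t - F s| ≤ K * |t - s|)
    (hB : ∀ T : ℝ, 0 ≤ T → ∫ t in (-T)..T, F t ^ 2 ≤ B) : Tendsto F atTop (𝓝 0) := by
  have hK : 0 ≤ K := by
    have := hL 0 1
    rw [sub_zero (1 : ℝ), abs_one, mul_one] at this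
    exact (abs_nonneg _).trans this
  have hc : Continuous F := by
    have : LipschitzWith (Real.toNNReal K) F := LipschitzWith.of_dist_le_mul fun s t => by
      rw [Real.dist_eq, Real.dist_eq, Real.coe_toNNReal K hK]
      exact hL t s
    exact this.continuous
  have hi : ∀ a b : ℝ, IntervalIntegrable (fun t => F t ^ 2) volume a b := fun a b =>
    (hc.pow 2).intervalIntegrable a b
  set G : ℝ → ℝ := fun T => ∫ t in (0 : ℝ)..T, F t ^ 2 with hG
  have hGs : ∀ s t, G t - G s = ∫ u in s..t, F u ^ 2 := fun s t => by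
    simp only [hG]
    exact intervalIntegral.integral_interval_sub_left (hi _ _) (hi _ _)
  have hmono : Monotone G := fun s t hst => by
    have h1 : 0 ≤ ∫ u in s..t, F u ^ 2 := intervalIntegral.integral_nonneg hst fun u _ => sq_nonneg _
    have := hGs s t
    linarith
  have hB0 : 0 ≤ B := by
    have := hB 0 le_rfl
    simpa using this
  have hbd : ∀ T, G T ≤ B := by
    have h1 : ∀ T : ℝ, 0 ≤ T → G T ≤ B := by
      intro T hT
      have h2 := hB T hT
      have h3 := hGs (-T) T
      have h4 : G (-T) ≤ G 0 := hmono (by linarith)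
      have h5 : G 0 = 0 := by simp only [hG, intervalIntegral.integral_same]
      linarith
    intro T
    rcases le_total 0 T with hT | hT
    · exact h1 T hT
    · exact (hmono hT).trans (h1 0 le_rfl)
  have hlim : Tendsto G atTop (𝓝 (⨆ i, G i)) :=
    tendsto_atTop_ciSup hmono ⟨B, by rintro _ ⟨T, rfl⟩; exact hbd T⟩
  refine tendsto_order.2 ⟨fun a ha => Eventually.of_forall fun t => ha.trans_le (h0 t), ?_⟩
  intro e he
  set h : ℝ := e / (2 * (K + 1)) with hh
  have hh0 : 0 < h := by positivity
  have hKh : K * h ≤ e / 2 := by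
    have : (K + 1) * h = e / 2 := by rw [hh]; field_simp
    nlinarith
  have hlim2 : Tendsto (fun t => G (t + h) - G t) atTop (𝓝 0) := by
    have h1 : Tendsto (fun t : ℝ => t + h) atTop atTop := tendsto_atTop_add_const_right _ _ tendsto_id
    have h2 := (hlim.comp h1).sub hlim
    rw [sub_self] at h2
    exact h2
  have hpos : 0 < h * (e / 2) ^ 2 := by positivity
  filter_upwards [hlim2.eventually (gt_mem_nhds hpos)] with t ht
  by_contra hcon
  rw [not_lt] at hcon
  have h1 : ∫ _u in t..(t + h), (e / 2) ^ 2 ≤ ∫ u in t..(t + h), F u ^ 2 := by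
    refine intervalIntegral.integral_mono_on (by linarith) intervalIntegrable_const (hi _ _) ?_
    intro u hu
    have h2 := hL t u
    have h3 : |u - t| ≤ h := by
      rw [abs_of_nonneg (by linarith [hu.1])]
      linarith [hu.2]
    have h4 : K * |u - t| ≤ K * h := by gcongr
    have h5 := (abs_le.1 h2).1
    have h6 : e / 2 ≤ F u := by linarith
    exact pow_le_pow_left₀ (by positivity) h6 2
  rw [intervalIntegral.integral_const, smul_eq_mul, add_sub_cancel_left, ← hGs] at h1
  linarith

end Dec

theorem dec : DecStmt := by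
  intro F K B h0 hL hB
  refine ⟨Dec.top F K B h0 hL hB, ?_⟩
  have h1 : Tendsto (fun t => F (-t)) atTop (𝓝 0) := by
    refine Dec.top (fun t => F (-t)) K B (fun t => h0 _) (fun s t => ?_) fun T hT => ?_
    · have h2 := hL (-s) (-t)
      have e : |-t - -s| = |t - s| := by
        rw [abs_sub_comm]
        congr 1
        ring
      rwa [e] at h2
    · have h2 := intervalIntegral.integral_comp_neg (a := -T) (b := T) (fun t => F t ^ 2)
      rw [neg_neg] at h2
      rw [h2]
      exact hB T hT
  have h2 := h1.comp tendsto_neg_atBot_atTop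
  refine h2.congr fun t => ?_
  simp

end Pool.Agent.Lib_helper40.NLM
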