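import Pool.Agent.Lib_helper40.NLM.Stmts
import Pool.Agent.Lib_helper40.NLN.Fld

/-!
# The radial multiplier in the variable `g = √(α² + |x|²)`
-/

namespace Pool.Agent.Lib_helper40.NLM

open MeasureTheory Set Filter Topology intervalIntegral
open Pool.Agent.Lib_helper40.NLN

noncomputable section

/-- the potential in the variable `g = √(α² + |x|²)`, multiplied by `g² / |x|²` -/
def ftl (W : ℝ → ℝ) (α κ : ℝ) (g : ℝ) : ℝ :=
  W (√(max (g ^ 2 - α ^ 2) 0)) * g ^ 2 / max (g ^ 2 - α ^ 2) (κ ^ 2)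

lemma ftl_den {κ : ℝ} (hκ : 0 < κ) (α g : ℝ) : 0 < max (g ^ 2 - α ^ 2) (κ ^ 2) :=
  lt_max_of_lt_right (pow_pos hκ 2)

lemma ftl_cont {W : ℝ → ℝ} (hW : Continuous W) (α : ℝ) {κ : ℝ} (hκ : 0 < κ) :
    Continuous (ftl W α κ) := by
  unfold ftl
  refine Continuous.div ?_ ?_ (fun g => (ftl_den hκ α g).ne')
  · exact (hW.comp (by fun_prop)).mul (by fun_prop)
  · fun_prop

lemma ftl_nonneg {W : ℝ → ℝ} (hW0 : ∀ r, 0 ≤ W r) (α : ℝ) {κ : ℝ} (hκ : 0 < κ) (g : ℝ) :
    0 ≤ ftl W α κ g :=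
  div_nonneg (mul_nonneg (hW0 _) (sq_nonneg g)) (ftl_den hκ α g).le

lemma sub_nonneg' {α g : ℝ} (hα : 0 < α) (hg : α ≤ g) : 0 ≤ g ^ 2 - α ^ 2 := by nlinarith

lemma ftl_mul {W : ℝ → ℝ} {α κ : ℝ} (hα : 0 < α) {g : ℝ} (hg : α ≤ g) :
    (1 - α ^ 2 / g ^ 2) * ftl W α κ g =
      W (√(g ^ 2 - α ^ 2)) * (g ^ 2 - α ^ 2) / max (g ^ 2 - α ^ 2) (κ ^ 2) := by
  have hg0 : g ≠ 0 := (hα.trans_le hg).ne'
  unfold ftl
  rw [max_eq_left (sub_nonneg' hα hg)]
  field_simp

lemma ftl_le {W : ℝ → ℝ} (hW0 : ∀ r, 0 ≤ W r) {α κ : ℝ} (hα : 0 < α) (hκ : 0 < κ) {g : ℝ}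
    (hg : α ≤ g) : (1 - α ^ 2 / g ^ 2) * ftl W α κ g ≤ W (√(g ^ 2 - α ^ 2)) := by
  rw [ftl_mul hα hg, div_le_iff₀ (ftl_den hκ α g)]
  exact mul_le_mul_of_nonneg_left (le_max_left _ _) (hW0 _)

lemma ftl_eq {W : ℝ → ℝ} {α κ : ℝ} (hα : 0 < α) (hκ : 0 < κ) {g : ℝ} (hg : α ≤ g)
    (h : κ ^ 2 < g ^ 2 - α ^ 2) : W (√(g ^ 2 - α ^ 2)) = (1 - α ^ 2 / g ^ 2) * ftl W α κ g := by
  rw [ftl_mul hα hg, max_eq_left h.le]
  exact (mul_div_cancel_right₀ _ ((pow_pos hκ 2).trans h).ne').symm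

/-- the key pointwise bound -/
lemma ftl_key {W : ℝ → ℝ} (hW0 : ∀ r, 0 ≤ W r) {α κ : ℝ} (hα : 0 < α) (hκ : 0 < κ) {y : ℝ}
    (hy : α ≤ y) : (y - α) * ftl W α κ y ≤ W (√(2 * ((y ^ 2 - α ^ 2) / 2))) * y := by
  have hy0 : 0 < y := hα.trans_le hy
  unfold ftl
  rw [max_eq_left (sub_nonneg' hα hy), mul_div_cancel₀ _ (two_ne_zero), mul_div_assoc',
    div_le_iff₀ (ftl_den hκ α y)]
  have h1 : (y - α) * y ^ 2 ≤ y * max (y ^ 2 - α ^ 2) (κ ^ 2) := by
    have h2 : y * (y ^ 2 - α ^ 2) ≤ y * max (y ^ 2 - α ^ 2) (κ ^ 2) :=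
      mul_le_mul_of_nonneg_left (le_max_left _ _) hy0.le
    have h3 : (y - α) * y ^ 2 ≤ y * (y ^ 2 - α ^ 2) := by
      have : 0 ≤ y * α * (y - α) := mul_nonneg (mul_nonneg hy0.le hα.le) (sub_nonneg.2 hy)
      nlinarith
    exact h3.trans h2
  calc (y - α) * (W (√(y ^ 2 - α ^ 2)) * y ^ 2) = W (√(y ^ 2 - α ^ 2)) * ((y - α) * y ^ 2) := by
        ring
    _ ≤ W (√(y ^ 2 - α ^ 2)) * (y * max (y ^ 2 - α ^ 2) (κ ^ 2)) :=
        mul_le_mul_of_nonneg_left h1 (hW0 _)
    _ = _ := by ring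

lemma ftl_int {W : ℝ → ℝ} (hW : Continuous W) (hW0 : ∀ r, 0 ≤ W r)
    (hWi : IntegrableOn (fun r => r * W r) (Ioi 0)) {α κ : ℝ} (hα : 0 < α) (hκ : 0 < κ) {c b : ℝ}
    (hc : α ≤ c) (hcb : c ≤ b) :
    ∫ y in c..b, (y - α) * ftl W α κ y ≤ ∫ r in Ioi 0, r * W r := by
  have hF := ftl_cont hW α hκ
  have hb : α ≤ b := hc.trans hcb
  have hb2 : 0 ≤ (b ^ 2 - α ^ 2) / 2 := by
    have := sub_nonneg' hα hb
    linarith
  calc ∫ y in c..b, (y - α) * ftl W α κ y ≤ ∫ y in α..b, (y - α) * ftl W α κ y := by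
        refine intervalIntegral.integral_mono_interval hc hcb le_rfl ?_
          ((by fun_prop : Continuous fun y => (y - α) * ftl W α κ y).intervalIntegrable _ _)
        refine (ae_restrict_iff' measurableSet_Ioc).2 (ae_of_all _ fun y hy => ?_)
        simp only [Pi.zero_apply]
        exact mul_nonneg (sub_nonneg.2 hy.1.le) (ftl_nonneg hW0 α hκ y)
    _ ≤ ∫ y in α..b, W (√(2 * ((y ^ 2 - α ^ 2) / 2))) * y := by
        refine intervalIntegral.integral_mono_on hb
          ((by fun_prop : Continuous fun y => (y - α) * ftl W α κ y).intervalIntegrable _ _)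
          (((hW.comp (by fun_prop) :
            Continuous fun y => W (√(2 * ((y ^ 2 - α ^ 2) / 2)))).mul
              continuous_id).intervalIntegrable _ _)
          (fun y hy => ?_)
        exact ftl_key hW0 hα hκ hy.1
    _ = ∫ u in (0 : ℝ)..(b ^ 2 - α ^ 2) / 2, W (√(2 * u)) := by
        have h := intervalIntegral.integral_comp_mul_deriv (a := α) (b := b)
          (f := fun r : ℝ => (r ^ 2 - α ^ 2) / 2) (f' := fun r : ℝ => r)
          (g := fun u : ℝ => W (√(2 * u)))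
          (fun x _ => by
            have := ((hasDerivAt_pow 2 x).sub_const (α ^ 2)).div_const 2
            refine this.congr_deriv ?_
            simp) continuous_id.continuousOn (hW.comp (by fun_prop))
        simp only [Function.comp, sub_self, zero_div] at h
        exact h
    _ = ∫ r in (0 : ℝ)..√(2 * ((b ^ 2 - α ^ 2) / 2)), r * W r := int_sqrt hW hb2
    _ = ∫ r in Ioc 0 (√(2 * ((b ^ 2 - α ^ 2) / 2))), r * W r :=
        intervalIntegral.integral_of_le (Real.sqrt_nonneg _)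
    _ ≤ ∫ r in Ioi 0, r * W r := by
        refine setIntegral_mono_set hWi ?_ (LE.le.eventuallyLE Ioc_subset_Ioi_self)
        refine (ae_restrict_iff' measurableSet_Ioi).2 (ae_of_all _ fun r hr => ?_)
        exact mul_nonneg (le_of_lt hr) (hW0 r)

theorem fld2 : Fld2Stmt := by
  intro W hW hW0 hWi α κ b hα hκ hb
  have hV := ftl_cont hW α hκ
  have hV0 := ftl_nonneg hW0 α hκ
  obtain ⟨h, p, hh, hp, hb1, pb, h1, hpn⟩ := NLV.exists_ode hV b hV0
  have hcont : Continuous h := continuous_iff_continuousAt.2 fun x => (hh x).continuousAt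
  have hpos : ∀ x, 0 < h x := fun x => one_pos.trans_le (h1 x)
  have hpint : ∀ x, p x = -∫ y in x..b, ftl W α κ y * h y := by
    intro x
    have := intervalIntegral.integral_eq_sub_of_hasDerivAt (a := x) (b := b)
      (f := p) (f' := fun y => ftl W α κ y * h y) (fun y _ => hp y)
      ((hV.mul hcont).intervalIntegrable _ _)
    rw [this, pb]; ring
  have hanti : ∀ x y, x ≤ y → y ≤ b → h y ≤ h x := by
    have : AntitoneOn h (Iic b) := by
      refine antitoneOn_of_deriv_nonpos (convex_Iic b) hcont.continuousOn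
        (fun x _ => (hh x).differentiableAt.differentiableWithinAt) (fun x hx => ?_)
      rw [interior_Iic] at hx
      rw [(hh x).deriv]
      exact hpn x (le_of_lt hx)
    intro x y hxy hy
    exact this (show x ∈ Iic b from hxy.trans hy) hy hxy
  refine ⟨ftl W α κ, fun x => (h x ^ 2)⁻¹, fun x => p x / h x, hV, hV0,
    fun g hg => ftl_le hW0 hα hκ hg, fun g hg hκg => ftl_eq hα hκ hg hκg,
    ⟨fun x => ?_, fun x => ?_⟩,
    fun x => ⟨by positivity, ?_⟩, fun g h0 hg => ?_, fun g hg => ?_, fun g h0 hg => ?_⟩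
  · have := ((hh x).pow 2).inv (pow_ne_zero 2 (hpos x).ne')
    refine this.congr_deriv ?_
    have := (hpos x).ne'
    field_simp
    simp only [Pi.pow_apply]
    ring
  · have := (hp x).div (hh x) (hpos x).ne'
    refine this.congr_deriv ?_
    have := (hpos x).ne'
    field_simp
  · exact inv_le_one_of_one_le₀ (one_le_pow₀ (h1 x))
  · have e1 : h g ≤ Real.exp (∫ y in α..b, (y - α) * ftl W α κ y) :=
      (hanti α g h0 hg).trans (NLV.ode_upper hV hV0 hh hp hb1 pb hpn hb.le)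
    have e2 := ftl_int hW hW0 hWi hα hκ le_rfl hb.le
    rw [Real.exp_neg]
    refine inv_anti₀ (pow_pos (hpos g) 2) ?_
    calc h g ^ 2 ≤ Real.exp (∫ y in α..b, (y - α) * ftl W α κ y) ^ 2 := by
          gcongr; exact (hpos g).le
      _ = Real.exp (2 * ∫ y in α..b, (y - α) * ftl W α κ y) := by
          rw [← Real.exp_nat_mul]; norm_num
      _ ≤ _ := Real.exp_le_exp.2 (by linarith)
  · exact div_nonpos_of_nonpos_of_nonneg (hpn g hg) (hpos g).le
  · have e2 := ftl_int hW hW0 hWi hα hκ h0 hg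
    have e3 : -(p g / h g) ≤ ∫ y in g..b, ftl W α κ y := by
      rw [← neg_div, div_le_iff₀ (hpos g), hpint g, neg_neg]
      calc ∫ y in g..b, ftl W α κ y * h y ≤ ∫ y in g..b, h g * ftl W α κ y := by
            refine intervalIntegral.integral_mono_on hg ((hV.mul hcont).intervalIntegrable _ _)
              ((continuous_const.mul hV).intervalIntegrable _ _) (fun y hy => ?_)
            have := hanti g y hy.1 hy.2
            have := hV0 y
            nlinarith
        _ = h g * ∫ y in g..b, ftl W α κ y := intervalIntegral.integral_const_mul _ _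
        _ = (∫ y in g..b, ftl W α κ y) * h g := mul_comm _ _
    have e4 : (g - α) * ∫ y in g..b, ftl W α κ y ≤ ∫ y in g..b, (y - α) * ftl W α κ y := by
      rw [← intervalIntegral.integral_const_mul]
      refine intervalIntegral.integral_mono_on hg ((continuous_const.mul hV).intervalIntegrable _ _)
        (((continuous_id.sub continuous_const).mul hV).intervalIntegrable _ _) (fun y hy => ?_)
      exact mul_le_mul_of_nonneg_right (sub_le_sub_right hy.1 α) (hV0 y)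
    calc -(p g / h g) * (g - α) ≤ (∫ y in g..b, ftl W α κ y) * (g - α) :=
          mul_le_mul_of_nonneg_right e3 (sub_nonneg.2 h0)
      _ = (g - α) * ∫ y in g..b, ftl W α κ y := mul_comm _ _
      _ ≤ ∫ y in g..b, (y - α) * ftl W α κ y := e4
      _ ≤ _ := e2

end

end Pool.Agent.Lib_helper40.NLM
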