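import Pool.Agent.Lib_helper40.NLM.Stmts

/-!
# Local masses are Lipschitz continuous
-/

namespace Pool.Agent.Lib_helper40.NLM

open MeasureTheory Set Filter Topology
open Pool.Agent.Lib_helper40.NLN

noncomputable section

theorem lip : LipStmt := by
  intro n V Vm hV hVm ψ ψ' C h R
  have hC := h.C0
  have i1 : ∀ t, Integrable (fun x => ‖ψ t x‖ ^ 2) := fun t =>
    (h.h1 t).mem.integrable_norm_pow (by norm_num)
  obtain ⟨b, hb, lam, lam1, lam2, d1, d2, c2, nn, bb1, bb2, hone, hz⟩ :=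
    cut_stmt 1 (R ^ 2 / 2) one_pos
  have cl : Continuous lam := cont_of_d d1
  have cl1 : Continuous lam1 := cont_of_d d2
  set L := √(2 * b) with hL
  set p : E n → ℝ := fun x => lam (hn x) with hp
  have hpc : Continuous p := cl.comp hn_cont
  have hpL : ∀ x, L < ‖x‖ → p x = 0 := fun x hx => (hz _ (lt_hn hx).le).1
  have hpCK : CK p := CK.of_zero hpc hpL
  refine ⟨p, 2 * C, L, hpc, fun x => nn _, fun x hx => hone _ (hn_nonneg x) (hn_le hx), hpL,
    fun s t => ?_⟩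
  refine le_of_forall_pos_le_add fun η hη => ?_
  set T0 := |t - s| with hT0
  have hT00 : 0 ≤ T0 := abs_nonneg _
  set α := η / (8 * (C + 1)) with hα
  have hα0 : 0 < α := by positivity
  set η' := min (η / (4 * (T0 + 1))) (α * η / 8) with hη'
  have hη'0 : 0 < η' := by positivity
  set T' := max |s| |t| with hT'
  obtain ⟨ε, k, hk, herr⟩ := sol_err hV hVm h T' L hη'0
  set N : ℝ → ℝ := fun s => ∫ x, p x * ((mo k (ψ s) x).re ^ 2 + (mo k (ψ s) x).im ^ 2) with hN
  have hder := fun t => (time_stmt mo_stmt (snap_stmt mo_stmt) n V Vm hV hVm ψ ψ' C h k hk.ker p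
    hpCK t).2
  have sm : s ∈ Icc (-T') T' := abs_le.1 (le_max_left |s| |t|)
  have tm : t ∈ Icc (-T') T' := abs_le.1 (le_max_right |s| |t|)
  have hbound : |N t - N s| ≤ ((1 + 1) * C + (1 : ℝ)⁻¹ * η') * T0 := by
    have hd : ∀ t ∈ Icc (-T') T', |∫ x, p x * (2 * ((mo k (ψ t) x).re * (vv V k (ψ t) (ψ' t) x).re
        + (mo k (ψ t) x).im * (vv V k (ψ t) (ψ' t) x).im))| ≤ (1 + 1) * C + (1 : ℝ)⁻¹ * η' := by
      intro t ht
      obtain ⟨iρ, iG, -, hbd, -, -⟩ := moll_bd h hk t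
      have hsn := snap_stmt mo_stmt n V Vm hV hVm k hk.ker (ψ t) (ψ' t) (h.h1 t) (h.l6 t)
      have := mass_stmt n V _ _ _ _ _ _ _ _ _ _ _ _ hsn lam lam1 1 1 L one_pos one_pos d1 cl1 nn
        bb1 (fun x hx => ⟨(hz _ (le_hn hx)).1, (hz _ (le_hn hx)).2.1⟩) iρ iG
      refine this.trans ?_
      have h2 := (herr t ht).2
      gcongr
    have := Convex.norm_image_sub_le_of_norm_hasDerivWithin_le (f := N) (s := Icc (-T') T')
      (fun t _ => (hder t).hasDerivWithinAt) (fun t ht => by rw [Real.norm_eq_abs]; exact hd t ht)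
      (convex_Icc _ _) sm tm
    simpa only [Real.norm_eq_abs] using this
  have hcomp : ∀ t ∈ Icc (-T') T', |N t - ∫ x, p x * ‖ψ t x‖ ^ 2| ≤ α * (2 * C) + α⁻¹ * η' := by
    intro t ht
    obtain ⟨iρ, -, -, -, -, hm⟩ := moll_bd h hk t
    rw [hN]
    simp only [sq_re_im] at iρ hm ⊢
    have cm : Continuous (mo k (ψ t)) :=
      ((mo_stmt n k hk.ker).1 _ ((h.h1 t).mem.locallyIntegrable (by norm_num))).1
    refine (mass_close iρ (i1 t) cm.aestronglyMeasurable (h.h1 t).mem.1 hpc (fun x => (nn _).1)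
      (fun x => (nn _).2) hpL hα0).trans ?_
    have h1 := h.mass t
    have h2 := (herr t ht).1
    have h3 : (∫ x, ‖mo k (ψ t) x‖ ^ 2) + ∫ x, ‖ψ t x‖ ^ 2 ≤ 2 * C := by linarith
    gcongr
  have b1 := abs_le.1 (hcomp t tm)
  have b2 := abs_le.1 (hcomp s sm)
  have b3 := abs_le.1 hbound
  have w2 : η' * T0 ≤ η / 4 := by
    have h1 : η' ≤ η / (4 * (T0 + 1)) := min_le_left _ _
    calc η' * T0 ≤ (η / (4 * (T0 + 1))) * (T0 + 1) := by
          gcongr; linarith
      _ = η / 4 := by field_simp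
  have w3 : α * (2 * C) ≤ η / 4 := by
    have e : α * (8 * (C + 1)) = η := by rw [hα]; field_simp
    nlinarith
  have w4 : α⁻¹ * η' ≤ η / 8 := by
    have h1 : η' ≤ α * η / 8 := min_le_right _ _
    calc α⁻¹ * η' ≤ α⁻¹ * (α * η / 8) := by gcongr
      _ = η / 8 := by field_simp
  have e5 : ((1 + 1) * C + (1 : ℝ)⁻¹ * η') * T0 = 2 * C * T0 + η' * T0 := by ring
  rw [e5] at b3
  rw [abs_le]
  constructor <;> linarith [b1.1, b1.2, b2.1, b2.2, b3.1, b3.2]

end

end Pool.Agent.Lib_helper40.NLM
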