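import Pool.Agent.Lib_helper40.NLM.Main
import Pool.Agent.Lib_helper40.NLM.Avg
import Pool.Agent.Lib_helper40.NLM.RepX
import Pool.Agent.Lib_helper40.NLM.Fld2
import Pool.Agent.Lib_helper40.NLN.Weak
import Pool.Agent.Lib_helper40.NLN.Sob

/-!
# From local decay to the absence of localized solutions
-/

namespace Pool.Agent.Lib_helper40.NLM

open MeasureTheory Set Filter Topology
open Pool.Agent.Lib_helper40.NLN

noncomputable section

variable {n : ℕ}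

/-- a space-time integral over the whole line from bounds on compact intervals -/
lemma lint_of_bd {q : ℝ → ℝ} (hq : Continuous q) (h0 : ∀ t, 0 ≤ q t) {K : ℝ}
    (hK : ∀ T : ℝ, 0 ≤ T → ∫ t in (-T)..T, q t ≤ K) :
    ∫⁻ t, ENNReal.ofReal (q t) ≤ ENNReal.ofReal K := by
  have hcov : AECover (volume : Measure ℝ) atTop fun T : ℝ => Ioc (-T) T :=
    aecover_Ioc tendsto_neg_atTop_atBot tendsto_id
  have hlim := hcov.lintegral_tendsto_of_countably_generated (f := fun t => ENNReal.ofReal (q t))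
    (ENNReal.measurable_ofReal.comp hq.measurable).aemeasurable
  refine le_of_tendsto hlim ?_
  filter_upwards [eventually_ge_atTop (0 : ℝ)] with T hT
  have h1 := hK T hT
  rw [intervalIntegral.integral_of_le (by linarith)] at h1
  have hi : IntegrableOn q (Ioc (-T) T) :=
    (hq.continuousOn.integrableOn_compact isCompact_Icc).mono_set Ioc_subset_Icc_self
  rw [← ofReal_integral_eq_lintegral_ofReal hi (ae_of_all _ h0)]
  exact ENNReal.ofReal_le_ofReal h1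

/-- tightness from localization -/
lemma tight_of_loc {ψ : ℝ → E n → ℂ} (i1 : ∀ t, Integrable fun x => ‖ψ t x‖ ^ 2) {m : ℝ}
    (hm0 : 0 < m) (hmass : ∀ t, ∫ x, ‖ψ t x‖ ^ 2 = m) {δ : ℝ} (hδ : 0 < δ) {K : ℝ}
    (hK : ∀ t, 0 ≤ t → Integrable (fun x => ((√(1 + ‖x‖ ^ 2)) ^ δ * ‖ψ t x‖) ^ 2) volume ∧
      ∫ x, ((√(1 + ‖x‖ ^ 2)) ^ δ * ‖ψ t x‖) ^ 2 ≤ K) :
    ∃ R : ℝ, 0 < R ∧ ∀ t, 0 ≤ t →
      m / 2 ≤ ∫ x in Metric.closedBall (0 : E n) R, ‖ψ t x‖ ^ 2 := by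
  obtain ⟨R, hR1, hR2⟩ : ∃ R : ℝ, 1 ≤ R ∧ max 1 (2 * (|K| + 1) / m) ≤ R ^ δ :=
    ((eventually_ge_atTop (1 : ℝ)).and
      ((tendsto_rpow_atTop hδ).eventually_ge_atTop (max 1 (2 * (|K| + 1) / m)))).exists
  set w : E n → ℝ := fun x => (√(1 + ‖x‖ ^ 2)) ^ δ with hw
  have hwR : ∀ x, R ≤ ‖x‖ → 2 * (|K| + 1) / m ≤ w x ^ 2 := by
    intro x hx
    have e1 : R ≤ √(1 + ‖x‖ ^ 2) := by
      refine Real.le_sqrt_of_sq_le ?_
      nlinarith [norm_nonneg x]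
    have e2 : R ^ δ ≤ w x := Real.rpow_le_rpow (by linarith) e1 hδ.le
    have e3 := (le_max_left _ _).trans (hR2.trans e2)
    have e4 := (le_max_right _ _).trans (hR2.trans e2)
    nlinarith
  refine ⟨R, by linarith, fun t ht => ?_⟩
  obtain ⟨k1, k2⟩ := hK t ht
  have hKm : 0 < 2 * (|K| + 1) / m := by positivity
  set q := 2 * (|K| + 1) / m with hq
  -- splitting of the mass
  have hind : Integrable ((Metric.closedBall (0 : E n) R).indicator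
      fun x => ‖ψ t x‖ ^ 2) := (i1 t).indicator measurableSet_closedBall
  have hle : ∫ x, ‖ψ t x‖ ^ 2 ≤ ∫ x, ((Metric.closedBall (0 : E n)
      R).indicator (fun x => ‖ψ t x‖ ^ 2) x + q⁻¹ * (w x * ‖ψ t x‖) ^ 2) := by
    refine integral_mono (i1 t) (hind.add (k1.const_mul _)) fun x => ?_
    simp only
    by_cases hx : x ∈ Metric.closedBall (0 : E n) R
    · rw [indicator_of_mem hx]
      have : 0 ≤ q⁻¹ * (w x * ‖ψ t x‖) ^ 2 := by positivity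
      linarith
    · rw [indicator_of_notMem hx, zero_add]
      have hxR : R ≤ ‖x‖ := by
        rw [Metric.mem_closedBall, dist_zero_right, not_le] at hx
        exact hx.le
      have h2 := hwR x hxR
      rw [mul_pow, ← mul_assoc]
      have h3 : 1 ≤ q⁻¹ * w x ^ 2 := by
        rw [inv_mul_eq_div, le_div_iff₀ hKm]; linarith
      nlinarith [sq_nonneg ‖ψ t x‖]
  rw [integral_add hind (k1.const_mul _), integral_const_mul,
    integral_indicator measurableSet_closedBall, hmass t] at hle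
  have h4 : q⁻¹ * ∫ x, (w x * ‖ψ t x‖) ^ 2 ≤ m / 2 := by
    have h5 : ∫ x, (w x * ‖ψ t x‖) ^ 2 ≤ |K| + 1 := k2.trans ((le_abs_self K).trans (by linarith))
    calc q⁻¹ * ∫ x, (w x * ‖ψ t x‖) ^ 2 ≤ q⁻¹ * (|K| + 1) := by gcongr
      _ = m / 2 := by rw [hq]; field_simp
  linarith

section

variable {V : E n → ℝ} {Vm : ℝ} {ψ : ℝ → E n → ℂ} {ψ' : ℝ → Fin n → E n → ℂ} {C : ℝ}

/-- no localized solution, when the local masses are not bounded below -/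
theorem no_loc (cV : Continuous V) (hVb : ∀ x, |V x| ≤ Vm) (h : SolN V ψ ψ' C)
    (hdec : ∀ R m : ℝ, 0 < R → 0 < m →
      ¬ ∀ t, 0 ≤ t → m ≤ ∫ x in Metric.closedBall (0 : E n) R, ‖ψ t x‖ ^ 2)
    {δ : ℝ} (hδ : 0 < δ) {K : ℝ}
    (hK : ∀ t, 0 ≤ t → Integrable (fun x => ((√(1 + ‖x‖ ^ 2)) ^ δ * ‖ψ t x‖) ^ 2) volume ∧
      ∫ x, ((√(1 + ‖x‖ ^ 2)) ^ δ * ‖ψ t x‖) ^ 2 ≤ K) : ∀ t, ψ t =ᵐ[volume] 0 := by
  by_contra hne
  push Not at hne
  obtain ⟨t₁, ht₁⟩ := hne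
  have i1 : ∀ t, Integrable fun x => ‖ψ t x‖ ^ 2 := fun t =>
    (h.h1 t).mem.integrable_norm_pow (by norm_num)
  set m := ∫ x, ‖ψ t₁ x‖ ^ 2 with hm
  have hm0 : 0 < m := by
    have hnn : 0 ≤ m := integral_nonneg fun x => by positivity
    refine lt_of_le_of_ne hnn fun h0 => ht₁ ?_
    have h2 := (integral_eq_zero_iff_of_nonneg (fun x => by positivity) (i1 t₁)).1 h0.symm
    filter_upwards [h2] with x hx
    simpa using hx
  have hmass : ∀ t, ∫ x, ‖ψ t x‖ ^ 2 = m := fun t =>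
    le_antisymm (mass_cons cV hVb h t t₁) (mass_cons cV hVb h t₁ t)
  obtain ⟨R, hR, hR2⟩ := tight_of_loc i1 hm0 hmass hδ hK
  exact hdec R (m / 2) hR (by positivity) hR2

/-- the averaged decay excludes lower bounds of local masses -/
lemma not_tight_of_avg (h : SolN V ψ ψ' C)
    (H : ∀ R : ℝ, 0 < R → ∀ ε : ℝ, 0 < ε → ∃ T₀ : ℝ, 0 < T₀ ∧ ∀ s T : ℝ, T₀ ≤ T →
      ∫ t in s..(s + T), ∫ x in Metric.closedBall (0 : E n) R, ‖ψ t x‖ ^ 2 ≤ ε * T)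
    (R m : ℝ) (hR : 0 < R) (hm : 0 < m) :
    ¬ ∀ t, 0 ≤ t → m ≤ ∫ x in Metric.closedBall (0 : E n) R, ‖ψ t x‖ ^ 2 := by
  intro hc
  obtain ⟨T, hT, h1⟩ := H R hR (m / 2) (by positivity)
  have h2 := h1 0 T le_rfl
  rw [zero_add] at h2
  have hcont := Rage.cont_mass (fun t => (h.h1 t).mem) h.c2 (Metric.closedBall (0 : E n) R)
  have h3 : ∫ t in (0 : ℝ)..T, m ≤
      ∫ t in (0 : ℝ)..T, ∫ x in Metric.closedBall (0 : E n) R, ‖ψ t x‖ ^ 2 :=
    intervalIntegral.integral_mono_on hT.le (by simp) (hcont.intervalIntegrable _ _)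
      fun t ht => hc t ht.1
  rw [intervalIntegral.integral_const, smul_eq_mul, sub_zero] at h3
  nlinarith

end

/-- In dimensions two and three a bounded solution is bounded and continuous in `L⁶`. -/
lemma l6_of_h1 {n : ℕ} (hn : n = 2 ∨ n = 3) {ψ : ℝ → E n → ℂ}
    {ψ' : ℝ → Fin n → E n → ℂ} (h1 : ∀ t, H1n (ψ t) (ψ' t))
    {C : ℝ} (hC : ∀ t, ∫ x, (‖ψ t x‖ ^ 2 + ∑ i, ‖ψ' t i x‖ ^ 2) ≤ C)
    (hcont : ∀ t₀, Tendsto
      (fun t => ∫ x, (‖ψ t x - ψ t₀ x‖ ^ 2 + ∑ i, ‖ψ' t i x - ψ' t₀ i x‖ ^ 2)) (𝓝 t₀) (𝓝 0)) :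
    (∀ t, MemLp (ψ t) 6 volume) ∧ (∃ C : ℝ, ∀ t, ∫ x, ‖ψ t x‖ ^ 6 ≤ C) ∧
    (∀ t₀, Tendsto (fun t => ∫ x, ‖ψ t x - ψ t₀ x‖ ^ 6) (𝓝 t₀) (𝓝 0)) := by
  obtain ⟨K, hK⟩ := sob n hn
  have hn0 : ∀ (f : E n → ℂ) (F : Fin n → E n → ℂ),
      0 ≤ ∫ x, (‖f x‖ ^ 2 + ∑ i, ‖F i x‖ ^ 2) := fun f F =>
    integral_nonneg fun x => by positivity
  refine ⟨fun t => (hK _ _ (h1 t)).1, ⟨|K| * C ^ 3, fun t => ?_⟩, fun t₀ => ?_⟩
  · refine (hK _ _ (h1 t)).2.trans ?_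
    have h2 := hn0 (ψ t) (ψ' t)
    have h3 := hC t
    calc K * (∫ x, (‖ψ t x‖ ^ 2 + ∑ i, ‖ψ' t i x‖ ^ 2)) ^ 3
        ≤ |K| * (∫ x, (‖ψ t x‖ ^ 2 + ∑ i, ‖ψ' t i x‖ ^ 2)) ^ 3 := by
          gcongr; exact le_abs_self K
      _ ≤ |K| * C ^ 3 := by gcongr
  · have hd : ∀ t, H1n (fun x => ψ t x - ψ t₀ x) (fun i x => ψ' t i x - ψ' t₀ i x) := by
      intro t
      refine ⟨(h1 t).mem.sub (h1 t₀).mem, fun i => ((h1 t).mem' i).sub ((h1 t₀).mem' i),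
        fun η hη i => ?_⟩
      have l0 : ∀ s, LocallyIntegrable (ψ s) volume := fun s =>
        (h1 s).mem.locallyIntegrable (by norm_num)
      have l1 : ∀ s, LocallyIntegrable (ψ' s i) volume := fun s =>
        ((h1 s).mem' i).locallyIntegrable (by norm_num)
      have k0 : ∀ s, Integrable fun x => pd i η x • ψ s x := fun s =>
        (l0 s).integrable_smul_left_of_hasCompactSupport (hη.pd i).cont (hη.pd i).2
      have k1 : ∀ s, Integrable fun x => η x • ψ' s i x := fun s =>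
        (l1 s).integrable_smul_left_of_hasCompactSupport hη.cont hη.2
      simp only [smul_sub]
      rw [integral_sub (k0 t) (k0 t₀), integral_sub (k1 t) (k1 t₀), (h1 t).weak η hη i,
        (h1 t₀).weak η hη i]
      ring
    have hlim : Tendsto (fun t => |K| *
        (∫ x, (‖ψ t x - ψ t₀ x‖ ^ 2 + ∑ i, ‖ψ' t i x - ψ' t₀ i x‖ ^ 2)) ^ 3) (𝓝 t₀) (𝓝 0) := by
      simpa using ((hcont t₀).pow 3).const_mul |K|
    refine squeeze_zero (fun t => integral_nonneg fun x => by positivity) (fun t => ?_) hlim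
    refine (hK _ _ (hd t)).2.trans ?_
    have h2 := hn0 (fun x => ψ t x - ψ t₀ x) (fun i x => ψ' t i x - ψ' t₀ i x)
    gcongr
    exact le_abs_self K

end

end Pool.Agent.Lib_helper40.NLM
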