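import Pool.Agent.Lib_helper40.NLM.Stmts

/-!
# From virial functionals to the Morawetz estimate (module NLM_MORA)
-/

namespace Pool.Agent.Lib_helper40.NLM

open MeasureTheory Set Filter Topology
open Pool.Agent.Lib_helper40.NLN

noncomputable section

namespace MoraM

variable {n : ℕ}

/-- splitting off the exterior of a ball -/
lemma ext {f : E n → ℂ} {w : E n → ℝ} {C R : ℝ} (hR : 0 < R)
    (hw : ∀ x, 0 ≤ w x ∧ w x ≤ 1) (hwx : ∀ x, w x * ‖x‖ ≤ 1)
    (i2 : Integrable (fun x => ‖f x‖ ^ 2)) (i6 : Integrable (fun x => ‖f x‖ ^ 6))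
    (h2 : ∫ x, ‖f x‖ ^ 2 ≤ C) (h6 : ∫ x, ‖f x‖ ^ 6 ≤ C)
    (i4 : Integrable (fun x => w x * ‖f x‖ ^ 4)) :
    ∫ x, w x * ‖f x‖ ^ 4 ≤
      (∫ x in Metric.closedBall (0 : E n) R, w x * ‖f x‖ ^ 4) + C / R := by
  have hB : MeasurableSet (Metric.closedBall (0 : E n) R) := Metric.isClosed_closedBall.measurableSet
  have i26 : Integrable (fun x => 1 / R * (1 / 2 * (‖f x‖ ^ 2 + ‖f x‖ ^ 6))) :=
    ((i2.add i6).const_mul (1 / 2)).const_mul (1 / R)
  rw [← integral_add_compl hB i4]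
  have h : ∫ x in (Metric.closedBall (0 : E n) R)ᶜ, w x * ‖f x‖ ^ 4 ≤
      ∫ x in (Metric.closedBall (0 : E n) R)ᶜ, 1 / R * (1 / 2 * (‖f x‖ ^ 2 + ‖f x‖ ^ 6)) := by
    refine setIntegral_mono_on i4.integrableOn i26.integrableOn hB.compl fun x hx => ?_
    have hx' : R < ‖x‖ := by simpa using hx
    have hw1 : w x ≤ 1 / R := by
      rw [le_div_iff₀ hR]
      exact (mul_le_mul_of_nonneg_left hx'.le (hw x).1).trans (hwx x)
    have h46 : ‖f x‖ ^ 4 ≤ 1 / 2 * (‖f x‖ ^ 2 + ‖f x‖ ^ 6) := by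
      have : 0 ≤ ‖f x‖ ^ 2 * (‖f x‖ ^ 2 - 1) ^ 2 := by positivity
      nlinarith
    have h0 : 0 ≤ 1 / R := by positivity
    exact mul_le_mul hw1 h46 (by positivity) h0
  have h' : ∫ x in (Metric.closedBall (0 : E n) R)ᶜ, 1 / R * (1 / 2 * (‖f x‖ ^ 2 + ‖f x‖ ^ 6)) ≤
      ∫ x, 1 / R * (1 / 2 * (‖f x‖ ^ 2 + ‖f x‖ ^ 6)) :=
    setIntegral_le_integral i26 (ae_of_all _ fun x => by
      show (0 : ℝ) ≤ 1 / R * (1 / 2 * (‖f x‖ ^ 2 + ‖f x‖ ^ 6))
      positivity)
  have h'' : ∫ x, 1 / R * (1 / 2 * (‖f x‖ ^ 2 + ‖f x‖ ^ 6)) ≤ C / R := by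
    rw [integral_const_mul, integral_const_mul, integral_add i2 i6]
    have : 1 / 2 * ((∫ x, ‖f x‖ ^ 2) + ∫ x, ‖f x‖ ^ 6) ≤ C := by linarith
    calc 1 / R * (1 / 2 * ((∫ x, ‖f x‖ ^ 2) + ∫ x, ‖f x‖ ^ 6)) ≤ 1 / R * C :=
          mul_le_mul_of_nonneg_left this (by positivity)
      _ = C / R := by ring
  linarith

end MoraM

/-- the Morawetz estimate -/
theorem mora (hC : Con6Stmt) (hQ : Q4Stmt) : MoraStmt := by
  intro n ψ C h2 h6 b2 b6 c2 c6 w hwc hw hwx Q H
  have hC0 : 0 ≤ C := le_trans (integral_nonneg fun x => by positivity) (b2 0)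
  have i2 : ∀ t, Integrable (fun x => ‖ψ t x‖ ^ 2) := fun t =>
    (h2 t).integrable_norm_pow (by norm_num)
  have i6 : ∀ t, Integrable (fun x => ‖ψ t x‖ ^ 6) := fun t =>
    (h6 t).integrable_norm_pow (by norm_num)
  have hcont : Continuous fun t => ∫ x, w x * ‖ψ t x‖ ^ 4 := by
    rw [continuous_iff_continuousAt]
    intro t₀
    rw [ContinuousAt, Metric.tendsto_nhds]
    intro ε hε
    have hα : 0 < ε / (16 * (C + 1)) := by positivity
    have hlim := (c2 t₀).const_mul (ε / (16 * (C + 1)))⁻¹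
    rw [mul_zero] at hlim
    filter_upwards [hlim.eventually (gt_mem_nhds (half_pos hε))] with t ht
    have hq := (hQ n (ψ t) (ψ t₀) w univ _ hα MeasurableSet.univ hwc.measurable hw (h2 t).1
      (h2 t₀).1 (i2 t) (i2 t₀) (i6 t) (i6 t₀)).2.2
    simp only [Measure.restrict_univ] at hq
    rw [Real.dist_eq]
    have e1 : 4 * (ε / (16 * (C + 1))) * ((∫ x, ‖ψ t x‖ ^ 6) + ∫ x, ‖ψ t₀ x‖ ^ 6) ≤ ε / 2 := by
      calc 4 * (ε / (16 * (C + 1))) * ((∫ x, ‖ψ t x‖ ^ 6) + ∫ x, ‖ψ t₀ x‖ ^ 6)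
          ≤ 4 * (ε / (16 * (C + 1))) * (C + C) := by
            apply mul_le_mul_of_nonneg_left (add_le_add (b6 t) (b6 t₀)) (by positivity)
        _ = ε / 2 * (C / (C + 1)) := by field_simp; ring
        _ ≤ ε / 2 * 1 := by
            apply mul_le_mul_of_nonneg_left _ (by positivity)
            rw [div_le_one (by positivity)]
            linarith
        _ = _ := mul_one _
    linarith
  refine ⟨hcont, fun T hT => ?_⟩
  rcases hT.eq_or_lt with rfl | hT
  · obtain ⟨k, ε, M, M', -, hM⟩ := H 1 1 1 one_pos one_pos one_pos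
    have h1 := (hM 0 (by constructor <;> norm_num)).1
    have h3 := abs_nonneg (M 0)
    simp only [neg_zero, intervalIntegral.integral_same]
    linarith
  · have hR : 0 < 8 * T * (C + 1) := by positivity
    have hα : 0 < 1 / (64 * T * (C + 1)) := by positivity
    have hη : 0 < 1 / (64 * T * (C + 1)) / (8 * T) := by positivity
    obtain ⟨k, ε, M, M', hk, hM⟩ := H _ (2 * T) _ hR (by positivity) hη
    have hsub : ∀ t ∈ Icc (-T) T, t ∈ Icc (-(2 * T)) (2 * T) := fun t ht =>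
      ⟨by linarith [ht.1], by linarith [ht.2]⟩
    have key : ∀ t ∈ Icc (-T) T, ∫ x, w x * ‖ψ t x‖ ^ 4 ≤ M' t + 1 / T := by
      intro t ht
      obtain ⟨-, -, h3, h4⟩ := hM t (hsub t ht)
      obtain ⟨c1, c2⟩ := hC n k ε hk (ψ t) (h2 t) (h6 t)
      have d1 := (con_stmt n k ε hk (ψ t) (h2 t)).1.1
      have hmc : Continuous (mo k (ψ t)) :=
        ConM.mo_cont hk.ker ((h2 t).locallyIntegrable (by norm_num))
      obtain ⟨q1, -, q3⟩ := hQ n (ψ t) (mo k (ψ t)) w
        (Metric.closedBall (0 : E n) (8 * T * (C + 1))) _ hα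
        Metric.isClosed_closedBall.measurableSet hwc.measurable hw (h2 t).1
        hmc.aestronglyMeasurable (i2 t) d1 (i6 t) c1
      have e1 := MoraM.ext hR hw hwx (i2 t) (i6 t) (b2 t) (b6 t) q1
      have e2 : 4 * (1 / (64 * T * (C + 1))) *
          ((∫ x, ‖ψ t x‖ ^ 6) + ∫ x, ‖mo k (ψ t) x‖ ^ 6) ≤ 1 / (8 * T) * (C / (C + 1)) := by
        calc 4 * (1 / (64 * T * (C + 1))) *
            ((∫ x, ‖ψ t x‖ ^ 6) + ∫ x, ‖mo k (ψ t) x‖ ^ 6)
            ≤ 4 * (1 / (64 * T * (C + 1))) * (C + C) := by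
              apply mul_le_mul_of_nonneg_left (add_le_add (b6 t) (c2.trans (b6 t))) (by positivity)
          _ = _ := by field_simp; ring
      have e3 : C / (8 * T * (C + 1)) = 1 / (8 * T) * (C / (C + 1)) := by
        field_simp
      have e4 : C / (C + 1) ≤ 1 := by
        rw [div_le_one (by positivity)]
        linarith
      have e5 : 1 / (8 * T) * (C / (C + 1)) ≤ 1 / (8 * T) := by
        calc 1 / (8 * T) * (C / (C + 1)) ≤ 1 / (8 * T) * 1 :=
              mul_le_mul_of_nonneg_left e4 (by positivity)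
          _ = _ := mul_one _
      have e6 : (∫ x in Metric.closedBall (0 : E n) (8 * T * (C + 1)),
          ‖ψ t x - mo k (ψ t) x‖ ^ 2) ≤ 1 / (64 * T * (C + 1)) / (8 * T) := by
        refine le_trans (le_of_eq ?_) h3
        congr 1
        ext x
        rw [norm_sub_rev]
      have e7 : (1 / (64 * T * (C + 1)))⁻¹ * (∫ x in Metric.closedBall (0 : E n)
          (8 * T * (C + 1)), ‖ψ t x - mo k (ψ t) x‖ ^ 2) ≤ 1 / (8 * T) := by
        calc (1 / (64 * T * (C + 1)))⁻¹ * (∫ x in Metric.closedBall (0 : E n)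
            (8 * T * (C + 1)), ‖ψ t x - mo k (ψ t) x‖ ^ 2)
            ≤ (1 / (64 * T * (C + 1)))⁻¹ * (1 / (64 * T * (C + 1)) / (8 * T)) :=
              mul_le_mul_of_nonneg_left e6 (by positivity)
          _ = 1 / (8 * T) := by
              rw [mul_div_assoc', inv_mul_cancel₀ hα.ne']
      have e8 := (abs_le.1 q3).2
      have e9 : 1 / (8 * T) = 1 / T / 8 := by field_simp
      have e10 : 1 / (2 * T) = 1 / T / 2 := by field_simp
      have e11 : 0 < 1 / T := by positivity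
      rw [e3] at e1
      rw [e9] at e5 e7 e1 e2
      rw [e10] at h4
      linarith
    have hfin := intervalIntegral.integral_le_sub_of_hasDeriv_right_of_le
      (a := -T) (b := T) (g := fun t => M t + t / T) (g' := fun t => M' t + 1 / T)
      (φ := fun t => ∫ x, w x * ‖ψ t x‖ ^ 4) (by linarith) ?_ ?_ ?_ ?_
    · have m1 := (abs_le.1 (hM T (hsub T ⟨by linarith, le_refl _⟩)).1).2
      have m2 := (abs_le.1 (hM (-T) (hsub (-T) ⟨le_refl _, by linarith⟩)).1).1
      have m3 : T / T = 1 := div_self hT.ne'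
      have m4 : -T / T = -1 := by rw [neg_div, m3]
      simp only [m3, m4] at hfin
      linarith
    · intro t ht
      exact (((hM t (hsub t ht)).2.1.add ((hasDerivAt_id t).div_const T)).continuousAt).continuousWithinAt
    · intro t ht
      exact ((hM t (hsub t ⟨ht.1.le, ht.2.le⟩)).2.1.add
        ((hasDerivAt_id t).div_const T)).hasDerivWithinAt
    · exact hcont.continuousOn.integrableOn_Icc
    · intro t ht
      exact key t ⟨ht.1.le, ht.2.le⟩

end

end Pool.Agent.Lib_helper40.NLM
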