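import Pool.Agent.Lib_helper40.NLM.Stmts

set_option autoImplicit false

/-!
# NLM_Q4: continuity of the quartic functional
-/

namespace Pool.Agent.Lib_helper40.NLM

open MeasureTheory Set Filter Topology
open Pool.Agent.Lib_helper40.NLN

theorem q4 : Q4Stmt := by
  intro n f g w B α hα hB hw hw1 hfm hgm hf2 hg2 hf6 hg6
  have p4 : ∀ t : ℝ, t ^ 4 ≤ (t ^ 2 + t ^ 6) / 2 := by
    intro t
    nlinarith [mul_nonneg (sq_nonneg t) (sq_nonneg (1 - t ^ 2))]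
  have hint : ∀ h : E n → ℂ, AEStronglyMeasurable h volume →
      Integrable (fun x => ‖h x‖ ^ 2) → Integrable (fun x => ‖h x‖ ^ 6) →
      Integrable (fun x => w x * ‖h x‖ ^ 4) := by
    intro h hm h2 h6
    refine Integrable.mono' ((h2.add h6).div_const 2)
      (hw.aestronglyMeasurable.mul (hm.norm.pow 4)) (Eventually.of_forall fun x => ?_)
    have h0 : 0 ≤ w x * ‖h x‖ ^ 4 := mul_nonneg (hw1 x).1 (by positivity)
    rw [Real.norm_of_nonneg h0]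
    have h1 : w x * ‖h x‖ ^ 4 ≤ 1 * ‖h x‖ ^ 4 :=
      mul_le_mul_of_nonneg_right (hw1 x).2 (by positivity)
    have := p4 ‖h x‖
    simp only [Pi.add_apply]
    linarith
  have hfi := hint f hfm hf2 hf6
  have hgi := hint g hgm hg2 hg6
  refine ⟨hfi, hgi, ?_⟩
  have hd : Integrable (fun x => ‖f x - g x‖ ^ 2) := by
    refine Integrable.mono' ((hf2.add hg2).const_mul 2) ((hfm.sub hgm).norm.pow 2)
      (Eventually.of_forall fun x => ?_)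
    rw [Real.norm_of_nonneg (by positivity)]
    have h1 := norm_sub_le (f x) (g x)
    have h0 := norm_nonneg (f x - g x)
    simp only [Pi.add_apply]
    nlinarith [sq_nonneg (‖f x‖ - ‖g x‖), pow_le_pow_left₀ h0 h1 2]
  have key : ∀ x, |w x * ‖f x‖ ^ 4 - w x * ‖g x‖ ^ 4| ≤
      2 * α * (‖f x‖ ^ 6 + ‖g x‖ ^ 6) + α⁻¹ * ‖f x - g x‖ ^ 2 := by
    intro x
    set u := ‖f x‖ with hu
    set v := ‖g x‖ with hv
    set d := ‖f x - g x‖ with hdd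
    have hu0 : 0 ≤ u := norm_nonneg _
    have hv0 : 0 ≤ v := norm_nonneg _
    have hd0 : 0 ≤ d := norm_nonneg _
    have h1 : |u - v| ≤ d := abs_norm_sub_norm_le _ _
    have h2 : |w x * u ^ 4 - w x * v ^ 4| ≤ |u ^ 4 - v ^ 4| := by
      rw [← mul_sub, abs_mul, abs_of_nonneg (hw1 x).1]
      have := mul_le_mul_of_nonneg_right (hw1 x).2 (abs_nonneg (u ^ 4 - v ^ 4))
      linarith
    have h3 : |u ^ 4 - v ^ 4| ≤ d * (2 * (u ^ 3 + v ^ 3)) := by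
      have e : u ^ 4 - v ^ 4 = (u - v) * (u ^ 3 + u ^ 2 * v + u * v ^ 2 + v ^ 3) := by ring
      rw [e, abs_mul, abs_of_nonneg (by positivity : 0 ≤ u ^ 3 + u ^ 2 * v + u * v ^ 2 + v ^ 3)]
      have h4 : u ^ 3 + u ^ 2 * v + u * v ^ 2 + v ^ 3 ≤ 2 * (u ^ 3 + v ^ 3) := by
        nlinarith [mul_nonneg (add_nonneg hu0 hv0) (sq_nonneg (u - v))]
      exact mul_le_mul h1 h4 (by positivity) hd0
    have h5 : d * (2 * (u ^ 3 + v ^ 3)) ≤ α * (u ^ 3 + v ^ 3) ^ 2 + α⁻¹ * d ^ 2 := by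
      have h6 : 0 ≤ α⁻¹ * (α * (u ^ 3 + v ^ 3) - d) ^ 2 := by positivity
      have e : α⁻¹ * (α * (u ^ 3 + v ^ 3) - d) ^ 2 =
          α * (u ^ 3 + v ^ 3) ^ 2 + α⁻¹ * d ^ 2 - d * (2 * (u ^ 3 + v ^ 3)) := by
        field_simp
        ring
      linarith
    have h7 : α * (u ^ 3 + v ^ 3) ^ 2 ≤ 2 * α * (u ^ 6 + v ^ 6) := by
      have : (u ^ 3 + v ^ 3) ^ 2 ≤ 2 * (u ^ 6 + v ^ 6) := by
        nlinarith [sq_nonneg (u ^ 3 - v ^ 3)]
      nlinarith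
    linarith
  have h67 : Integrable (fun x => 2 * α * (‖f x‖ ^ 6 + ‖g x‖ ^ 6) + α⁻¹ * ‖f x - g x‖ ^ 2) :=
    ((hf6.add hg6).const_mul (2 * α)).add (hd.const_mul α⁻¹)
  have hfg6 : Integrable (fun x => ‖f x‖ ^ 6 + ‖g x‖ ^ 6) := hf6.add hg6
  have habs : Integrable (fun x => |w x * ‖f x‖ ^ 4 - w x * ‖g x‖ ^ 4|) := (hfi.sub hgi).abs
  have h66 : Integrable (fun x => 2 * α * (‖f x‖ ^ 6 + ‖g x‖ ^ 6)) := hfg6.const_mul (2 * α)
  have h22 : Integrable (fun x => α⁻¹ * ‖f x - g x‖ ^ 2) := hd.const_mul α⁻¹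
  rw [← integral_sub hfi.integrableOn hgi.integrableOn]
  calc |∫ x in B, (w x * ‖f x‖ ^ 4 - w x * ‖g x‖ ^ 4)|
      ≤ ∫ x in B, |w x * ‖f x‖ ^ 4 - w x * ‖g x‖ ^ 4| := abs_integral_le_integral_abs
    _ ≤ ∫ x in B, (2 * α * (‖f x‖ ^ 6 + ‖g x‖ ^ 6) + α⁻¹ * ‖f x - g x‖ ^ 2) :=
        integral_mono habs.integrableOn h67.integrableOn key
    _ = 2 * α * (∫ x in B, (‖f x‖ ^ 6 + ‖g x‖ ^ 6)) + α⁻¹ * ∫ x in B, ‖f x - g x‖ ^ 2 := by
        rw [integral_add h66.integrableOn h22.integrableOn, integral_const_mul,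
          integral_const_mul]
    _ ≤ 4 * α * ((∫ x, ‖f x‖ ^ 6) + ∫ x, ‖g x‖ ^ 6) + α⁻¹ * ∫ x in B, ‖f x - g x‖ ^ 2 := by
        have h8 : (∫ x in B, (‖f x‖ ^ 6 + ‖g x‖ ^ 6)) ≤ (∫ x, ‖f x‖ ^ 6) + ∫ x, ‖g x‖ ^ 6 := by
          rw [← integral_add hf6 hg6]
          exact setIntegral_le_integral hfg6
            (Eventually.of_forall fun x => by positivity)
        have h9 : 0 ≤ (∫ x, ‖f x‖ ^ 6) + ∫ x, ‖g x‖ ^ 6 :=
          add_nonneg (integral_nonneg fun x => by positivity)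
            (integral_nonneg fun x => by positivity)
        nlinarith

end Pool.Agent.Lib_helper40.NLM
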