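import Pool.Agent.Lib_helper40.NLM.Stmts

/-!
# Virial functionals of a bounded solution
-/

namespace Pool.Agent.Lib_helper40.NLM

open MeasureTheory Set Filter Topology
open Pool.Agent.Lib_helper40.NLN

noncomputable section

section

variable {n : ℕ} {V : E n → ℝ} {Vm : ℝ} {ψ : ℝ → E n → ℂ} {ψ' : ℝ → Fin n → E n → ℂ} {C : ℝ}

/-- the functional -/
def Mf (k : E n → ℝ) (p : Fin n → E n → ℝ) (ψ : ℝ → E n → ℂ) (ψ' : ℝ → Fin n → E n → ℂ)
    (s : ℝ) : ℝ :=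
  ∑ j, ∫ x, p j x * ((mo k (ψ s) x).re * (mo k (ψ' s j) x).im
        - (mo k (ψ s) x).im * (mo k (ψ' s j) x).re)

/-- its derivative -/
def Mf' (V : E n → ℝ) (k : E n → ℝ) (p : Fin n → E n → ℝ) (ψ : ℝ → E n → ℂ)
    (ψ' : ℝ → Fin n → E n → ℂ) (t : ℝ) : ℝ :=
  ∫ x, ∑ i, p i x * ((vv V k (ψ t) (ψ' t) x).re * (mo k (ψ' t i) x).im
          + (mo k (ψ t) x).re * (ww V k (ψ t) (ψ' t) i x).im
          - (vv V k (ψ t) (ψ' t) x).im * (mo k (ψ' t i) x).re
          - (mo k (ψ t) x).im * (ww V k (ψ t) (ψ' t) i x).re)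

lemma Mf_d (cV : Continuous V) (hVb : ∀ x, |V x| ≤ Vm) (h : SolN V ψ ψ' C) {k : E n → ℝ}
    (hk : Ker k) {p : Fin n → E n → ℝ} (hp : ∀ j, CK (p j)) (t : ℝ) :
    HasDerivAt (Mf k p ψ ψ') (Mf' V k p ψ ψ' t) t := by
  have htime := fun j => (time_stmt mo_stmt (snap_stmt mo_stmt) n V Vm cV hVb ψ ψ' C h k
    hk (p j) (hp j) t).1 j
  have hs := snap_stmt mo_stmt n V Vm cV hVb k hk (ψ t) (ψ' t) (h.h1 t) (h.l6 t)
  have h1 := HasDerivAt.fun_sum (u := (Finset.univ : Finset (Fin n))) fun j _ => htime j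
  refine HasDerivAt.congr_deriv (f := Mf k p ψ ψ') h1 ?_
  rw [← integral_finsetSum _ fun j _ => ?_]
  · rfl
  · have c1 := hs.cv1
    have c3 := hs.cb1 j
    have c4 := hs.ca
    have c5 := hs.cw2 j
    have c6 := hs.cv2
    have c7 := hs.ca1 j
    have c8 := hs.cb
    have c9 := hs.cw1 j
    exact CK.int ⟨(hp j).1.mul (by fun_prop), (hp j).2.mul_right⟩

lemma Mf_bd (cV : Continuous V) (hVb : ∀ x, |V x| ≤ Vm) (h : SolN V ψ ψ' C) {k : E n → ℝ}
    {ε : ℝ} (hk : Avg k ε) {p : Fin n → E n → ℝ} (hp : ∀ j, CK (p j)) {Q : ℝ} (hQ : 0 ≤ Q)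
    (hpQ : ∀ (x : E n) (a b : ℝ) (a1 b1 : Fin n → E n → ℝ),
      |∑ j, p j x * (a * b1 j x - b * a1 j x)| ≤ Q * ((a ^ 2 + b ^ 2) + gsq a1 b1 x)) (t : ℝ) :
    |Mf k p ψ ψ' t| ≤ Q * C := by
  obtain ⟨iρ, iG, iρ2, hbd, hbd2, -⟩ := moll_bd h hk t
  have hs := snap_stmt mo_stmt n V Vm cV hVb k hk.ker (ψ t) (ψ' t) (h.h1 t) (h.l6 t)
  have hMe : Mf k p ψ ψ' t = ∫ x, ∑ j, p j x * ((mo k (ψ t) x).re * (mo k (ψ' t j) x).im
        - (mo k (ψ t) x).im * (mo k (ψ' t j) x).re) := by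
    unfold Mf
    rw [← integral_finsetSum _ fun j _ => ?_]
    have c3 := hs.cb1 j
    have c4 := hs.ca
    have c7 := hs.ca1 j
    have c8 := hs.cb
    exact CK.int ⟨(hp j).1.mul (by fun_prop), (hp j).2.mul_right⟩
  rw [hMe, ← Real.norm_eq_abs]
  refine (norm_integral_le_of_norm_le ((iρ.add iG).const_mul Q) (ae_of_all _ fun x => ?_)).trans ?_
  · rw [Real.norm_eq_abs]
    exact hpQ x _ _ (fun i x => (mo k (ψ' t i) x).re) (fun i x => (mo k (ψ' t i) x).im)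
  · rw [integral_const_mul]
    simp only [Pi.add_apply]
    rw [integral_add iρ iG]
    exact mul_le_mul_of_nonneg_left hbd hQ

/-- a virial inequality for the vector field `p`, valid for all snapshots -/
def VirBd (V : E n → ℝ) (C : ℝ) (w : E n → ℝ) (c ε₀ R : ℝ) (p : Fin n → E n → ℝ)
    (KE L : ℝ) : Prop :=
  ∀ (a b v1 v2 e1 e2 : E n → ℝ) (a1 b1 w1 w2 : Fin n → E n → ℝ)
    (a2 b2 : Fin n → Fin n → E n → ℝ), SnapN V a b a1 b1 a2 b2 v1 v2 w1 w2 e1 e2 →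
    Integrable (fun x => a x ^ 2 + b x ^ 2) → Integrable (gsq a1 b1) →
    Integrable (fun x => (a x ^ 2 + b x ^ 2) ^ 2) →
    (∫ x, (a x ^ 2 + b x ^ 2)) + ∫ x, gsq a1 b1 x ≤ C →
    ∫ x, (a x ^ 2 + b x ^ 2) ^ 2 ≤ C →
    c * (∫ x in Metric.closedBall (0 : E n) R, w x * (a x ^ 2 + b x ^ 2) ^ 2) - ε₀
      - KE * (∫ x in Metric.closedBall (0 : E n) L, (e1 x ^ 2 + e2 x ^ 2)) ≤
    ∫ x, ∑ i, p i x * (v1 x * b1 i x + a x * w2 i x - v2 x * a1 i x - b x * w1 i x)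

/-- from the virial inequality to the functional, for all times in a compact interval -/
theorem func (cV : Continuous V) (hVb : ∀ x, |V x| ≤ Vm) (h : SolN V ψ ψ' C)
    {w : E n → ℝ} {c ε₀ R KE L : ℝ} {p : Fin n → E n → ℝ} (hKE : 0 ≤ KE)
    (hp : ∀ j, CK (p j)) (hbd : VirBd V C w c ε₀ R p KE L)
    {T η δ : ℝ} (hη : 0 < η) (hδ : 0 < δ) :
    ∃ (k : E n → ℝ) (ε : ℝ), Avg k ε ∧ ∀ t ∈ Icc (-T) T,
      (∫ x in Metric.closedBall (0 : E n) R, ‖mo k (ψ t) x - ψ t x‖ ^ 2) ≤ η ∧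
      c * (∫ x in Metric.closedBall (0 : E n) R, w x * ‖mo k (ψ t) x‖ ^ 4) ≤
        Mf' V k p ψ ψ' t + ε₀ + δ := by
  set η' := min η (δ / (KE + 1)) with hη'
  have hη'0 : 0 < η' := by positivity
  obtain ⟨ε, k, hk, herr⟩ := sol_err cV hVb h T (max R L) hη'0
  refine ⟨k, ε, hk, fun t ht => ?_⟩
  obtain ⟨iρ, iG, iρ2, hb1, hb2, -⟩ := moll_bd h hk t
  have hs := snap_stmt mo_stmt n V Vm cV hVb k hk.ker (ψ t) (ψ' t) (h.h1 t) (h.l6 t)
  obtain ⟨e1, e2⟩ := herr t ht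
  have cm : Continuous (mo k (ψ t)) :=
    ((mo_stmt n k hk.ker).1 _ ((h.h1 t).mem.locallyIntegrable (by norm_num))).1
  have id : Integrable fun x => ‖mo k (ψ t) x - ψ t x‖ ^ 2 := by
    have h1 : MemLp (mo k (ψ t)) 2 volume :=
      (memLp_two_iff_integrable_sq_norm cm.aestronglyMeasurable).2
        (con_stmt n k ε hk (ψ t) (h.h1 t).mem).1.1
    exact (h1.sub (h.h1 t).mem).integrable_norm_pow (by norm_num)
  constructor
  · calc (∫ x in Metric.closedBall (0 : E n) R, ‖mo k (ψ t) x - ψ t x‖ ^ 2)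
        ≤ ∫ x in Metric.closedBall (0 : E n) (max R L), ‖mo k (ψ t) x - ψ t x‖ ^ 2 :=
          setIntegral_mono_set id.integrableOn (ae_of_all _ fun x => by
            simp only [Pi.zero_apply]; positivity)
            (Metric.closedBall_subset_closedBall (le_max_left _ _)).eventuallyLE
      _ ≤ η' := e1
      _ ≤ η := min_le_left _ _
  · have h1 := hbd _ _ _ _ _ _ _ _ _ _ _ _ hs iρ iG iρ2 hb1 hb2
    have e3 : ∀ x, ((mo k (ψ t) x).re ^ 2 + (mo k (ψ t) x).im ^ 2) ^ 2 = ‖mo k (ψ t) x‖ ^ 4 :=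
      fun x => by rw [sq_re_im]; ring
    simp only [e3] at h1
    have h2 : KE * (∫ x in Metric.closedBall (0 : E n) L,
        ((ee V k (ψ t) x).re ^ 2 + (ee V k (ψ t) x).im ^ 2)) ≤ δ := by
      have ce1 := hs.ce1
      have ce2 := hs.ce2
      have h3 : (∫ x in Metric.closedBall (0 : E n) L,
          ((ee V k (ψ t) x).re ^ 2 + (ee V k (ψ t) x).im ^ 2)) ≤ δ / (KE + 1) := by
        calc _ ≤ ∫ x in Metric.closedBall (0 : E n) (max R L),
            ((ee V k (ψ t) x).re ^ 2 + (ee V k (ψ t) x).im ^ 2) := by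
              refine setIntegral_mono_set ?_ (ae_of_all _ fun x => by
                simp only [Pi.zero_apply]; positivity)
                (Metric.closedBall_subset_closedBall (le_max_right _ _)).eventuallyLE
              exact (by fun_prop : Continuous fun x =>
                (ee V k (ψ t) x).re ^ 2 + (ee V k (ψ t) x).im ^ 2).continuousOn.integrableOn_compact
                (isCompact_closedBall _ _)
          _ ≤ η' := e2
          _ ≤ _ := min_le_right _ _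
      calc _ ≤ KE * (δ / (KE + 1)) := by gcongr
        _ = (KE / (KE + 1)) * δ := by ring
        _ ≤ 1 * δ := by
            gcongr
            rw [div_le_one (by positivity)]
            linarith
        _ = δ := one_mul _
    have h3 : Mf' V k p ψ ψ' t = ∫ x, ∑ i, p i x * ((vv V k (ψ t) (ψ' t) x).re
          * (mo k (ψ' t i) x).im
          + (mo k (ψ t) x).re * (ww V k (ψ t) (ψ' t) i x).im
          - (vv V k (ψ t) (ψ' t) x).im * (mo k (ψ' t i) x).re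
          - (mo k (ψ t) x).im * (ww V k (ψ t) (ψ' t) i x).re) := rfl
    rw [h3]
    linarith

end

end

end Pool.Agent.Lib_helper40.NLM
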