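import Pool.Agent.Lib_helper40.NLM.Vir2
import Pool.Agent.Lib_helper40.NLM.Tf
import Pool.Agent.Lib_helper40.NLM.Mora
import Pool.Agent.Lib_helper40.NLM.Rage
import Pool.Agent.Lib_helper40.NLM.Lip
import Pool.Agent.Lib_helper40.NLM.Dec
import Pool.Agent.Lib_helper40.NLM.Con6
import Pool.Agent.Lib_helper40.NLM.Q4
import Pool.Agent.Lib_helper40.NLM.Alg2
import Pool.Agent.Lib_helper40.NLM.VirX
import Pool.Agent.Lib_helper40.NLM.Lin

/-!
# The Morawetz estimate
-/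

namespace Pool.Agent.Lib_helper40.NLM

open MeasureTheory Set Filter Topology
open Pool.Agent.Lib_helper40.NLN

noncomputable section

variable {n : ℕ}

/-- `1/√(1+|x|²)` -/
def wt (x : E n) : ℝ := (√(1 + ‖x‖ ^ 2))⁻¹

lemma sq_pos (x : E n) : 0 < √(1 + ‖x‖ ^ 2) := Real.sqrt_pos.2 (by positivity)

lemma wt_cont : Continuous (wt : E n → ℝ) := by
  unfold wt
  exact Continuous.inv₀ (by fun_prop) fun x => (sq_pos x).ne'

lemma wt_pos (x : E n) : 0 < wt x := inv_pos.2 (sq_pos x)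

lemma wt_le (x : E n) : wt x ≤ 1 := by
  unfold wt
  refine inv_le_one_of_one_le₀ (Real.le_sqrt_of_sq_le ?_)
  nlinarith [sq_nonneg ‖x‖]

lemma wt_mul (x : E n) : wt x * ‖x‖ ≤ 1 := by
  unfold wt
  rw [inv_mul_le_iff₀ (sq_pos x), mul_one]
  exact Real.le_sqrt_of_sq_le (by linarith)

/-- `g⁻¹ ≥ (max 1 α)⁻¹ / √(1+|x|²)` -/
lemma wt_gg {α : ℝ} (hα : 0 < α) (x : E n) : (max 1 α)⁻¹ * wt x ≤ (gg α (hn x))⁻¹ := by
  unfold wt
  rw [← mul_inv]
  refine inv_anti₀ (gg_pos hα (hn_nonneg x)) ?_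
  unfold gg hn
  have h0 : 0 ≤ max 1 α * √(1 + ‖x‖ ^ 2) := by
    have : (0 : ℝ) ≤ max 1 α := le_trans zero_le_one (le_max_left _ _)
    positivity
  rw [Real.sqrt_le_left h0, mul_pow, Real.sq_sqrt (by positivity)]
  have h1 : α ^ 2 ≤ (max 1 α) ^ 2 := by
    have := le_max_right 1 α
    gcongr
  have h2 : 1 ≤ (max 1 α) ^ 2 := one_le_pow₀ (le_max_left _ _)
  nlinarith [sq_nonneg ‖x‖]

lemma norm_le_gg {α : ℝ} (x : E n) : ‖x‖ ≤ gg α (hn x) := by
  unfold gg hn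
  refine Real.le_sqrt_of_sq_le ?_
  nlinarith [sq_nonneg α]

/-- the cutoff, from the one-dimensional library -/
lemma exists_cutG {μ B : ℝ} (hμ : 0 < μ) : ∃ b : ℝ, B < b ∧ ∃ lam lam1 lam2 : ℝ → ℝ,
    CutG lam lam1 lam2 μ b ∧ ∀ g, 0 ≤ g → g ≤ B → lam g = 1 := by
  obtain ⟨D, hD, hcut⟩ := NLV.exists_cut
  set R := max (max 1 (D / μ)) B with hR
  have hR1 : 1 ≤ R := (le_max_left _ _).trans (le_max_left _ _)
  have hRD : D / μ ≤ R := (le_max_right _ _).trans (le_max_left _ _)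
  have hRB : B ≤ R := le_max_right _ _
  have hR0 : 0 < R := by linarith
  obtain ⟨χ, χ1, χ2, hχ, h1⟩ := hcut R hR1
  have hκ : D / R ≤ μ := by
    rw [div_le_iff₀ hμ] at hRD
    rw [div_le_iff₀ hR0]
    linarith
  have hz2 : ∀ g, 3 * R ≤ g → χ2 g = 0 := by
    have hcl : IsClosed {g : ℝ | χ2 g = 0} := isClosed_eq hχ.cχ2 continuous_const
    have hsub : Ioi (3 * R) ⊆ {g : ℝ | χ2 g = 0} := by
      intro g hg
      have hev : χ1 =ᶠ[𝓝 g] fun _ => 0 := by
        filter_upwards [Ioi_mem_nhds hg] with y hy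
        exact hχ.z1 y (le_trans (le_of_lt hy) (le_abs_self y))
      have h3 := (hχ.dχ1 g).deriv
      rw [hev.deriv_eq] at h3
      simp at h3
      exact h3.symm
    intro g hg
    have h4 : g ∈ closure (Ioi (3 * R)) := by
      rw [closure_Ioi]; exact hg
    exact (hcl.closure_subset_iff.2 hsub) h4
  refine ⟨3 * R, by linarith, χ, χ1, χ2, ⟨hχ.dχ, hχ.dχ1, hχ.cχ2, fun g => ⟨hχ.nn g, hχ.le1 g⟩,
    fun g => (hχ.b1 g).trans hκ, fun g => (hχ.b2 g).trans hκ, fun g hg => ?_⟩, fun g h0 hg => ?_⟩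
  · have : 3 * R ≤ |g| := hg.trans (le_abs_self g)
    exact ⟨hχ.z0 g this, hχ.z1 g this, hz2 g hg⟩
  · exact h1 g (by rw [abs_of_nonneg h0]; exact hg.trans hRB)

/-- the virial inequality for the bounded multiplier -/
theorem virbd_g (repx : RepXStmt) (fld2 : Fld2Stmt) (hn2 : 2 ≤ n) {W : ℝ → ℝ} {U : E n → ℝ}
    {α Vm C : ℝ} (hα : 0 < α) (hC : 0 ≤ C) (hW : Continuous W) (hW0 : ∀ r, 0 ≤ W r)
    (hWm : ∀ x : E n, W ‖x‖ ≤ Vm) (hWi : IntegrableOn (fun r => r * W r) (Ioi 0))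
    (hU : ContDiff ℝ 1 U)
    (hUr : ∀ x, fderiv ℝ U x x ≤ 1 / 2 * ((n - 1) * (n - 3) / (α ^ 2 + ‖x‖ ^ 2)
      + 6 * (n - 3) * α ^ 2 / (α ^ 2 + ‖x‖ ^ 2) ^ 2 + 15 * α ^ 4 / (α ^ 2 + ‖x‖ ^ 2) ^ 3))
    {R ε₀ : ℝ} (hε : 0 < ε₀) :
    ∃ (p : Fin n → E n → ℝ) (KE L : ℝ), 0 ≤ KE ∧ (∀ j, CK (p j)) ∧
      (∀ (x : E n) (a b : ℝ) (a1 b1 : Fin n → E n → ℝ),
        |∑ j, p j x * (a * b1 j x - b * a1 j x)| ≤ 1 * ((a ^ 2 + b ^ 2) + gsq a1 b1 x)) ∧
      VirBd (fun x => W ‖x‖ + U x) C wt ((n - 1) / 2 *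
        (Real.exp (-(2 * ∫ r in Ioi 0, r * W r)) * (max 1 α)⁻¹)) ε₀ R p KE L := by
  have hVm0 : 0 ≤ Vm := (hW0 _).trans (hWm 0)
  have hn1 : 1 ≤ n := by omega
  have hn0 : (2 : ℝ) ≤ n := by exact_mod_cast hn2
  set S := ∫ r in Ioi 0, r * W r with hS
  have hS0 : 0 ≤ S := setIntegral_nonneg measurableSet_Ioi fun r hr =>
    mul_nonneg (le_of_lt hr) (hW0 r)
  set KK := 3 + (n + 5) * α⁻¹ + 4 * (2 * S / α) + Vm + (2 * S / α) ^ 2 + n * α⁻¹ * (2 * S / α)
        + (n + 2) * α⁻¹ ^ 2 with hKK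
  have hKK0 : 0 ≤ KK := by positivity
  set μ := min 1 (ε₀ / (4 * (KK + 1) * (C + 1))) with hμ
  have hμ0 : 0 < μ := by positivity
  set κ := ε₀ * α / (4 * (Vm + 1) * (C + 1)) with hκ
  have hκ0 : 0 < κ := by positivity
  set θ := ε₀ / (4 * (C + 1)) with hθ
  have hθ0 : 0 < θ := by positivity
  obtain ⟨β, hβ, lam, lam1, lam2, hCut, hone⟩ :=
    exists_cutG (μ := μ) (B := max α (√(α ^ 2 + R ^ 2))) hμ0
  have hαβ : α < β := (le_max_left _ _).trans_lt hβ
  obtain ⟨F, Φ, s, f1, f2, f3, f4, f5, f6, f7, f8, f9⟩ := fld2 W hW hW0 hWi α κ β hα hκ0 hαβ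
  have hFld : FieldG W F Φ s α κ β S := ⟨f1, f2, f3, f4, f5, f6, f8, f9⟩
  have cΦ : Continuous Φ := cont_of_d f5.dΦ
  have cs : Continuous s := cont_of_d f5.ds
  have cl : Continuous lam := cont_of_d hCut.d1
  have cl1 : Continuous lam1 := cont_of_d hCut.d2
  obtain ⟨k0, -⟩ := conts (n := n) hα f1 cΦ cs cl cl1 hCut.c2
  obtain ⟨p0, hp0, kp0⟩ : ∃ p0 : E n → ℝ, (∀ x, c0 α Φ lam (hn x) = p0 x) ∧ Continuous p0 :=
    ⟨_, fun _ => rfl, k0⟩
  have hz0 : ∀ x : E n, β < ‖x‖ → c0 α Φ lam (hn x) = 0 := fun x hx =>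
    (zeros (F := F) (Φ := Φ) (s := s) hCut (le_ggx (α := α) hx) (n : ℝ)).1
  have hnn : ∀ x : E n, 0 ≤ c0 α Φ lam (hn x) := fun x =>
    mul_nonneg (mul_nonneg (hCut.nn _).1 (f6 _).1) (inv_nonneg.2 (gg_pos hα (hn_nonneg x)).le)
  set KE := θ⁻¹ * (1 + (n * α⁻¹ + 1 + 2 * (2 * S / α)) ^ 2) with hKE
  refine ⟨fun j x => c0 α Φ lam (hn x) * x j, KE, β, by positivity, fun j => ?_, ?_, ?_⟩
  · refine CK.of_zero (L := β) (by simp only [hp0]; fun_prop) fun x hx => ?_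
    change c0 α Φ lam (hn x) * x j = 0
    rw [hz0 x hx, zero_mul]
  · intro x a b a1 b1
    have e : ∑ j, c0 α Φ lam (hn x) * x j * (a * b1 j x - b * a1 j x) =
        c0 α Φ lam (hn x) * ∑ j, x j * (a * b1 j x - b * a1 j x) := by
      rw [Finset.mul_sum]
      exact Finset.sum_congr rfl fun j _ => by ring
    simp only
    rw [e, abs_mul, abs_of_nonneg (hnn x), one_mul]
    have h1 := cur_bd (a := a) (b := b) a1 b1 x (le_refl (hn x))
    rw [sqrt_hn] at h1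
    have hρG : 0 ≤ (a ^ 2 + b ^ 2) + gsq a1 b1 x := by
      have := gsq_nonneg a1 b1 x
      positivity
    have h2 : c0 α Φ lam (hn x) * ‖x‖ ≤ 1 := by
      have g0 := gg_pos hα (hn_nonneg x)
      have h3 : mm Φ lam (gg α (hn x)) ≤ 1 :=
        mul_le_one₀ (hCut.nn _).2 (f6 _).1 (f6 _).2
      have h4 : (gg α (hn x))⁻¹ * ‖x‖ ≤ 1 := by
        rw [inv_mul_le_iff₀ g0, mul_one]; exact norm_le_gg x
      have h5 : 0 ≤ (gg α (hn x))⁻¹ * ‖x‖ := by positivity
      unfold c0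
      rw [mul_assoc]
      exact mul_le_one₀ h3 h5 h4
    calc c0 α Φ lam (hn x) * |∑ j, x j * (a * b1 j x - b * a1 j x)|
        ≤ c0 α Φ lam (hn x) * (‖x‖ * ((a ^ 2 + b ^ 2) + gsq a1 b1 x)) :=
          mul_le_mul_of_nonneg_left h1 (hnn x)
      _ = (c0 α Φ lam (hn x) * ‖x‖) * ((a ^ 2 + b ^ 2) + gsq a1 b1 x) := by ring
      _ ≤ 1 * ((a ^ 2 + b ^ 2) + gsq a1 b1 x) := by gcongr
      _ = _ := one_mul _
  · intro a b v1 v2 e1 e2 a1 b1 w1 w2 a2 b2 hSn iρ iG iρ2 hb1 hb2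
    have hv := vir_ineq alg2 virx repx hn1 hα hκ0 hθ0 hαβ hCut hFld hW hW0 hWm hU hUr hSn iρ iG
      iρ2
    have ca := hSn.ca
    have cb := hSn.cb
    have ce1 := hSn.ce1
    have ce2 := hSn.ce2
    refine le_trans ?_ hv
    -- the quartic term
    have iq : Integrable fun x : E n => c0 α Φ lam (hn x) * (a x ^ 2 + b x ^ 2) ^ 2 :=
      CK.int (CK.of_zero (L := β) (by simp only [hp0]; fun_prop) fun x hx => by
        rw [hz0 x hx, zero_mul])
    have hquart : (Real.exp (-(2 * S)) * (max 1 α)⁻¹) *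
        (∫ x in Metric.closedBall (0 : E n) R, wt x * (a x ^ 2 + b x ^ 2) ^ 2) ≤
        ∫ x, c0 α Φ lam (hn x) * (a x ^ 2 + b x ^ 2) ^ 2 := by
      have cw := wt_cont (n := n)
      rw [← integral_const_mul]
      calc ∫ x in Metric.closedBall (0 : E n) R, (Real.exp (-(2 * S)) * (max 1 α)⁻¹) *
            (wt x * (a x ^ 2 + b x ^ 2) ^ 2)
          ≤ ∫ x in Metric.closedBall (0 : E n) R, c0 α Φ lam (hn x) * (a x ^ 2 + b x ^ 2) ^ 2 := by
            refine setIntegral_mono_on ?_ iq.integrableOn measurableSet_closedBall fun x hx => ?_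
            · exact (by fun_prop : Continuous fun x => (Real.exp (-(2 * S)) * (max 1 α)⁻¹) *
                (wt x * (a x ^ 2 + b x ^ 2) ^ 2)).continuousOn.integrableOn_compact
                (isCompact_closedBall _ _)
            · rw [Metric.mem_closedBall, dist_zero_right] at hx
              have hgR : gg α (hn x) ≤ max α (√(α ^ 2 + R ^ 2)) := by
                refine le_trans ?_ (le_max_right _ _)
                unfold gg hn
                refine Real.sqrt_le_sqrt ?_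
                have : ‖x‖ ^ 2 ≤ R ^ 2 := by gcongr
                linarith
              have hg0 := gg_pos hα (hn_nonneg x)
              have hgα := le_gg hα (hn_nonneg x)
              have h1 : lam (gg α (hn x)) = 1 := hone _ hg0.le hgR
              have h2 := f7 (gg α (hn x)) hgα (hgR.trans hβ.le)
              have h3 := wt_gg hα x
              have h4 := wt_pos x
              have h5 : (Real.exp (-(2 * S)) * (max 1 α)⁻¹) * wt x ≤ c0 α Φ lam (hn x) := by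
                unfold c0 mm
                rw [h1, one_mul, mul_assoc]
                exact mul_le_mul h2 h3 (by positivity) ((Real.exp_pos _).le.trans h2)
              rw [← mul_assoc]
              exact mul_le_mul_of_nonneg_right h5 (by positivity)
        _ ≤ _ := setIntegral_le_integral iq (ae_of_all _ fun x =>
            mul_nonneg (hnn x) (by positivity))
    have hq2 : (n - 1) / 2 * (Real.exp (-(2 * S)) * (max 1 α)⁻¹) *
        (∫ x in Metric.closedBall (0 : E n) R, wt x * (a x ^ 2 + b x ^ 2) ^ 2) ≤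
        (n - 1) / 2 * ∫ x, c0 α Φ lam (hn x) * (a x ^ 2 + b x ^ 2) ^ 2 := by
      rw [mul_assoc]
      exact mul_le_mul_of_nonneg_left hquart (by linarith)
    -- the errors
    set I1 := (∫ x, (a x ^ 2 + b x ^ 2)) + ∫ x, gsq a1 b1 x with hI1
    set I2 := ∫ x, (a x ^ 2 + b x ^ 2) ^ 2 with hI2
    set I3 := ∫ x in Metric.closedBall (0 : E n) β, (e1 x ^ 2 + e2 x ^ 2) with hI3
    have hI30 : 0 ≤ I3 := integral_nonneg fun x => by positivity
    have hμ1 : μ ≤ 1 := min_le_left _ _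
    have hμ2 : μ ≤ ε₀ / (4 * (KK + 1) * (C + 1)) := min_le_right _ _
    have w0 : μ * (4 * (KK + 1) * (C + 1)) ≤ ε₀ := by
      rw [le_div_iff₀ (by positivity)] at hμ2; exact hμ2
    have w1 : KK * μ * I1 ≤ ε₀ / 4 := by
      have : KK * μ * I1 ≤ KK * μ * C := by gcongr
      have h2 : 0 ≤ μ * (KK + C + 1) := by positivity
      nlinarith
    have w2 : μ / 2 * I2 ≤ ε₀ / 8 := by
      have : μ / 2 * I2 ≤ μ / 2 * C := by gcongr
      have h2 : 0 ≤ μ * (KK * C + KK + 1) := by positivity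
      nlinarith
    have w3 : Vm * (κ / α) * I1 ≤ ε₀ / 4 := by
      have h1 : Vm * (κ / α) * I1 ≤ Vm * (κ / α) * C := by gcongr
      have h2 : κ / α * (4 * (Vm + 1) * (C + 1)) = ε₀ := by
        rw [hκ]; field_simp
      have h3 : 0 ≤ κ / α * (Vm + C + 1) := by positivity
      nlinarith
    have w4 : θ * I1 ≤ ε₀ / 4 := by
      have h1 : θ * I1 ≤ θ * C := by gcongr
      have h2 : θ * (4 * (C + 1)) = ε₀ := by rw [hθ]; field_simp
      nlinarith
    have w5 : θ⁻¹ * (1 + (n * α⁻¹ + μ + 2 * (2 * S / α)) ^ 2) * I3 ≤ KE * I3 := by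
      rw [hKE]; gcongr
    have e5 : (KK * μ + Vm * (κ / α) + θ) * I1 = KK * μ * I1 + Vm * (κ / α) * I1 + θ * I1 := by
      ring
    rw [e5]
    linarith

section

variable {ψ : ℝ → E n → ℂ} {ψ' : ℝ → Fin n → E n → ℂ} {C : ℝ}

/-- The Morawetz estimate. -/
theorem morawetz (repx : RepXStmt) (fld2 : Fld2Stmt) (hn2 : 2 ≤ n) {W : ℝ → ℝ} {U : E n → ℝ}
    {α Vm Um : ℝ} (hα : 0 < α) (hW : Continuous W) (hW0 : ∀ r, 0 ≤ W r)
    (hWm : ∀ x : E n, W ‖x‖ ≤ Vm) (hWi : IntegrableOn (fun r => r * W r) (Ioi 0))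
    (hU : ContDiff ℝ 1 U) (hUm : ∀ x, |U x| ≤ Um)
    (hUr : ∀ x, fderiv ℝ U x x ≤ 1 / 2 * ((n - 1) * (n - 3) / (α ^ 2 + ‖x‖ ^ 2)
      + 6 * (n - 3) * α ^ 2 / (α ^ 2 + ‖x‖ ^ 2) ^ 2 + 15 * α ^ 4 / (α ^ 2 + ‖x‖ ^ 2) ^ 3))
    (h : SolN (fun x => W ‖x‖ + U x) ψ ψ' C) :
    (Continuous fun t => ∫ x, wt x * ‖ψ t x‖ ^ 4) ∧
    ∃ K : ℝ, ∀ T : ℝ, 0 ≤ T → ∫ t in (-T)..T, ∫ x, wt x * ‖ψ t x‖ ^ 4 ≤ K := by
  have hC := h.C0
  have cV : Continuous fun x : E n => W ‖x‖ + U x := (hW.comp continuous_norm).add hU.continuous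
  have hVb : ∀ x : E n, |W ‖x‖ + U x| ≤ Vm + Um := fun x => by
    refine (abs_add_le _ _).trans (add_le_add ?_ (hUm x))
    rw [abs_of_nonneg (hW0 _)]; exact hWm x
  have hn0 : (2 : ℝ) ≤ n := by exact_mod_cast hn2
  set c := (n - 1) / 2 * (Real.exp (-(2 * ∫ r in Ioi 0, r * W r)) * (max 1 α)⁻¹) with hc
  have hc0 : 0 < c := by
    have h1 : (0 : ℝ) < (n - 1) / 2 := by linarith
    have h2 : (0 : ℝ) < max 1 α := lt_max_of_lt_left one_pos
    positivity
  have := mora con6 q4 n ψ C (fun t => (h.h1 t).mem) h.l6 h.mass h.bd6 h.c2 h.c6 wt wt_cont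
    (fun x => ⟨(wt_pos x).le, wt_le x⟩) wt_mul (C / c) fun R T η hR hT hη => ?_
  · exact ⟨this.1, _, this.2⟩
  · obtain ⟨p, KE, L, hKE, hp, hpQ, hvb⟩ := virbd_g (C := C) repx fld2 hn2 hα hC hW hW0 hWm hWi
      hU hUr (R := R) (ε₀ := c / (2 * T)) (by positivity)
    rw [← hc] at hvb
    obtain ⟨k, ε, hk, hk2⟩ := func cV hVb h hKE hp hvb (T := T) (η := η) (δ := c / (2 * T)) hη
      (by positivity)
    refine ⟨k, ε, fun t => Mf k p ψ ψ' t / c, fun t => Mf' (fun x => W ‖x‖ + U x) k p ψ ψ' t / c,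
      hk, fun t ht => ⟨?_, ?_, (hk2 t ht).1, ?_⟩⟩
    · rw [abs_div, abs_of_pos hc0]
      have := Mf_bd cV hVb h hk hp zero_le_one hpQ t
      gcongr
      linarith
    · exact (Mf_d cV hVb h hk.ker hp t).div_const c
    · have h2 := (hk2 t ht).2
      have e : c / (2 * T) + c / (2 * T) = c * (1 / T) := by field_simp; ring
      have h3 : c * (∫ x in Metric.closedBall (0 : E n) R, wt x * ‖mo k (ψ t) x‖ ^ 4) ≤
          c * (Mf' (fun x => W ‖x‖ + U x) k p ψ ψ' t / c + 1 / T) := by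
        rw [mul_add, mul_div_cancel₀ _ hc0.ne', ← e]
        linarith
      exact le_of_mul_le_mul_left h3 hc0

/-- local decay from the Morawetz estimate -/
theorem local_decay {V : E n → ℝ} {Vm : ℝ} (cV : Continuous V) (hVb : ∀ x, |V x| ≤ Vm)
    (h : SolN V ψ ψ' C) (hq : Continuous fun t => ∫ x, wt x * ‖ψ t x‖ ^ 4) {K : ℝ}
    (hK : ∀ T : ℝ, 0 ≤ T → ∫ t in (-T)..T, ∫ x, wt x * ‖ψ t x‖ ^ 4 ≤ K) (R : ℝ) :
    Tendsto (fun t => ∫ x in Metric.closedBall (0 : E n) R, ‖ψ t x‖ ^ 2) atTop (𝓝 0) ∧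
    Tendsto (fun t => ∫ x in Metric.closedBall (0 : E n) R, ‖ψ t x‖ ^ 2) atBot (𝓝 0) := by
  obtain ⟨p, K1, L, cp, hp01, hp1, hpL, hlip⟩ := lip n V Vm cV hVb ψ ψ' C h R
  have i2 : ∀ t, Integrable fun x => ‖ψ t x‖ ^ 2 := fun t =>
    (h.h1 t).mem.integrable_norm_pow (by norm_num)
  have i6 : ∀ t, Integrable fun x => ‖ψ t x‖ ^ 6 := fun t =>
    (h.l6 t).integrable_norm_pow (by norm_num)
  have i4 : ∀ t, Integrable fun x => wt x * ‖ψ t x‖ ^ 4 := fun t =>
    (q4 n (ψ t) (ψ t) wt univ 1 one_pos MeasurableSet.univ wt_cont.measurable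
      (fun x => ⟨(wt_pos x).le, wt_le x⟩) (h.h1 t).mem.1 (h.h1 t).mem.1 (i2 t) (i2 t) (i6 t)
      (i6 t)).1
  have ip : ∀ t, Integrable fun x => p x * ‖ψ t x‖ ^ 2 := fun t => by
    refine (i2 t).bdd_mul (c := 1) cp.aestronglyMeasurable (ae_of_all _ fun x => ?_)
    rw [Real.norm_eq_abs, abs_of_nonneg (hp01 x).1]; exact (hp01 x).2
  set F : ℝ → ℝ := fun t => ∫ x, p x * ‖ψ t x‖ ^ 2 with hF
  have hF0 : ∀ t, 0 ≤ F t := fun t => integral_nonneg fun x =>
    mul_nonneg (hp01 x).1 (by positivity)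
  -- the square of the local mass
  set L' := max L 1 with hL'
  have hL'0 : 0 < L' := lt_max_of_lt_right one_pos
  set vol := volume.real (Metric.closedBall (0 : E n) L') with hvol
  have hvol0 : 0 < vol := ball_vol hL'0
  set D := vol * √(1 + L' ^ 2) with hD
  have hD0 : 0 < D := by positivity
  have hsq : ∀ t, F t ^ 2 ≤ D * ∫ x, wt x * ‖ψ t x‖ ^ 4 := by
    intro t
    -- for every `l > 0`: `2 l F - l² vol ≤ ∫_B |ψ|⁴`
    set B := Metric.closedBall (0 : E n) L' with hB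
    have hBc : IsCompact B := isCompact_closedBall _ _
    have iB : IntegrableOn (fun _ : E n => (1 : ℝ)) B :=
      continuous_const.continuousOn.integrableOn_compact hBc
    have hkey : ∀ l : ℝ, 2 * l * F t - l ^ 2 * vol ≤
        √(1 + L' ^ 2) * ∫ x, wt x * ‖ψ t x‖ ^ 4 := by
      intro l
      have e1 : 2 * l * F t - l ^ 2 * vol =
          ∫ x, (2 * l * (p x * ‖ψ t x‖ ^ 2) - l ^ 2 * B.indicator (fun _ => (1 : ℝ)) x) := by
        rw [integral_sub ((ip t).const_mul _)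
          ((iB.integrable_indicator hBc.measurableSet).const_mul _), integral_const_mul,
          integral_const_mul, integral_indicator hBc.measurableSet, setIntegral_const,
          smul_eq_mul, mul_one]
      rw [e1, ← integral_const_mul]
      refine integral_mono (((ip t).const_mul _).sub
        ((iB.integrable_indicator hBc.measurableSet).const_mul _)) ((i4 t).const_mul _)
        fun x => ?_
      simp only
      by_cases hx : x ∈ B
      · rw [indicator_of_mem hx, mul_one]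
        rw [hB, Metric.mem_closedBall, dist_zero_right] at hx
        have h1 : 1 ≤ √(1 + L' ^ 2) * wt x := by
          unfold wt
          rw [← div_eq_mul_inv, one_le_div (sq_pos x)]
          exact Real.sqrt_le_sqrt (by gcongr)
        have h2 : ‖ψ t x‖ ^ 4 ≤ √(1 + L' ^ 2) * (wt x * ‖ψ t x‖ ^ 4) := by
          rw [← mul_assoc]
          exact le_mul_of_one_le_left (by positivity) h1
        have h3 : 2 * l * (p x * ‖ψ t x‖ ^ 2) - l ^ 2 ≤ (p x * ‖ψ t x‖ ^ 2) ^ 2 := by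
          nlinarith [sq_nonneg (p x * ‖ψ t x‖ ^ 2 - l)]
        have h4 : (p x * ‖ψ t x‖ ^ 2) ^ 2 ≤ (1 * ‖ψ t x‖ ^ 2) ^ 2 := by
          have := hp01 x
          have := this.1
          gcongr
          exact (hp01 x).2
        have h5 : (1 * ‖ψ t x‖ ^ 2) ^ 2 = ‖ψ t x‖ ^ 4 := by ring
        linarith
      · rw [indicator_of_notMem hx]
        have hxL : L < ‖x‖ := by
          rw [hB, Metric.mem_closedBall, dist_zero_right, not_le] at hx
          exact (le_max_left _ _).trans_lt hx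
        rw [hpL x hxL]
        have := wt_pos x
        have : 0 ≤ √(1 + L' ^ 2) * (wt x * ‖ψ t x‖ ^ 4) := by positivity
        simpa using this
    have h1 := hkey (F t / vol)
    have e2 : 2 * (F t / vol) * F t - (F t / vol) ^ 2 * vol = F t ^ 2 / vol := by
      field_simp; ring
    rw [e2, div_le_iff₀ hvol0] at h1
    rw [hD]
    linarith
  have cF : Continuous F := by
    refine continuous_iff_continuousAt.2 fun s => ?_
    rw [ContinuousAt, tendsto_iff_dist_tendsto_zero]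
    have h0 : Tendsto (fun t : ℝ => K1 * |t - s|) (𝓝 s) (𝓝 0) := by
      have : Continuous fun t : ℝ => K1 * |t - s| := by fun_prop
      simpa using this.tendsto s
    refine squeeze_zero (fun t => dist_nonneg) (fun t => ?_) h0
    rw [Real.dist_eq]
    exact hlip s t
  obtain ⟨d1, d2⟩ := dec F K1 (D * K) hF0 (fun s t => hlip s t) fun T hT => by
    calc ∫ t in (-T)..T, F t ^ 2 ≤ ∫ t in (-T)..T, D * ∫ x, wt x * ‖ψ t x‖ ^ 4 := by
          refine intervalIntegral.integral_mono_on (by linarith)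
            ((cF.pow 2).intervalIntegrable _ _) ((hq.const_mul D).intervalIntegrable _ _)
            fun t _ => hsq t
      _ = D * ∫ t in (-T)..T, ∫ x, wt x * ‖ψ t x‖ ^ 4 :=
          intervalIntegral.integral_const_mul _ _
      _ ≤ D * K := mul_le_mul_of_nonneg_left (hK T hT) hD0.le
  have hle : ∀ t, ∫ x in Metric.closedBall (0 : E n) R, ‖ψ t x‖ ^ 2 ≤ F t := by
    intro t
    calc ∫ x in Metric.closedBall (0 : E n) R, ‖ψ t x‖ ^ 2
        = ∫ x in Metric.closedBall (0 : E n) R, p x * ‖ψ t x‖ ^ 2 := by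
          refine setIntegral_congr_fun measurableSet_closedBall fun x hx => ?_
          rw [Metric.mem_closedBall, dist_zero_right] at hx
          simp only [hp1 x hx, one_mul]
      _ ≤ _ := setIntegral_le_integral (ip t) (ae_of_all _ fun x =>
          mul_nonneg (hp01 x).1 (by positivity))
  exact ⟨squeeze_zero (fun t => integral_nonneg fun x => by positivity) hle d1,
    squeeze_zero (fun t => integral_nonneg fun x => by positivity) hle d2⟩

end

end

end Pool.Agent.Lib_helper40.NLM
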