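import Pool.Agent.Lib_helper40.NLM.Stmts

/-!
# The one-dimensional local Morawetz estimate
-/

namespace Pool.Agent.Lib_helper40.NLM

open MeasureTheory Set Filter Topology intervalIntegral
open Pool.Agent.Lib_helper40.NLV

noncomputable section

/-- the fourth power is Lipschitz on bounded sets -/
lemma pow4_close {a b B ω : ℝ} (ha : 0 ≤ a) (hb : 0 ≤ b) (haB : a ≤ B) (hbB : b ≤ B)
    (h : |a - b| ≤ ω) : b ^ 4 ≤ a ^ 4 + 4 * B ^ 3 * ω := by
  have hB : 0 ≤ B := ha.trans haB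
  have h1 : b ^ 4 - a ^ 4 = (b - a) * ((b ^ 2 + a ^ 2) * (b + a)) := by ring
  have h2 : b - a ≤ |a - b| := by rw [abs_sub_comm]; exact le_abs_self _
  have h3 : (b ^ 2 + a ^ 2) * (b + a) ≤ (B ^ 2 + B ^ 2) * (B + B) := by gcongr
  have h4 : (b - a) * ((b ^ 2 + a ^ 2) * (b + a)) ≤ |a - b| * ((b ^ 2 + a ^ 2) * (b + a)) :=
    mul_le_mul_of_nonneg_right h2 (by positivity)
  have h5 : |a - b| * ((b ^ 2 + a ^ 2) * (b + a)) ≤ ω * ((B ^ 2 + B ^ 2) * (B + B)) :=
    mul_le_mul h h3 (by positivity) ((abs_nonneg _).trans h)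
  have h6 : ω * ((B ^ 2 + B ^ 2) * (B + B)) = 4 * B ^ 3 * ω := by ring
  linarith

/-- bound of the virial functional -/
lemma func_bound {U U1 : ℝ → ℂ} (cU : Continuous U) (cU1 : Continuous U1) {p : ℝ → ℝ}
    (_hp : Continuous p) (hp1 : ∀ x, |p x| ≤ 1) {L C : ℝ} (hL : 0 ≤ L)
    (h0 : ∫ x in (-L)..L, ((U x).re ^ 2 + (U x).im ^ 2) ≤ C)
    (h1 : ∫ x in (-L)..L, ((U1 x).re ^ 2 + (U1 x).im ^ 2) ≤ C) :
    |∫ x in (-L)..L, p x * ((U x).re * (U1 x).im - (U x).im * (U1 x).re)| ≤ C := by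
  have c1 : Continuous fun x => (U x).re := Complex.continuous_re.comp cU
  have c2 : Continuous fun x => (U x).im := Complex.continuous_im.comp cU
  have c3 : Continuous fun x => (U1 x).re := Complex.continuous_re.comp cU1
  have c4 : Continuous fun x => (U1 x).im := Complex.continuous_im.comp cU1
  have hLL : -L ≤ L := by linarith
  have h2 : |∫ x in (-L)..L, p x * ((U x).re * (U1 x).im - (U x).im * (U1 x).re)| ≤
      ∫ x in (-L)..L, (1 / 2 * ((U x).re ^ 2 + (U x).im ^ 2)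
        + 1 / 2 * ((U1 x).re ^ 2 + (U1 x).im ^ 2)) := by
    rw [← Real.norm_eq_abs]
    refine intervalIntegral.norm_integral_le_of_norm_le hLL (ae_of_all _ fun x _ => ?_)
      ((by fun_prop : Continuous fun x => (1 / 2 * ((U x).re ^ 2 + (U x).im ^ 2)
        + 1 / 2 * ((U1 x).re ^ 2 + (U1 x).im ^ 2))).intervalIntegrable _ _)
    rw [Real.norm_eq_abs, abs_mul]
    have h3 : |(U x).re * (U1 x).im - (U x).im * (U1 x).re| ≤
        1 / 2 * ((U x).re ^ 2 + (U x).im ^ 2) + 1 / 2 * ((U1 x).re ^ 2 + (U1 x).im ^ 2) := by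
      rw [abs_le]
      constructor
      · nlinarith [sq_nonneg ((U x).re + (U1 x).im), sq_nonneg ((U x).im - (U1 x).re)]
      · nlinarith [sq_nonneg ((U x).re - (U1 x).im), sq_nonneg ((U x).im + (U1 x).re)]
    calc |p x| * |(U x).re * (U1 x).im - (U x).im * (U1 x).re|
        ≤ 1 * (1 / 2 * ((U x).re ^ 2 + (U x).im ^ 2)
          + 1 / 2 * ((U1 x).re ^ 2 + (U1 x).im ^ 2)) :=
          mul_le_mul (hp1 x) h3 (abs_nonneg _) zero_le_one
      _ = _ := one_mul _
  refine h2.trans ?_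
  rw [intervalIntegral.integral_add
    ((by fun_prop : Continuous fun x => 1 / 2 * ((U x).re ^ 2 + (U x).im ^ 2)).intervalIntegrable
      _ _)
    ((by fun_prop : Continuous fun x =>
      1 / 2 * ((U1 x).re ^ 2 + (U1 x).im ^ 2)).intervalIntegrable _ _),
    intervalIntegral.integral_const_mul, intervalIntegral.integral_const_mul]
  linarith

/-- the one-dimensional local Morawetz estimate -/
theorem one : OneStmt := by
  intro V ψ ψ' C Vm hV hVm hV0 hVne hVi h R₀ hR₀
  have hC := h.C0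
  have hVm0 : 0 ≤ Vm := (abs_nonneg _).trans (hVm 0)
  set A := ∫ y, (1 + |y|) * V y with hA
  have hA0 : 0 ≤ A := integral_nonneg fun y => by have := hV0 y; positivity
  set B := 2 * (1 + C) with hB
  have hB0 : 0 < B := by positivity
  obtain ⟨D, hD, hcut⟩ := exists_cut
  -- mass of the potential
  obtain ⟨x₀, hx₀⟩ := hVne
  have hx₀' : 0 < V x₀ := lt_of_le_of_ne (hV0 x₀) (Ne.symm hx₀)
  set L₀ := |x₀| + 1 with hL₀
  set v₀ := ∫ y in (-L₀)..L₀, V y with hv₀
  have hv₀pos : 0 < v₀ := by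
    refine intervalIntegral.integral_pos (by have := abs_nonneg x₀; linarith) hV.continuousOn
      (fun x _ => hV0 x) ⟨x₀, ⟨?_, ?_⟩, hx₀'⟩
    · have := neg_abs_le x₀; linarith
    · have := le_abs_self x₀; linarith
  set c₀ := v₀ * Real.exp (-(3 * (1 + R₀) * A)) with hc₀
  have hc₀pos : 0 < c₀ := by positivity
  refine ⟨(4 * C + 10) / c₀, fun T hT => ?_⟩
  have hK0 : 0 ≤ (4 * C + 10) / c₀ := by positivity
  -- the trivial case of a non integrable function
  by_cases hint : IntervalIntegrable (fun t => ∫ x in (-R₀)..R₀, ‖ψ t x‖ ^ 4) volume (-T) T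
  swap
  · rw [intervalIntegral.integral_undef hint]
    exact hK0
  set c₁ := 1 / (T + 1) with hc₁
  have hT1 : 0 < T + 1 := by linarith
  have hc₁pos : 0 < c₁ := by positivity
  set K1 := (A ^ 2 + 4 * A + 4 + B ^ 2) * C + B ^ 2 * A with hK1
  have hK10 : 0 ≤ K1 := by positivity
  set R := max (max 1 (max R₀ L₀)) (max D (D * K1 / c₁)) with hR
  have hR1 : 1 ≤ R := (le_max_left _ _).trans (le_max_left _ _)
  have hRR₀ : R₀ ≤ R := (le_max_left _ _).trans ((le_max_right _ _).trans (le_max_left _ _))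
  have hRL₀ : L₀ ≤ R := (le_max_right _ _).trans ((le_max_right _ _).trans (le_max_left _ _))
  have hRD : D ≤ R := (le_max_left _ _).trans (le_max_right _ _)
  have hRK : D * K1 / c₁ ≤ R := (le_max_right _ _).trans (le_max_right _ _)
  have hR0 : 0 < R := by linarith
  obtain ⟨χ, χ1, χ2, hχ, hχR⟩ := hcut R hR1
  set κ := D / R with hκ
  have hκ1 : κ ≤ 1 := by rw [hκ, div_le_one hR0]; exact hRD
  have hκK : κ * K1 ≤ c₁ := by
    rw [div_le_iff₀ hc₁pos] at hRK
    rw [hκ, div_mul_eq_mul_div, div_le_iff₀ hR0]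
    linarith
  set L := 3 * R with hL
  have hL0 : 0 ≤ L := by positivity
  have hLR : R ≤ L := by linarith
  set K2 := (2 * A + 3) * (2 * L + C) with hK2
  have hK20 : 0 ≤ K2 := by positivity
  set ω := min (c₁ / (K2 + 1)) (c₁ / (c₀ * (2 * R₀) * (4 * B ^ 3) + 1)) with hω
  have hω0 : 0 < ω := by positivity
  obtain ⟨ε, ν, hε, hν, he, hθ⟩ := choose_eps hV hVm0 hC L hω0
  obtain ⟨k, hk⟩ := exists_avg hε
  obtain ⟨Φ, s, Φ', s', F1, F2, f1, f2, f3, f4, f5, f6, f7⟩ := exists_fields hV hV0 hVi L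
  have cχ : Continuous χ := cont_of_deriv hχ.dχ
  have cΦ : Continuous Φ := cont_of_deriv F1.dΦ
  have cΦ' : Continuous Φ' := cont_of_deriv F2.dΦ
  have cs : Continuous s := cont_of_deriv F1.ds
  have cs' : Continuous s' := cont_of_deriv F2.ds
  have hχ1 : ∀ x, |χ x| ≤ 1 := fun x => by rw [abs_of_nonneg (hχ.nn x)]; exact hχ.le1 x
  have hp1 : ∀ x, |Φ x * χ x| ≤ 1 := fun x => by
    rw [abs_mul]; exact mul_le_one₀ (f1 x) (abs_nonneg _) (hχ1 x)
  have hp2 : ∀ x, |Φ' x * χ x| ≤ 1 := fun x => by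
    rw [abs_mul]; exact mul_le_one₀ (f2 x) (abs_nonneg _) (hχ1 x)
  have d1 := fun t => virial_time hV hVm h hk.ker (p := fun x => Φ x * χ x)
    (by fun_prop) hp1 L t
  have d2 := fun t => virial_time hV hVm h hk.ker (p := fun x => Φ' x * χ x)
    (by fun_prop) hp2 L t
  -- bounds for the virial inequality
  have hAL : ∫ x in (-L)..L, V x ≤ A := by
    have hi : Integrable V := by
      refine hVi.mono' hV.aestronglyMeasurable (ae_of_all _ fun y => ?_)
      rw [Real.norm_eq_abs, abs_of_nonneg (hV0 y)]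
      have := hV0 y; have := abs_nonneg y; nlinarith
    calc ∫ x in (-L)..L, V x ≤ ∫ x, V x := by
          rw [intervalIntegral.integral_of_le (by linarith)]
          exact setIntegral_le_integral hi (ae_of_all _ hV0)
      _ ≤ A := integral_mono hi hVi fun y => by
          have := hV0 y; have := abs_nonneg y; simp only; nlinarith
  have hBt : ∀ t x, (mo k (ψ t) x).re ^ 2 + (mo k (ψ t) x).im ^ 2 ≤ B ^ 2 := fun t x => by
    rw [sq_re_im]
    have := (err_bound hV hVm h hk hν t x).2.1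
    have := norm_nonneg (mo k (ψ t) x)
    gcongr
  have he1 := fun t x (hx : |x| ≤ L) => (Complex.abs_re_le_norm _).trans
    (((err_bound hV hVm h hk hν t x).2.2 hx).trans he)
  have he2 := fun t x (hx : |x| ≤ L) => (Complex.abs_im_le_norm _).trans
    (((err_bound hV hVm h hk hν t x).2.2 hx).trans he)
  have v1 := fun t => virial_ineq hV hV0 F1 hχ (snap hV h hk.ker t) hL0 hκ1 hA0 hω0.le f1 f3 f5
    (hBt t) (he1 t) (he2 t) (int_le hk (h.h1 t).mem (h.bd t) hL0)
    (int_le hk (h.h1 t).mem' (h.bd' t) hL0) hAL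
  have v2 := fun t => virial_ineq hV hV0 F2 hχ (snap hV h hk.ker t) hL0 hκ1 hA0 hω0.le f2 f4 f6
    (hBt t) (he1 t) (he2 t) (int_le hk (h.h1 t).mem (h.bd t) hL0)
    (int_le hk (h.h1 t).mem' (h.bd' t) hL0) hAL
  -- lower bound of the quartic terms
  have hq : ∀ t, c₀ * (∫ x in (-R₀)..R₀, ‖ψ t x‖ ^ 4) - c₁ ≤
      (∫ x in (-L)..L, -(s x * Φ x) * χ x *
        ((mo k (ψ t) x).re ^ 2 + (mo k (ψ t) x).im ^ 2) ^ 2) +
      ∫ x in (-L)..L, -(s' x * Φ' x) * χ x *
        ((mo k (ψ t) x).re ^ 2 + (mo k (ψ t) x).im ^ 2) ^ 2 := by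
    intro t
    simp only [sq_re_im]
    have cU : Continuous (mo k (ψ t)) := mo_cont hk.ker (h.h1 t).cont.locallyIntegrable
    have cψ := (h.h1 t).cont
    rw [← intervalIntegral.integral_add ((by fun_prop : Continuous fun x =>
      -(s x * Φ x) * χ x * (‖mo k (ψ t) x‖ ^ 2) ^ 2).intervalIntegrable _ _)
      ((by fun_prop : Continuous fun x =>
      -(s' x * Φ' x) * χ x * (‖mo k (ψ t) x‖ ^ 2) ^ 2).intervalIntegrable _ _)]
    have l1 : (∫ x in (-R₀)..R₀, ‖ψ t x‖ ^ 4) - 2 * R₀ * (4 * B ^ 3 * ω) ≤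
        ∫ x in (-R₀)..R₀, (‖mo k (ψ t) x‖ ^ 2) ^ 2 := by
      have a0 : ∫ x in (-R₀)..R₀, (‖ψ t x‖ ^ 4 - 4 * B ^ 3 * ω) ≤
          ∫ x in (-R₀)..R₀, (‖mo k (ψ t) x‖ ^ 2) ^ 2 := by
        refine intervalIntegral.integral_mono_on (by linarith)
          ((by fun_prop : Continuous fun x => ‖ψ t x‖ ^ 4 - 4 * B ^ 3 * ω).intervalIntegrable _ _)
          ((by fun_prop : Continuous fun x => (‖mo k (ψ t) x‖ ^ 2) ^ 2).intervalIntegrable _ _)
          fun x _ => ?_
        obtain ⟨a1, a2, -⟩ := err_bound hV hVm h hk hν t x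
        have a3 := h.sup t x
        have a4 : |‖mo k (ψ t) x‖ - ‖ψ t x‖| ≤ ω :=
          (abs_norm_sub_norm_le _ _).trans (a1.trans hθ)
        have a5 := pow4_close (norm_nonneg _) (norm_nonneg _) a2 a3 a4
        have a6 : (‖mo k (ψ t) x‖ ^ 2) ^ 2 = ‖mo k (ψ t) x‖ ^ 4 := by ring
        rw [a6]
        linarith
      rw [intervalIntegral.integral_sub ((by fun_prop : Continuous fun x =>
        ‖ψ t x‖ ^ 4).intervalIntegrable _ _) (by simp), intervalIntegral.integral_const,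
        smul_eq_mul] at a0
      have e : (R₀ - -R₀) = 2 * R₀ := by ring
      rw [e] at a0
      exact a0
    have l2 : c₀ * (2 * R₀ * (4 * B ^ 3 * ω)) ≤ c₁ := by
      have hqq : 0 ≤ c₀ * (2 * R₀) * (4 * B ^ 3) := by positivity
      have : ω ≤ c₁ / (c₀ * (2 * R₀) * (4 * B ^ 3) + 1) := min_le_right _ _
      rw [le_div_iff₀ (by positivity)] at this
      nlinarith
    calc c₀ * (∫ x in (-R₀)..R₀, ‖ψ t x‖ ^ 4) - c₁
        ≤ c₀ * ((∫ x in (-R₀)..R₀, ‖ψ t x‖ ^ 4) - 2 * R₀ * (4 * B ^ 3 * ω)) := by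
          rw [mul_sub]; linarith
      _ ≤ c₀ * ∫ x in (-R₀)..R₀, (‖mo k (ψ t) x‖ ^ 2) ^ 2 := by gcongr
      _ = ∫ x in (-R₀)..R₀, c₀ * (‖mo k (ψ t) x‖ ^ 2) ^ 2 := by
          rw [intervalIntegral.integral_const_mul]
      _ ≤ ∫ x in (-R₀)..R₀, (-(s x * Φ x) * χ x * (‖mo k (ψ t) x‖ ^ 2) ^ 2 +
            -(s' x * Φ' x) * χ x * (‖mo k (ψ t) x‖ ^ 2) ^ 2) := by
          refine intervalIntegral.integral_mono_on (by linarith)
            ((by fun_prop : Continuous fun x =>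
              c₀ * (‖mo k (ψ t) x‖ ^ 2) ^ 2).intervalIntegrable _ _)
            ((by fun_prop : Continuous fun x => (-(s x * Φ x) * χ x * (‖mo k (ψ t) x‖ ^ 2) ^ 2 +
              -(s' x * Φ' x) * χ x * (‖mo k (ψ t) x‖ ^ 2) ^ 2)).intervalIntegrable _ _)
            fun x hx => ?_
          have hxR : |x| ≤ R₀ := abs_le.2 hx
          have g1 := f7 x (hxR.trans (hRR₀.trans hLR))
          have g2 : v₀ ≤ ∫ y in (-L)..L, V y :=
            intervalIntegral.integral_mono_interval (by linarith) (by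
              have := abs_nonneg x₀; linarith) (by linarith) (ae_of_all _ hV0)
              (hV.intervalIntegrable _ _)
          have g3 : Real.exp (-(3 * (1 + R₀) * A)) ≤ Real.exp (-(3 * (1 + |x|) * A)) := by
            refine Real.exp_le_exp.2 (neg_le_neg ?_)
            gcongr
          have g4 : c₀ ≤ -(s x * Φ x) + -(s' x * Φ' x) := by
            refine le_trans ?_ g1
            exact mul_le_mul g2 g3 (Real.exp_pos _).le (hv₀pos.le.trans g2)
          rw [hχR x (hxR.trans hRR₀)]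
          have g5 : 0 ≤ (‖mo k (ψ t) x‖ ^ 2) ^ 2 := by positivity
          nlinarith
      _ ≤ _ := by
          refine intervalIntegral.integral_mono_interval (by linarith) (by linarith) (by linarith)
            ?_ ((by fun_prop : Continuous fun x => (-(s x * Φ x) * χ x *
              (‖mo k (ψ t) x‖ ^ 2) ^ 2 + -(s' x * Φ' x) * χ x *
              (‖mo k (ψ t) x‖ ^ 2) ^ 2)).intervalIntegrable _ _)
          rw [Filter.EventuallyLE, ae_restrict_iff' measurableSet_Ioc]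
          refine ae_of_all _ fun x hx => ?_
          have hxL : |x| ≤ L := abs_le.2 ⟨hx.1.le, hx.2⟩
          have g1 := f5 x hxL
          have g2 := f6 x hxL
          have g3 := hχ.nn x
          simp only [Pi.zero_apply]
          positivity
  -- the functional
  set M : ℝ → ℝ := fun t =>
    (∫ x in (-L)..L, Φ x * χ x * ((mo k (ψ t) x).re * (mo k (ψ' t) x).im
        - (mo k (ψ t) x).im * (mo k (ψ' t) x).re)) +
    (∫ x in (-L)..L, Φ' x * χ x * ((mo k (ψ t) x).re * (mo k (ψ' t) x).im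
        - (mo k (ψ t) x).im * (mo k (ψ' t) x).re)) with hM
  have hMd : ∀ t, ∃ d, HasDerivAt M d t ∧
      c₀ * (∫ x in (-R₀)..R₀, ‖ψ t x‖ ^ 4) - 5 * c₁ ≤ d := by
    intro t
    refine ⟨_, (d1 t).add (d2 t), ?_⟩
    have w1 := v1 t
    have w2 := v2 t
    have w3 := hq t
    have w4 : ω * K2 ≤ c₁ := by
      have : ω ≤ c₁ / (K2 + 1) := min_le_left _ _
      rw [le_div_iff₀ (by positivity)] at this
      nlinarith
    linarith
  choose M' hM' hM'' using hMd
  have hMb : ∀ t, |M t| ≤ 2 * C := by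
    intro t
    have cU : Continuous (mo k (ψ t)) := mo_cont hk.ker (h.h1 t).cont.locallyIntegrable
    have cU1 : Continuous (mo k (ψ' t)) := mo_cont hk.ker (h.h1 t).loc
    have b0 := int_le hk (h.h1 t).mem (h.bd t) hL0
    have b1 := int_le hk (h.h1 t).mem' (h.bd' t) hL0
    refine (abs_add_le _ _).trans ?_
    have e1 := func_bound cU cU1 (p := fun x => Φ x * χ x) (by fun_prop) hp1 hL0 b0 b1
    have e2 := func_bound cU cU1 (p := fun x => Φ' x * χ x) (by fun_prop) hp2 hL0 b0 b1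
    linarith
  -- integration in time
  have hTT : -T ≤ T := by linarith
  have hi2 : IntervalIntegrable (fun t => c₀ * (∫ x in (-R₀)..R₀, ‖ψ t x‖ ^ 4) - 5 * c₁)
      volume (-T) T := (hint.const_mul c₀).sub (by simp)
  have hfin := intervalIntegral.integral_le_sub_of_hasDeriv_right_of_le hTT
    (g := M) (g' := M') (φ := fun t => c₀ * (∫ x in (-R₀)..R₀, ‖ψ t x‖ ^ 4) - 5 * c₁)
    (fun t _ => (hM' t).continuousAt.continuousWithinAt)
    (fun t _ => (hM' t).hasDerivWithinAt)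
    ((intervalIntegrable_iff_integrableOn_Icc_of_le hTT).1 hi2)
    (fun t _ => hM'' t)
  rw [intervalIntegral.integral_sub (hint.const_mul c₀) (by simp),
    intervalIntegral.integral_const_mul, intervalIntegral.integral_const, smul_eq_mul] at hfin
  have m1 := (abs_le.1 (hMb T)).2
  have m2 := (abs_le.1 (hMb (-T))).1
  have m3 : (T - -T) * (5 * c₁) ≤ 10 := by
    have e : (T - -T) * (5 * c₁) = 10 * (T / (T + 1)) := by rw [hc₁]; ring
    have : T / (T + 1) ≤ 1 := by rw [div_le_one hT1]; linarith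
    rw [e]; linarith
  rw [le_div_iff₀ hc₀pos]
  linarith

end

end Pool.Agent.Lib_helper40.NLM
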