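import Pool.Agent.Lib_helper40.NLM.Stmts

/-!
# One-dimensional local decay from the local Morawetz estimate (NLM_ONED)
-/

namespace Pool.Agent.Lib_helper40.NLM

open MeasureTheory Set Filter Topology
open Pool.Agent.Lib_helper40.NLV

noncomputable section

section

variable {V : ℝ → ℝ} {ψ ψ' : ℝ → ℝ → ℂ} {C : ℝ}

/-- solutions are continuous in time at every point -/
lemma oned_cont (hV : Continuous V) {Vm : ℝ} (hVm : ∀ x, |V x| ≤ Vm) (h : Sol V ψ ψ' C)
    (x : ℝ) : Continuous fun t => ψ t x := by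
  have hC := h.C0
  have hVm0 : 0 ≤ Vm := (abs_nonneg _).trans (hVm 0)
  rw [continuous_iff_continuousAt]
  intro t₀
  rw [ContinuousAt, Metric.tendsto_nhds]
  intro η hη
  obtain ⟨ε, ν, hε, hν, -, hθ⟩ := choose_eps hV hVm0 hC 0 (show 0 < η / 4 by positivity)
  obtain ⟨k, hk⟩ := exists_avg hε
  have hd : Tendsto (fun s => mo k (ψ s) x) (𝓝 t₀) (𝓝 (mo k (ψ t₀) x)) :=
    (mo_time hV h hk.ker x t₀).continuousAt
  have h1 := (Metric.tendsto_nhds.1 hd) (η / 4) (by positivity)
  filter_upwards [h1] with t ht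
  have e1 := (err_bound hV hVm h hk hν t x).1.trans hθ
  have e2 := (err_bound hV hVm h hk hν t₀ x).1.trans hθ
  rw [dist_eq_norm] at ht ⊢
  calc ‖ψ t x - ψ t₀ x‖ = ‖((mo k (ψ t) x - mo k (ψ t₀) x) - (mo k (ψ t) x - ψ t x))
        + (mo k (ψ t₀) x - ψ t₀ x)‖ := by congr 1; ring
    _ ≤ ‖(mo k (ψ t) x - mo k (ψ t₀) x) - (mo k (ψ t) x - ψ t x)‖
        + ‖mo k (ψ t₀) x - ψ t₀ x‖ := norm_add_le _ _
    _ ≤ ‖mo k (ψ t) x - mo k (ψ t₀) x‖ + ‖mo k (ψ t) x - ψ t x‖
        + ‖mo k (ψ t₀) x - ψ t₀ x‖ := by gcongr; exact norm_sub_le _ _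
    _ < η := by linarith

/-- local masses are Lipschitz continuous -/
lemma oned_lip (hV : Continuous V) {Vm : ℝ} (hVm : ∀ x, |V x| ≤ Vm) (h : Sol V ψ ψ' C)
    {L κ : ℝ} {χ χ1 χ2 : ℝ → ℝ} (hχ : Cut L κ χ χ1 χ2) (hL0 : 0 ≤ L) (t₁ t₂ : ℝ) :
    |(∫ x in (-L)..L, χ x * ‖ψ t₁ x‖ ^ 2) - ∫ x in (-L)..L, χ x * ‖ψ t₂ x‖ ^ 2| ≤
      κ * (2 * C) * |t₁ - t₂| := by
  have hC := h.C0
  have hVm0 : 0 ≤ Vm := (abs_nonneg _).trans (hVm 0)
  refine le_of_forall_pos_le_add fun η hη => ?_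
  set T := |t₁ - t₂| with hT
  have hT0 : 0 ≤ T := abs_nonneg _
  have cχ : Continuous χ := cont_of_deriv hχ.dχ
  set B := 2 * (1 + C) with hB
  have hB0 : 0 < B := by positivity
  set ω := min (η / (4 * (2 * (2 * L + C) * T + 1))) (η / (8 * (2 * L * (2 * B) + 1))) with hω
  have hω0 : 0 < ω := by
    have : 0 ≤ 2 * (2 * L + C) * T := by positivity
    positivity
  obtain ⟨ε, ν, hε, hν, he, hθ⟩ := choose_eps hV hVm0 hC L hω0
  obtain ⟨k, hk⟩ := exists_avg hε
  set N : ℝ → ℝ := fun s =>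
    ∫ x in (-L)..L, χ x * ((mo k (ψ s) x).re ^ 2 + (mo k (ψ s) x).im ^ 2) with hN
  have hχ1 : ∀ x, |χ x| ≤ 1 := fun x => by rw [abs_of_nonneg (hχ.nn x)]; exact hχ.le1 x
  have hder := fun t => mass_time hV hVm h hk.ker cχ hχ1 L t
  have hbound : |N t₁ - N t₂| ≤ (κ * (2 * C) + ω * (2 * (2 * L + C))) * T := by
    have hd : ∀ t, |∫ x in (-L)..L, χ x * (2 * ((mo k (ψ t) x).re *
          (Complex.I * mo (deriv k) (ψ' t) x - Complex.I * mo k (nl V (ψ t)) x).re
        + (mo k (ψ t) x).im *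
          (Complex.I * mo (deriv k) (ψ' t) x - Complex.I * mo k (nl V (ψ t)) x).im))| ≤
        κ * (2 * C) + ω * (2 * (2 * L + C)) := by
      intro t
      refine mass_ineq hχ (snap hV h hk.ker t) hL0 hω0.le (fun x hx => ?_) (fun x hx => ?_)
        (int_le hk (h.h1 t).mem (h.bd t) hL0) (int_le hk (h.h1 t).mem' (h.bd' t) hL0)
      · exact (Complex.abs_re_le_norm _).trans (((err_bound hV hVm h hk hν t x).2.2 hx).trans he)
      · exact (Complex.abs_im_le_norm _).trans (((err_bound hV hVm h hk hν t x).2.2 hx).trans he)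
    have := Convex.norm_image_sub_le_of_norm_hasDerivWithin_le (f := N) (s := univ)
      (fun t _ => (hder t).hasDerivWithinAt) (fun t _ => by rw [Real.norm_eq_abs]; exact hd t)
      convex_univ (mem_univ t₂) (mem_univ t₁)
    simpa only [Real.norm_eq_abs] using this
  -- comparison with the mass of the solution
  have hcomp : ∀ t, |N t - ∫ x in (-L)..L, χ x * ‖ψ t x‖ ^ 2| ≤ 2 * L * (2 * B) * ω := by
    intro t
    have c1 : Continuous (mo k (ψ t)) := mo_cont hk.ker (h.h1 t).cont.locallyIntegrable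
    have c2 := (h.h1 t).cont
    rw [hN]
    simp only [sq_re_im]
    rw [← intervalIntegral.integral_sub ((by fun_prop : Continuous fun x =>
      χ x * ‖mo k (ψ t) x‖ ^ 2).intervalIntegrable _ _) ((by fun_prop : Continuous fun x =>
      χ x * ‖ψ t x‖ ^ 2).intervalIntegrable _ _), ← Real.norm_eq_abs]
    have := intervalIntegral.norm_integral_le_of_norm_le_const (a := -L) (b := L)
      (f := fun x => χ x * ‖mo k (ψ t) x‖ ^ 2 - χ x * ‖ψ t x‖ ^ 2) (C := 2 * B * ω) (fun x _ => by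
        obtain ⟨a1, a2, -⟩ := err_bound hV hVm h hk hν t x
        have a3 := h.sup t x
        rw [Real.norm_eq_abs, ← mul_sub, abs_mul, abs_of_nonneg (hχ.nn x)]
        have a4 : |‖mo k (ψ t) x‖ - ‖ψ t x‖| ≤ ω :=
          (abs_norm_sub_norm_le _ _).trans (a1.trans hθ)
        have a5 : ‖mo k (ψ t) x‖ ^ 2 - ‖ψ t x‖ ^ 2 =
          (‖mo k (ψ t) x‖ + ‖ψ t x‖) * (‖mo k (ψ t) x‖ - ‖ψ t x‖) := by ring
        rw [a5, abs_mul, abs_of_nonneg (by positivity : 0 ≤ ‖mo k (ψ t) x‖ + ‖ψ t x‖)]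
        calc χ x * ((‖mo k (ψ t) x‖ + ‖ψ t x‖) * |‖mo k (ψ t) x‖ - ‖ψ t x‖|)
            ≤ 1 * ((B + B) * ω) := by
              gcongr
              exact hχ.le1 x
          _ = 2 * B * ω := by ring)
    refine this.trans (le_of_eq ?_)
    rw [abs_of_nonneg (by linarith)]
    ring
  have w1 : ω * (2 * (2 * L + C)) * T ≤ η / 4 := by
    have hq : 0 ≤ 2 * (2 * L + C) * T := by positivity
    have : ω ≤ η / (4 * (2 * (2 * L + C) * T + 1)) := min_le_left _ _
    rw [le_div_iff₀ (by positivity)] at this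
    nlinarith
  have w2 : 2 * L * (2 * B) * ω ≤ η / 8 := by
    have hq : 0 ≤ 2 * L * (2 * B) := by positivity
    have : ω ≤ η / (8 * (2 * L * (2 * B) + 1)) := min_le_right _ _
    rw [le_div_iff₀ (by positivity)] at this
    nlinarith
  have b1 := abs_le.1 (hcomp t₁)
  have b2 := abs_le.1 (hcomp t₂)
  have b3 := abs_le.1 hbound
  rw [add_mul] at b3
  rw [abs_le]
  constructor
  · linarith [b1.2, b2.1, b3.1]
  · linarith [b1.1, b2.2, b3.2]

end

/-- (NLM_ONED) -/
theorem one_dec (hD : DecStmt) : OneDecStmt := by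
  intro V ψ ψ' C Vm hV hVm h hM R ε hε
  have hC := h.C0
  set B := 2 * (1 + C) with hB
  have hB0 : 0 < B := by positivity
  obtain ⟨D, hD0, hcut⟩ := exists_cut
  set R' := |R| + 1 with hR'
  have hR'1 : 1 ≤ R' := by rw [hR']; linarith [abs_nonneg R]
  obtain ⟨χ, χ1, χ2, hχ, hχR⟩ := hcut R' hR'1
  set L := 3 * R' with hL
  have hL0 : 0 < L := by rw [hL]; linarith
  have cχ : Continuous χ := cont_of_deriv hχ.dχ
  set F : ℝ → ℝ := fun t => ∫ x in (-L)..L, χ x * ‖ψ t x‖ ^ 2 with hF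
  have cψ : ∀ t, Continuous (ψ t) := fun t => (h.h1 t).cont
  have hF0 : ∀ t, 0 ≤ F t := fun t =>
    intervalIntegral.integral_nonneg (by linarith) fun x _ => by
      have := hχ.nn x
      positivity
  have hFlip : ∀ s t, |F t - F s| ≤ D / R' * (2 * C) * |t - s| := fun s t =>
    oned_lip hV hVm h hχ hL0.le t s
  -- continuity of the quartic functional
  set Q : ℝ → ℝ := fun t => ∫ x in (-L)..L, ‖ψ t x‖ ^ 4 with hQ
  have hQc : Continuous Q := by
    rw [continuous_iff_continuousAt]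
    intro t₀
    refine intervalIntegral.tendsto_integral_filter_of_dominated_convergence (fun _ => B ^ 4)
      (Eventually.of_forall fun t => ?_) (Eventually.of_forall fun t => ae_of_all _ fun x _ => ?_)
      (by simp) (ae_of_all _ fun x _ => ?_)
    · have := cψ t
      exact (by fun_prop : Continuous fun x => ‖ψ t x‖ ^ 4).aestronglyMeasurable
    · rw [Real.norm_eq_abs, abs_of_nonneg (by positivity)]
      have := h.sup t x
      gcongr
    · have h1 := (oned_cont hV hVm h x).continuousAt (x := t₀)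
      exact (h1.norm.pow 4)
  have hFc : Continuous F := by
    rw [continuous_iff_continuousAt]
    intro t₀
    refine intervalIntegral.tendsto_integral_filter_of_dominated_convergence (fun _ => B ^ 2)
      (Eventually.of_forall fun t => ?_) (Eventually.of_forall fun t => ae_of_all _ fun x _ => ?_)
      (by simp) (ae_of_all _ fun x _ => ?_)
    · have := cψ t
      exact (by fun_prop : Continuous fun x => χ x * ‖ψ t x‖ ^ 2).aestronglyMeasurable
    · rw [Real.norm_eq_abs, abs_mul, abs_of_nonneg (hχ.nn x), abs_of_nonneg (by positivity)]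
      have h1 := h.sup t x
      have h2 := hχ.le1 x
      calc χ x * ‖ψ t x‖ ^ 2 ≤ 1 * B ^ 2 := by gcongr
        _ = B ^ 2 := one_mul _
    · have h1 := (oned_cont hV hVm h x).continuousAt (x := t₀)
      exact ((h1.norm.pow 2).const_mul (χ x))
  have hFQ : ∀ t, F t ^ 2 ≤ 2 * L * Q t := by
    intro t
    have c := cψ t
    have h1 := sq_lower (ρ := fun x => χ x * ‖ψ t x‖ ^ 2) (by fun_prop) hL0 (hF0 t) le_rfl
    have h2 : ∫ x in (-L)..L, (χ x * ‖ψ t x‖ ^ 2) ^ 2 ≤ Q t := by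
      refine intervalIntegral.integral_mono_on (by linarith)
        ((by fun_prop : Continuous fun x => (χ x * ‖ψ t x‖ ^ 2) ^ 2).intervalIntegrable _ _)
        ((by fun_prop : Continuous fun x => ‖ψ t x‖ ^ 4).intervalIntegrable _ _) fun x _ => ?_
      have g1 := hχ.nn x
      have g2 := hχ.le1 x
      have g3 : χ x ^ 2 ≤ 1 := pow_le_one₀ g1 g2
      calc (χ x * ‖ψ t x‖ ^ 2) ^ 2 = χ x ^ 2 * ‖ψ t x‖ ^ 4 := by ring
        _ ≤ 1 * ‖ψ t x‖ ^ 4 := by gcongr
        _ = ‖ψ t x‖ ^ 4 := one_mul _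
    rw [div_le_iff₀ (by linarith)] at h1
    have h3 : (∫ x in (-L)..L, (χ x * ‖ψ t x‖ ^ 2) ^ 2) * (2 * L) ≤ Q t * (2 * L) :=
      mul_le_mul_of_nonneg_right h2 (by linarith)
    have h4 : F t ^ 2 ≤ (∫ x in (-L)..L, (χ x * ‖ψ t x‖ ^ 2) ^ 2) * (2 * L) := h1
    linarith
  obtain ⟨K, hK⟩ := hM L hL0
  have hB2 : ∀ T : ℝ, 0 ≤ T → ∫ t in (-T)..T, F t ^ 2 ≤ 2 * L * K := by
    intro T hT
    calc ∫ t in (-T)..T, F t ^ 2 ≤ ∫ t in (-T)..T, 2 * L * Q t :=
          intervalIntegral.integral_mono_on (by linarith)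
            ((hFc.pow 2).intervalIntegrable _ _)
            ((continuous_const.mul hQc).intervalIntegrable _ _) fun t _ => hFQ t
      _ = 2 * L * ∫ t in (-T)..T, Q t := intervalIntegral.integral_const_mul _ _
      _ ≤ 2 * L * K := mul_le_mul_of_nonneg_left (hK T hT) (by linarith)
  obtain ⟨hT, hB'⟩ := hD F _ _ hF0 hFlip hB2
  -- pointwise bound
  set r := min 1 (ε / (1 + C)) with hr
  have hr0 : 0 < r := by positivity
  have hr1 : r ≤ 1 := min_le_left _ _
  have hrε : (1 + C) / 2 * r ≤ ε / 2 := by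
    have : r ≤ ε / (1 + C) := min_le_right _ _
    rw [le_div_iff₀ (by positivity)] at this
    linarith
  set δ := r ^ 2 with hδ
  have hδ0 : 0 < δ := by positivity
  have hδ1 : δ ≤ 1 := pow_le_one₀ hr0.le hr1
  have hev1 : ∀ᶠ t in atTop, F t < δ * (ε / 2) ^ 2 := hT.eventually (gt_mem_nhds (by positivity))
  have hev2 : ∀ᶠ t in atBot, F t < δ * (ε / 2) ^ 2 := hB'.eventually (gt_mem_nhds (by positivity))
  obtain ⟨T₁, hT₁⟩ := eventually_atTop.1 hev1
  obtain ⟨T₂, hT₂⟩ := eventually_atBot.1 hev2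
  refine ⟨max T₁ (-T₂), fun t x ht hx => ?_⟩
  have hFt : F t < δ * (ε / 2) ^ 2 := by
    rcases le_abs'.1 ht with h1 | h1
    · exact hT₂ t (by have := le_max_right T₁ (-T₂); linarith)
    · exact hT₁ t ((le_max_left _ _).trans h1)
  by_contra hc
  push Not at hc
  have hlow : ∀ y ∈ Icc x (x + δ), ε / 2 ≤ ‖ψ t y‖ := by
    intro y hy
    have h1 := (h.h1 t).holder (h.bd' t) x y
    have h2 : √|x - y| ≤ r := by
      rw [abs_sub_comm, abs_of_nonneg (by linarith [hy.1])]
      calc √(y - x) ≤ √(r ^ 2) := Real.sqrt_le_sqrt (by linarith [hy.2])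
        _ = r := Real.sqrt_sq hr0.le
    have h3 : ‖ψ t x - ψ t y‖ ≤ ε / 2 := by
      refine h1.trans (le_trans ?_ hrε)
      gcongr
    have h4 := norm_sub_norm_le (ψ t x) (ψ t y)
    linarith
  have hxR : |x| ≤ |R| := hx.trans (le_abs_self R)
  have hxx := abs_le.1 hxR
  have c := cψ t
  have h1 : δ * (ε / 2) ^ 2 ≤ F t := by
    calc δ * (ε / 2) ^ 2 = ∫ y in x..(x + δ), (ε / 2) ^ 2 := by
          rw [intervalIntegral.integral_const, smul_eq_mul]; ring
      _ ≤ ∫ y in x..(x + δ), χ y * ‖ψ t y‖ ^ 2 := by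
          refine intervalIntegral.integral_mono_on (by linarith) (by simp)
            ((by fun_prop : Continuous fun x => χ x * ‖ψ t x‖ ^ 2).intervalIntegrable _ _)
            fun y hy => ?_
          have h5 : |y| ≤ R' := by
            rw [abs_le, hR']
            constructor
            · linarith [hy.1, hxx.1]
            · linarith [hy.2, hxx.2]
          rw [hχR y h5, one_mul]
          have := hlow y hy
          gcongr
      _ ≤ F t := by
          refine intervalIntegral.integral_mono_interval ?_ (by linarith) ?_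
            (ae_of_all _ fun y => ?_)
            ((by fun_prop : Continuous fun x => χ x * ‖ψ t x‖ ^ 2).intervalIntegrable _ _)
          · rw [hL, hR']; linarith [hxx.1, abs_nonneg R]
          · rw [hL, hR']; linarith [hxx.2, abs_nonneg R]
          · have := hχ.nn y
            simp only [Pi.zero_apply]
            positivity
  linarith

end

end Pool.Agent.Lib_helper40.NLM
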