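import Pool.Agent.Lib_helper40.NLN.Nt
import Pool.Agent.Lib_helper40.NLV.Weak

/-!
# Morawetz estimates and local decay: statements of the modules
-/

namespace Pool.Agent.Lib_helper40.NLM

open MeasureTheory Set Filter Topology
open Pool.Agent.Lib_helper40.NLN

noncomputable section

/-- (NLM_REPX) the divergence identity `∫ div (U ρ X) = 0`, `ρ = a² + b²` -/
def RepXStmt : Prop :=
  ∀ (n : ℕ) (U : E n → ℝ), ContDiff ℝ 1 U →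
  ∀ (a b : E n → ℝ) (a1 b1 : Fin n → E n → ℝ), (∀ i, PD i a (a1 i)) → (∀ i, PD i b (b1 i)) →
    Continuous a → Continuous b → (∀ i, Continuous (a1 i)) → (∀ i, Continuous (b1 i)) →
  ∀ (X : Fin n → E n → ℝ) (X1 : Fin n → E n → ℝ),
    (∀ i, CK (X i)) → (∀ i, PD i (X i) (X1 i)) → (∀ i, CK (X1 i)) →
    ∫ x, U x * (2 * (∑ i, X i x * (a x * a1 i x + b x * b1 i x))
      + (∑ i, X1 i x) * (a x ^ 2 + b x ^ 2)) =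
    -∫ x, (∑ i, X i x * fderiv ℝ U x (bv i)) * (a x ^ 2 + b x ^ 2)

/-- (NLM_VIRX) the virial identity for a vector field with compact support -/
def VirXStmt : Prop :=
  ∀ (n : ℕ) (V a b v1 v2 e1 e2 : E n → ℝ) (a1 b1 w1 w2 : Fin n → E n → ℝ)
    (a2 b2 : Fin n → Fin n → E n → ℝ), Continuous V →
    SnapN V a b a1 b1 a2 b2 v1 v2 w1 w2 e1 e2 →
  ∀ (X : Fin n → E n → ℝ) (X1 : Fin n → Fin n → E n → ℝ) (D1 : Fin n → E n → ℝ),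
    (∀ i, CK (X i)) → (∀ i j, PD i (X j) (X1 i j)) → (∀ i j, CK (X1 i j)) →
    (∀ i, PD i (fun x => ∑ j, X1 j j x) (D1 i)) → (∀ i, CK (D1 i)) →
    ∫ x, ∑ i, X i x * (v1 x * b1 i x + a x * w2 i x - v2 x * a1 i x - b x * w1 i x) =
    ∫ x, (2 * (∑ i, ∑ j, X1 i j x * (a1 i x * a1 j x + b1 i x * b1 j x))
      + (∑ i, D1 i x * (a x * a1 i x + b x * b1 i x))
      + V x * (2 * (∑ i, X i x * (a x * a1 i x + b x * b1 i x))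
        + (∑ j, X1 j j x) * (a x ^ 2 + b x ^ 2))
      + 1 / 2 * (∑ j, X1 j j x) * (a x ^ 2 + b x ^ 2) ^ 2
      + 2 * (∑ i, X i x * (e1 x * a1 i x + e2 x * b1 i x))
      + (∑ j, X1 j j x) * (a x * e1 x + b x * e2 x))

/-- (NLM_ALG2) the pointwise inequality for the multiplier `λ Φ ∇√(α²+|x|²)` -/
def Alg2Stmt : Prop :=
  ∀ (n N k k₀ s Φ lam lam1 lam2 F V Vm S μ κ a b y1 y2 G : ℝ), 1 ≤ n → 0 ≤ N → N ≤ 1 → 0 < k →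
    k ≤ k₀ → s ≤ 0 → -s * N ≤ S → 0 ≤ Φ → Φ ≤ 1 → 0 ≤ lam → lam ≤ 1 → |lam1| ≤ μ → |lam2| ≤ μ →
    0 ≤ V → N * F ≤ V → V ≤ Vm → 0 ≤ κ → (κ ^ 2 < N → V = N * F) → 0 ≤ F → 0 ≤ G →
    y1 ^ 2 + y2 ^ 2 ≤ N * G →
    ∀ m mg mgg P Pg Q ρ : ℝ, m = lam * Φ → mg = lam1 * Φ - 2 * s * (lam * Φ) →
      mgg = lam2 * Φ - 4 * s * (lam1 * Φ) + (6 * s ^ 2 - 2 * F) * (lam * Φ) →
      P = N * s ^ 2 - (n - N) * k * s + 1 / 2 * k ^ 2 * (n + 2 - 3 * N) →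
      Pg = 2 * (1 - N) * k * s ^ 2 + 2 * N * s * (F - s ^ 2) + k ^ 2 * (n + 2 - 3 * N) * s
        - (n - N) * k * (F - s ^ 2) - 1 / 2 * k ^ 3 * (2 * n + 10 - 12 * N) →
      Q = a * y1 + b * y2 → ρ = a ^ 2 + b ^ 2 →
      1 / 2 * m * (k ^ 3 * ((n - 1) * (n - 3) + 6 * (n - 3) * (1 - N) + 15 * (1 - N) ^ 2)) * ρ
        - ((3 + (n + 5) * k₀ + 4 * S + Vm + S ^ 2 + n * k₀ * S + (n + 2) * k₀ ^ 2) * μ + Vm * κ)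
          * (ρ + G) ≤
      2 * (mg - m * k) * (y1 ^ 2 + y2 ^ 2) + 2 * m * k * G
        + ((n + 2) * (mg * k - m * k ^ 2) + N * (mgg - 3 * mg * k + 3 * m * k ^ 2)) * Q
        + V * (2 * m * Q + ((n - N) * m * k + N * mg) * ρ)
        + 2 * m * P * Q + ((n - N) * m * P * k + N * (mg * P + m * Pg)) * ρ

/-- (NLM_FLD2) the radial field in the variable `g = √(α² + |x|²)` -/
def Fld2Stmt : Prop :=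
  ∀ (W : ℝ → ℝ), Continuous W → (∀ r, 0 ≤ W r) → IntegrableOn (fun r => r * W r) (Ioi 0) →
  ∀ α κ b : ℝ, 0 < α → 0 < κ → α < b →
    ∃ F Φ s : ℝ → ℝ, Continuous F ∧ (∀ g, 0 ≤ F g) ∧
      (∀ g, α ≤ g → (1 - α ^ 2 / g ^ 2) * F g ≤ W (√(g ^ 2 - α ^ 2))) ∧
      (∀ g, α ≤ g → κ ^ 2 < g ^ 2 - α ^ 2 → W (√(g ^ 2 - α ^ 2)) = (1 - α ^ 2 / g ^ 2) * F g) ∧
      FldN F Φ s ∧ (∀ g, 0 ≤ Φ g ∧ Φ g ≤ 1) ∧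
      (∀ g, α ≤ g → g ≤ b → Real.exp (-(2 * ∫ r in Ioi 0, r * W r)) ≤ Φ g) ∧
      (∀ g ≤ b, s g ≤ 0) ∧
      (∀ g, α ≤ g → g ≤ b → -s g * (g - α) ≤ ∫ r in Ioi 0, r * W r)

/-- (NLM_CON6) averages are contractions in `L⁶` -/
def Con6Stmt : Prop :=
  ∀ (n : ℕ) (k : E n → ℝ) (ε : ℝ), Avg k ε → ∀ f : E n → ℂ, MemLp f 2 volume →
    MemLp f 6 volume → Integrable (fun x => ‖mo k f x‖ ^ 6) ∧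
      ∫ x, ‖mo k f x‖ ^ 6 ≤ ∫ x, ‖f x‖ ^ 6

/-- (NLM_Q4) continuity of the quartic functional -/
def Q4Stmt : Prop :=
  ∀ (n : ℕ) (f g : E n → ℂ) (w : E n → ℝ) (B : Set (E n)) (α : ℝ), 0 < α → MeasurableSet B →
    Measurable w → (∀ x, 0 ≤ w x ∧ w x ≤ 1) →
    AEStronglyMeasurable f volume → AEStronglyMeasurable g volume →
    Integrable (fun x => ‖f x‖ ^ 2) → Integrable (fun x => ‖g x‖ ^ 2) →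
    Integrable (fun x => ‖f x‖ ^ 6) → Integrable (fun x => ‖g x‖ ^ 6) →
    Integrable (fun x => w x * ‖f x‖ ^ 4) ∧ Integrable (fun x => w x * ‖g x‖ ^ 4) ∧
    |(∫ x in B, w x * ‖f x‖ ^ 4) - ∫ x in B, w x * ‖g x‖ ^ 4| ≤
      4 * α * ((∫ x, ‖f x‖ ^ 6) + ∫ x, ‖g x‖ ^ 6) + α⁻¹ * ∫ x in B, ‖f x - g x‖ ^ 2

/-- (NLM_MORA) from virial functionals to the Morawetz estimate -/
def MoraStmt : Prop :=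
  ∀ (n : ℕ) (ψ : ℝ → E n → ℂ) (C : ℝ),
    (∀ t, MemLp (ψ t) 2 volume) → (∀ t, MemLp (ψ t) 6 volume) →
    (∀ t, ∫ x, ‖ψ t x‖ ^ 2 ≤ C) → (∀ t, ∫ x, ‖ψ t x‖ ^ 6 ≤ C) →
    (∀ t₀, Tendsto (fun t => ∫ x, ‖ψ t x - ψ t₀ x‖ ^ 2) (𝓝 t₀) (𝓝 0)) →
    (∀ t₀, Tendsto (fun t => ∫ x, ‖ψ t x - ψ t₀ x‖ ^ 6) (𝓝 t₀) (𝓝 0)) →
    ∀ w : E n → ℝ, Continuous w → (∀ x, 0 ≤ w x ∧ w x ≤ 1) → (∀ x, w x * ‖x‖ ≤ 1) →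
    ∀ Q : ℝ, (∀ R T η : ℝ, 0 < R → 0 < T → 0 < η →
      ∃ (k : E n → ℝ) (ε : ℝ) (M M' : ℝ → ℝ), Avg k ε ∧ ∀ t ∈ Icc (-T) T,
        |M t| ≤ Q ∧ HasDerivAt M (M' t) t ∧
        (∫ x in Metric.closedBall (0 : E n) R, ‖mo k (ψ t) x - ψ t x‖ ^ 2) ≤ η ∧
        (∫ x in Metric.closedBall (0 : E n) R, w x * ‖mo k (ψ t) x‖ ^ 4) ≤ M' t + 1 / T) →
    (Continuous fun t => ∫ x, w x * ‖ψ t x‖ ^ 4) ∧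
    ∀ T : ℝ, 0 ≤ T → ∫ t in (-T)..T, ∫ x, w x * ‖ψ t x‖ ^ 4 ≤ 2 * Q + 2

/-- (NLM_RAGE) from virial functionals to averaged local decay -/
def RageStmt : Prop :=
  ∀ (n : ℕ) (ψ : ℝ → E n → ℂ),
    (∀ t, MemLp (ψ t) 2 volume) →
    (∀ t₀, Tendsto (fun t => ∫ x, ‖ψ t x - ψ t₀ x‖ ^ 2) (𝓝 t₀) (𝓝 0)) →
    ∀ R c : ℝ, 0 < R → 0 < c →
    (∀ ε₀ : ℝ, 0 < ε₀ → ∃ Q : ℝ, ∀ s T η : ℝ, 0 < T → 0 < η →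
      ∃ (φ : ℝ → E n → ℂ) (M M' : ℝ → ℝ), ∀ t ∈ Icc s (s + T), Continuous (φ t) ∧
        |M t| ≤ Q ∧ HasDerivAt M (M' t) t ∧
        (∫ x in Metric.closedBall (0 : E n) R, ‖φ t x - ψ t x‖ ^ 2) ≤ η ∧
        c * (∫ x in Metric.closedBall (0 : E n) R, ‖φ t x‖ ^ 4) ≤ M' t + ε₀) →
    ∀ ε : ℝ, 0 < ε → ∃ T₀ : ℝ, 0 < T₀ ∧ ∀ s T : ℝ, T₀ ≤ T →
      ∫ t in s..(s + T), ∫ x in Metric.closedBall (0 : E n) R, ‖ψ t x‖ ^ 2 ≤ ε * T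

/-- (NLM_LIP) local masses are Lipschitz continuous -/
def LipStmt : Prop :=
  ∀ (n : ℕ) (V : E n → ℝ) (Vm : ℝ), Continuous V → (∀ x, |V x| ≤ Vm) →
  ∀ (ψ : ℝ → E n → ℂ) (ψ' : ℝ → Fin n → E n → ℂ) (C : ℝ), SolN V ψ ψ' C → ∀ R : ℝ,
    ∃ (p : E n → ℝ) (K L : ℝ), Continuous p ∧ (∀ x, 0 ≤ p x ∧ p x ≤ 1) ∧
      (∀ x, ‖x‖ ≤ R → p x = 1) ∧ (∀ x, L < ‖x‖ → p x = 0) ∧
      ∀ s t : ℝ, |(∫ x, p x * ‖ψ t x‖ ^ 2) - ∫ x, p x * ‖ψ s x‖ ^ 2| ≤ K * |t - s|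

/-- (NLM_DEC) a nonnegative Lipschitz function in `L²(ℝ)` tends to zero -/
def DecStmt : Prop :=
  ∀ (F : ℝ → ℝ) (K B : ℝ), (∀ t, 0 ≤ F t) → (∀ s t, |F t - F s| ≤ K * |t - s|) →
    (∀ T : ℝ, 0 ≤ T → ∫ t in (-T)..T, F t ^ 2 ≤ B) →
    Tendsto F atTop (𝓝 0) ∧ Tendsto F atBot (𝓝 0)

/-- (NLM_LIN) the virial inequality for linear vector fields -/
def LinStmt : Prop :=
  ∀ (n : ℕ) (A : E n →L[ℝ] E n) (β : E n), (∀ x, 0 ≤ inner ℝ (A x) x) →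
    ∃ K : ℝ, 0 ≤ K ∧ ∀ (V : E n → ℝ), ContDiff ℝ 1 V → (∀ x, fderiv ℝ V x (A x + β) ≤ 0) →
    ∀ (lam lam1 lam2 : ℝ → ℝ) (μ T θ : ℝ), 0 < T → 0 < θ → μ ≤ 1 → CutN lam lam1 lam2 μ T →
    ∀ (a b v1 v2 e1 e2 : E n → ℝ) (a1 b1 w1 w2 : Fin n → E n → ℝ)
      (a2 b2 : Fin n → Fin n → E n → ℝ), SnapN V a b a1 b1 a2 b2 v1 v2 w1 w2 e1 e2 →
      Integrable (fun x => a x ^ 2 + b x ^ 2) → Integrable (gsq a1 b1) →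
      Integrable (fun x => (a x ^ 2 + b x ^ 2) ^ 2) →
      (∑ j, A (bv j) j) / 2 * (∫ x, lam (hn x) * (a x ^ 2 + b x ^ 2) ^ 2)
        - K * μ * (∫ x, (a x ^ 2 + b x ^ 2) ^ 2)
        - (K * μ + θ) * ((∫ x, (a x ^ 2 + b x ^ 2)) + ∫ x, gsq a1 b1 x)
        - θ⁻¹ * (K * (1 + T)) *
          (∫ x in Metric.closedBall (0 : E n) (√(2 * T)), (e1 x ^ 2 + e2 x ^ 2)) ≤
      ∫ x, ∑ i, lam (hn x) * (A x i + β i) *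
        (v1 x * b1 i x + a x * w2 i x - v2 x * a1 i x - b x * w1 i x)

/-- (NLM_ONE) the one-dimensional local Morawetz estimate -/
def OneStmt : Prop :=
  ∀ (V : ℝ → ℝ) (ψ ψ' : ℝ → ℝ → ℂ) (C Vm : ℝ), Continuous V → (∀ x, |V x| ≤ Vm) →
    (∀ x, 0 ≤ V x) → (∃ x, V x ≠ 0) → Integrable (fun x => (1 + |x|) * V x) →
    NLV.Sol V ψ ψ' C → ∀ R : ℝ, 0 < R → ∃ K : ℝ, ∀ T : ℝ, 0 ≤ T →
      ∫ t in (-T)..T, ∫ x in (-R)..R, ‖ψ t x‖ ^ 4 ≤ K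

/-- (NLM_ONED) one-dimensional local decay from the local Morawetz estimate -/
def OneDecStmt : Prop :=
  ∀ (V : ℝ → ℝ) (ψ ψ' : ℝ → ℝ → ℂ) (C Vm : ℝ), Continuous V → (∀ x, |V x| ≤ Vm) →
    NLV.Sol V ψ ψ' C →
    (∀ R : ℝ, 0 < R → ∃ K : ℝ, ∀ T : ℝ, 0 ≤ T →
      ∫ t in (-T)..T, ∫ x in (-R)..R, ‖ψ t x‖ ^ 4 ≤ K) →
    ∀ R ε : ℝ, 0 < ε → ∃ T₀ : ℝ, ∀ t x : ℝ, T₀ ≤ |t| → |x| ≤ R → ‖ψ t x‖ ≤ ε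

end

end Pool.Agent.Lib_helper40.NLM
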