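import Pool.Agent.Lib_helper40.NLM.Stmts

/-!
# The virial inequality for the multiplier `λ Φ ∇√(α²+|x|²)`: calculus
-/

namespace Pool.Agent.Lib_helper40.NLM

open MeasureTheory Set Filter Topology
open Pool.Agent.Lib_helper40.NLN

noncomputable section

/-- `√(α² + 2τ)` -/
def gg (α τ : ℝ) : ℝ := √(α ^ 2 + 2 * τ)

section

variable {α τ : ℝ}

lemma gg_pos (hα : 0 < α) (hτ : 0 ≤ τ) : 0 < gg α τ := Real.sqrt_pos.2 (by positivity)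

lemma gg_sq (hτ : 0 ≤ τ) : gg α τ ^ 2 = α ^ 2 + 2 * τ := Real.sq_sqrt (by positivity)

lemma le_gg (hα : 0 < α) (hτ : 0 ≤ τ) : α ≤ gg α τ := Real.le_sqrt_of_sq_le (by linarith)

lemma gg_d (hα : 0 < α) (hτ : 0 ≤ τ) : HasDerivAt (gg α) (gg α τ)⁻¹ τ := by
  have h0 : 0 < α ^ 2 + 2 * τ := by positivity
  have h1 := (((hasDerivAt_id' τ).const_mul 2).const_add (α ^ 2)).sqrt h0.ne'
  refine h1.congr_deriv ?_
  have : √(α ^ 2 + 2 * τ) ≠ 0 := (Real.sqrt_pos.2 h0).ne'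
  unfold gg
  field_simp

lemma gg_cont : Continuous (gg α) := by unfold gg; fun_prop

lemma comp_gg {p p' : ℝ → ℝ} (hα : 0 < α) (hτ : 0 ≤ τ)
    (hp : HasDerivAt p (p' (gg α τ)) (gg α τ)) :
    HasDerivAt (fun τ => p (gg α τ)) (p' (gg α τ) * (gg α τ)⁻¹) τ :=
  HasDerivAt.comp τ hp (gg_d hα hτ)

end

section

variable (n α : ℝ) (F Φ s lam lam1 lam2 : ℝ → ℝ)

def Ng (g : ℝ) : ℝ := 1 - α ^ 2 / g ^ 2
def mm (g : ℝ) : ℝ := lam g * Φ g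
def mg (g : ℝ) : ℝ := lam1 g * Φ g - 2 * s g * (lam g * Φ g)
def mgg (g : ℝ) : ℝ := lam2 g * Φ g - 4 * s g * (lam1 g * Φ g)
  + (6 * s g ^ 2 - 2 * F g) * (lam g * Φ g)
def PP (g : ℝ) : ℝ := Ng α g * s g ^ 2 - (n - Ng α g) * g⁻¹ * s g
  + 1 / 2 * g⁻¹ ^ 2 * (n + 2 - 3 * Ng α g)
def PPg (g : ℝ) : ℝ := 2 * (1 - Ng α g) * g⁻¹ * s g ^ 2 + 2 * Ng α g * s g * (F g - s g ^ 2)
  + g⁻¹ ^ 2 * (n + 2 - 3 * Ng α g) * s g - (n - Ng α g) * g⁻¹ * (F g - s g ^ 2)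
  - 1 / 2 * g⁻¹ ^ 3 * (2 * n + 10 - 12 * Ng α g)

/-- the multiplier as a function of `τ = |x|²/2` -/
def c0 (τ : ℝ) : ℝ := mm Φ lam (gg α τ) * (gg α τ)⁻¹
def c1 (τ : ℝ) : ℝ := mg Φ s lam lam1 (gg α τ) * (gg α τ)⁻¹ ^ 2
  - mm Φ lam (gg α τ) * (gg α τ)⁻¹ ^ 3
def c2 (τ : ℝ) : ℝ := mgg F Φ s lam lam1 lam2 (gg α τ) * (gg α τ)⁻¹ ^ 3
  - 3 * mg Φ s lam lam1 (gg α τ) * (gg α τ)⁻¹ ^ 4 + 3 * mm Φ lam (gg α τ) * (gg α τ)⁻¹ ^ 5
def f0 (τ : ℝ) : ℝ := -(mm Φ lam (gg α τ) * PP n α s (gg α τ) * (gg α τ)⁻¹)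
def f1 (τ : ℝ) : ℝ := -(mg Φ s lam lam1 (gg α τ) * PP n α s (gg α τ)
    + mm Φ lam (gg α τ) * PPg n α F s (gg α τ)) * (gg α τ)⁻¹ ^ 2
  + mm Φ lam (gg α τ) * PP n α s (gg α τ) * (gg α τ)⁻¹ ^ 3

end

section

variable {n α τ : ℝ} {F Φ s lam lam1 lam2 : ℝ → ℝ}

lemma mm_d (hF : FldN F Φ s) (h1 : ∀ g, HasDerivAt lam (lam1 g) g) (g : ℝ) :
    HasDerivAt (mm Φ lam) (mg Φ s lam lam1 g) g := by
  have := (h1 g).mul (hF.dΦ g)
  refine this.congr_deriv ?_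
  unfold mg
  ring

lemma mg_d (hF : FldN F Φ s) (h1 : ∀ g, HasDerivAt lam (lam1 g) g)
    (h2 : ∀ g, HasDerivAt lam1 (lam2 g) g) (g : ℝ) :
    HasDerivAt (mg Φ s lam lam1) (mgg F Φ s lam lam1 lam2 g) g := by
  have := ((h2 g).mul (hF.dΦ g)).sub (((hF.ds g).const_mul 2).mul ((h1 g).mul (hF.dΦ g)))
  refine this.congr_deriv ?_
  unfold mgg
  simp only [Pi.mul_apply]
  ring

lemma Ng_d {g : ℝ} (hg : 0 < g) : HasDerivAt (Ng α) (2 * (1 - Ng α g) * g⁻¹) g := by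
  have := ((hasDerivAt_pow 2 g).inv (by positivity)).const_mul (α ^ 2)
  have h2 := this.const_sub 1
  have e : (fun x : ℝ => 1 - α ^ 2 * ((fun x : ℝ => x ^ 2)⁻¹) x) = Ng α := by
    funext x
    simp only [Ng, Pi.inv_apply, div_eq_mul_inv]
  rw [e] at h2
  refine h2.congr_deriv ?_
  unfold Ng
  have := hg.ne'
  norm_num
  field_simp

lemma PP_d (hF : FldN F Φ s) {g : ℝ} (hg : 0 < g) :
    HasDerivAt (PP n α s) (PPg n α F s g) g := by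
  have hN := Ng_d (α := α) hg
  have hi := hasDerivAt_inv hg.ne'
  have hs := hF.ds g
  have h := ((hN.mul (hs.pow 2)).sub (((hN.const_sub n).mul hi).mul hs)).add
    (((hi.pow 2).const_mul (1 / 2)).mul ((hN.const_mul 3).const_sub (n + 2)))
  refine h.congr_deriv ?_
  unfold PPg
  have e1 : ((fun y : ℝ => y⁻¹) ^ 2) g = g⁻¹ ^ 2 := rfl
  have e2 : ((fun x => n - Ng α x) * fun y : ℝ => y⁻¹) g = (n - Ng α g) * g⁻¹ := rfl
  have e3 : (s ^ 2) g = s g ^ 2 := rfl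
  rw [e1, e2, e3]
  have e4 : (g ^ 2)⁻¹ = g⁻¹ ^ 2 := (inv_pow g 2).symm
  rw [e4]
  simp only [Nat.cast_ofNat, Nat.add_one_sub_one, pow_one]
  ring

lemma c0_d (hα : 0 < α) (hF : FldN F Φ s) (h1 : ∀ g, HasDerivAt lam (lam1 g) g) (hτ : 0 ≤ τ) :
    HasDerivAt (c0 α Φ lam) (c1 α Φ s lam lam1 τ) τ := by
  have hg := gg_pos hα hτ
  have hi := hasDerivAt_inv hg.ne'
  have h := HasDerivAt.comp τ ((mm_d hF h1 (gg α τ)).mul hi) (gg_d hα hτ)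
  refine h.congr_deriv ?_
  unfold c1
  have := hg.ne'
  field_simp
  ring

lemma c1_d (hα : 0 < α) (hF : FldN F Φ s) (h1 : ∀ g, HasDerivAt lam (lam1 g) g)
    (h2 : ∀ g, HasDerivAt lam1 (lam2 g) g) (hτ : 0 ≤ τ) :
    HasDerivAt (c1 α Φ s lam lam1) (c2 α F Φ s lam lam1 lam2 τ) τ := by
  have hg := gg_pos hα hτ
  have hi := hasDerivAt_inv hg.ne'
  have h := HasDerivAt.comp τ (((mg_d hF h1 h2 (gg α τ)).mul (hi.pow 2)).sub
    ((mm_d hF h1 (gg α τ)).mul (hi.pow 3))) (gg_d hα hτ)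
  refine h.congr_deriv ?_
  unfold c2
  have e1 : ((fun y : ℝ => y⁻¹) ^ 2) (gg α τ) = (gg α τ)⁻¹ ^ 2 := rfl
  have e2 : ((fun y : ℝ => y⁻¹) ^ 3) (gg α τ) = (gg α τ)⁻¹ ^ 3 := rfl
  have e4 : (gg α τ ^ 2)⁻¹ = (gg α τ)⁻¹ ^ 2 := (inv_pow _ 2).symm
  rw [e1, e2, e4]
  simp only [Nat.cast_ofNat, Nat.add_one_sub_one, pow_one]
  ring

lemma f0_d (hα : 0 < α) (hF : FldN F Φ s) (h1 : ∀ g, HasDerivAt lam (lam1 g) g) (hτ : 0 ≤ τ) :
    HasDerivAt (f0 n α Φ s lam) (f1 n α F Φ s lam lam1 τ) τ := by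
  have hg := gg_pos hα hτ
  have hi := hasDerivAt_inv hg.ne'
  have h := HasDerivAt.comp τ ((((mm_d hF h1 (gg α τ)).mul (PP_d (n := n) (α := α) hF hg)).mul
    hi).neg) (gg_d hα hτ)
  refine h.congr_deriv ?_
  unfold f1
  simp only [Pi.mul_apply]
  have := hg.ne'
  field_simp
  ring

end

/-- radial functions, derivative known for `τ ≥ 0` only -/
lemma PDr {n : ℕ} {i : Fin n} {f f' : ℝ → ℝ} (h : ∀ τ, 0 ≤ τ → HasDerivAt f (f' τ) τ) :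
    PD i (fun x : E n => f (hn x)) (fun x => f' (hn x) * x i) := fun x => by
  have h1 := PD.hn i x
  have e : HasDerivAt f (f' (hn x)) (hn (x + (0 : ℝ) • bv i)) := by
    simp only [zero_smul, add_zero]; exact h _ (hn_nonneg x)
  exact HasDerivAt.comp (0 : ℝ) e h1

/-- the cutoff data in the variable `g` -/
structure CutG (lam lam1 lam2 : ℝ → ℝ) (μ b : ℝ) : Prop where
  d1 : ∀ g, HasDerivAt lam (lam1 g) g
  d2 : ∀ g, HasDerivAt lam1 (lam2 g) g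
  c2 : Continuous lam2
  nn : ∀ g, 0 ≤ lam g ∧ lam g ≤ 1
  b1 : ∀ g, |lam1 g| ≤ μ
  b2 : ∀ g, |lam2 g| ≤ μ
  z : ∀ g, b ≤ g → lam g = 0 ∧ lam1 g = 0 ∧ lam2 g = 0

/-- the field data in the variable `g` -/
structure FieldG (W F Φ s : ℝ → ℝ) (α κ b S : ℝ) : Prop where
  cF : Continuous F
  F0 : ∀ g, 0 ≤ F g
  F1 : ∀ g, α ≤ g → (1 - α ^ 2 / g ^ 2) * F g ≤ W (√(g ^ 2 - α ^ 2))
  F2 : ∀ g, α ≤ g → κ ^ 2 < g ^ 2 - α ^ 2 → W (√(g ^ 2 - α ^ 2)) = (1 - α ^ 2 / g ^ 2) * F g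
  F : FldN F Φ s
  Φ01 : ∀ g, 0 ≤ Φ g ∧ Φ g ≤ 1
  s0 : ∀ g ≤ b, s g ≤ 0
  sS : ∀ g, α ≤ g → g ≤ b → -s g * (g - α) ≤ S

/-- `-s N ≤ 2S/α` -/
lemma sN_le {s g α S : ℝ} (hα : 0 < α) (hg : α ≤ g) (hs : s ≤ 0) (h : -s * (g - α) ≤ S) :
    -s * Ng α g ≤ 2 * S / α := by
  have hg0 : 0 < g := hα.trans_le hg
  have h0 : 0 ≤ -s * (g - α) := mul_nonneg (by linarith) (by linarith)
  have e : -s * Ng α g = -s * (g - α) * ((g + α) / g ^ 2) := by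
    unfold Ng; field_simp; ring
  have h1 : (g + α) / g ^ 2 ≤ 2 / α := by
    rw [div_le_div_iff₀ (by positivity) hα]
    nlinarith
  rw [e]
  calc -s * (g - α) * ((g + α) / g ^ 2) ≤ -s * (g - α) * (2 / α) :=
        mul_le_mul_of_nonneg_left h1 h0
    _ ≤ S * (2 / α) := mul_le_mul_of_nonneg_right h (by positivity)
    _ = 2 * S / α := by ring

lemma err1 {m y1 y2 z1 z2 G θ N : ℝ} (hθ : 0 < θ) (hm0 : 0 ≤ m) (hm1 : m ≤ 1) (hG : 0 ≤ G)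
    (hN1 : N ≤ 1) (hyG : y1 ^ 2 + y2 ^ 2 ≤ N * G) :
    -(θ⁻¹ * (z1 ^ 2 + z2 ^ 2)) - θ * G ≤ 2 * m * (z1 * y1 + z2 * y2) := by
  have h0 : 0 ≤ θ⁻¹ * ((z1 + θ * y1) ^ 2 + (z2 + θ * y2) ^ 2) := by positivity
  have h1 : θ⁻¹ * ((z1 + θ * y1) ^ 2 + (z2 + θ * y2) ^ 2) =
      θ⁻¹ * (z1 ^ 2 + z2 ^ 2) + θ * (y1 ^ 2 + y2 ^ 2) + 2 * (z1 * y1 + z2 * y2) := by
    field_simp
    ring
  have h2 : y1 ^ 2 + y2 ^ 2 ≤ G := hyG.trans (mul_le_of_le_one_left hG hN1)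
  have h3 : -(θ⁻¹ * (z1 ^ 2 + z2 ^ 2) + θ * G) ≤ 2 * (z1 * y1 + z2 * y2) := by
    have : θ * (y1 ^ 2 + y2 ^ 2) ≤ θ * G := by gcongr
    linarith
  have h4 : 0 ≤ θ⁻¹ * (z1 ^ 2 + z2 ^ 2) + θ * G := by positivity
  have h5 := mul_le_of_le_one_left h4 hm1
  calc -(θ⁻¹ * (z1 ^ 2 + z2 ^ 2)) - θ * G = -(θ⁻¹ * (z1 ^ 2 + z2 ^ 2) + θ * G) := by ring
    _ ≤ -(m * (θ⁻¹ * (z1 ^ 2 + z2 ^ 2) + θ * G)) := neg_le_neg h5
    _ = m * (-(θ⁻¹ * (z1 ^ 2 + z2 ^ 2) + θ * G)) := by ring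
    _ ≤ m * (2 * (z1 * y1 + z2 * y2)) := mul_le_mul_of_nonneg_left h3 hm0
    _ = _ := by ring

lemma err2 {D D0 p q z1 z2 θ : ℝ} (hθ : 0 < θ) (hD : |D| ≤ D0) :
    -(θ⁻¹ * D0 ^ 2 * (z1 ^ 2 + z2 ^ 2)) - θ * (p ^ 2 + q ^ 2) ≤ D * (p * z1 + q * z2) := by
  have h0 : 0 ≤ ((θ * p + D * z1) ^ 2 + (θ * q + D * z2) ^ 2) / (2 * θ) := by positivity
  have h1 : ((θ * p + D * z1) ^ 2 + (θ * q + D * z2) ^ 2) / (2 * θ) =
      θ / 2 * (p ^ 2 + q ^ 2) + θ⁻¹ / 2 * D ^ 2 * (z1 ^ 2 + z2 ^ 2)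
        + D * (p * z1 + q * z2) := by
    field_simp
    ring
  have h2 : D ^ 2 ≤ D0 ^ 2 := sq_le_sq' (by have := (abs_le.1 hD).1; linarith) (abs_le.1 hD).2
  have h3 : θ⁻¹ / 2 * D ^ 2 * (z1 ^ 2 + z2 ^ 2) ≤ θ⁻¹ / 2 * D0 ^ 2 * (z1 ^ 2 + z2 ^ 2) := by
    gcongr
  have h4 : 0 ≤ θ⁻¹ / 2 * D0 ^ 2 * (z1 ^ 2 + z2 ^ 2) := by positivity
  have h5 : 0 ≤ θ / 2 * (p ^ 2 + q ^ 2) := by positivity
  have e : θ⁻¹ * D0 ^ 2 * (z1 ^ 2 + z2 ^ 2) =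
    2 * (θ⁻¹ / 2 * D0 ^ 2 * (z1 ^ 2 + z2 ^ 2)) := by ring
  rw [e]
  linarith

lemma quart {n m k D μ ρ : ℝ} (hD : (n - 1) * (m * k) - μ ≤ D) :
    (n - 1) / 2 * (m * k * ρ ^ 2) - μ / 2 * ρ ^ 2 ≤ 1 / 2 * D * ρ ^ 2 := by
  have h1 : ((n - 1) * (m * k) - μ) * ρ ^ 2 ≤ D * ρ ^ 2 :=
    mul_le_mul_of_nonneg_right hD (sq_nonneg ρ)
  linarith

/-- the pointwise lower bound -/
theorem vir_pt (alg2 : Alg2Stmt) {n : ℕ} (hn1 : 1 ≤ n) {Φ s F lam lam1 lam2 W : ℝ → ℝ}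
    {α κ b S μ θ Vm : ℝ} (hα : 0 < α) (hκ : 0 < κ) (hθ : 0 < θ) (hαb : α < b)
    (hC : CutG lam lam1 lam2 μ b) (hF : FieldG W F Φ s α κ b S)
    (hW0 : ∀ r, 0 ≤ W r) (x : E n) (hWm : W ‖x‖ ≤ Vm) (u A B G p q z1 z2 : ℝ) (hG : 0 ≤ G)
    (hAB : A ^ 2 + B ^ 2 ≤ 2 * hn x * G)
    (hu : u ≤ 1 / 2 * ((n - 1) * (n - 3) / (α ^ 2 + ‖x‖ ^ 2)
      + 6 * (n - 3) * α ^ 2 / (α ^ 2 + ‖x‖ ^ 2) ^ 2 + 15 * α ^ 4 / (α ^ 2 + ‖x‖ ^ 2) ^ 3)) :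
    (n - 1) / 2 * (c0 α Φ lam (hn x) * (p ^ 2 + q ^ 2) ^ 2) - μ / 2 * (p ^ 2 + q ^ 2) ^ 2
      - ((3 + (n + 5) * α⁻¹ + 4 * (2 * S / α) + Vm + (2 * S / α) ^ 2 + n * α⁻¹ * (2 * S / α)
        + (n + 2) * α⁻¹ ^ 2) * μ + Vm * (κ / α) + θ) * ((p ^ 2 + q ^ 2) + G)
      - θ⁻¹ * (1 + (n * α⁻¹ + μ + 2 * (2 * S / α)) ^ 2) *
        (Metric.closedBall (0 : E n) b).indicator (fun _ => z1 ^ 2 + z2 ^ 2) x ≤
      2 * c1 α Φ s lam lam1 (hn x) * (A ^ 2 + B ^ 2) + 2 * c0 α Φ lam (hn x) * G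
        + ((n + 2) * c1 α Φ s lam lam1 (hn x) + 2 * hn x * c2 α F Φ s lam lam1 lam2 (hn x))
          * (p * A + q * B)
        + W ‖x‖ * (2 * c0 α Φ lam (hn x) * (p * A + q * B)
          + (n * c0 α Φ lam (hn x) + 2 * hn x * c1 α Φ s lam lam1 (hn x)) * (p ^ 2 + q ^ 2))
        - 2 * f0 n α Φ s lam (hn x) * (p * A + q * B)
        - (n * f0 n α Φ s lam (hn x) + 2 * hn x * f1 n α F Φ s lam lam1 (hn x))
          * (p ^ 2 + q ^ 2)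
        - c0 α Φ lam (hn x) * u * (p ^ 2 + q ^ 2)
        + 1 / 2 * (n * c0 α Φ lam (hn x) + 2 * hn x * c1 α Φ s lam lam1 (hn x)) *
          (p ^ 2 + q ^ 2) ^ 2
        + 2 * c0 α Φ lam (hn x) * (z1 * A + z2 * B)
        + (n * c0 α Φ lam (hn x) + 2 * hn x * c1 α Φ s lam lam1 (hn x)) * (p * z1 + q * z2) := by
  have hx0 := hn_nonneg x
  have hμ : 0 ≤ μ := (abs_nonneg _).trans (hC.b1 0)
  have hVm0 : 0 ≤ Vm := (hW0 _).trans hWm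
  have hn1' : (1 : ℝ) ≤ n := by exact_mod_cast hn1
  have hρ0 : 0 ≤ p ^ 2 + q ^ 2 := by positivity
  have hS0 : 0 ≤ S := by
    have := hF.sS α le_rfl hαb.le
    simpa using this
  have hS' : 0 ≤ 2 * S / α := by positivity
  set g := gg α (hn x) with hg
  have hgα : α ≤ g := le_gg hα hx0
  have hg0 : 0 < g := hα.trans_le hgα
  have hgsq : g ^ 2 = α ^ 2 + 2 * hn x := gg_sq hx0
  have hgn : α ^ 2 + ‖x‖ ^ 2 = g ^ 2 := by rw [hgsq]; unfold hn; ring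
  by_cases hT : b ≤ g
  · -- outside everything vanishes
    obtain ⟨l0, l1, l2⟩ := hC.z _ hT
    have e0 : c0 α Φ lam (hn x) = 0 := by unfold c0 mm; rw [← hg, l0]; ring
    have e1 : c1 α Φ s lam lam1 (hn x) = 0 := by unfold c1 mg mm; rw [← hg, l0, l1]; ring
    have e2 : c2 α F Φ s lam lam1 lam2 (hn x) = 0 := by
      unfold c2 mgg mg mm; rw [← hg, l0, l1, l2]; ring
    have e3 : f0 n α Φ s lam (hn x) = 0 := by unfold f0 mm; rw [← hg, l0]; ring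
    have e4 : f1 n α F Φ s lam lam1 (hn x) = 0 := by unfold f1 mg mm; rw [← hg, l0, l1]; ring
    rw [e0, e1, e2, e3, e4]
    have hind : 0 ≤ (Metric.closedBall (0 : E n) b).indicator
        (fun _ => z1 ^ 2 + z2 ^ 2) x := indicator_nonneg (fun _ _ => by positivity) x
    have t1 : 0 ≤ μ / 2 * (p ^ 2 + q ^ 2) ^ 2 := by positivity
    have t2 : 0 ≤ ((3 + (n + 5) * α⁻¹ + 4 * (2 * S / α) + Vm + (2 * S / α) ^ 2
        + n * α⁻¹ * (2 * S / α)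
        + (n + 2) * α⁻¹ ^ 2) * μ + Vm * (κ / α) + θ) * ((p ^ 2 + q ^ 2) + G) := by positivity
    have t3 : 0 ≤ θ⁻¹ * (1 + (n * α⁻¹ + μ + 2 * (2 * S / α)) ^ 2) *
        (Metric.closedBall (0 : E n) b).indicator (fun _ => z1 ^ 2 + z2 ^ 2) x := by
      positivity
    simp only [mul_zero, zero_mul, add_zero, sub_zero]
    linarith
  · have hT' := (not_le.1 hT).le
    have hxb : x ∈ Metric.closedBall (0 : E n) b := by
      rw [Metric.mem_closedBall, dist_zero_right]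
      refine le_trans ?_ hT'
      refine le_of_sq_le_sq ?_ hg0.le
      rw [← hgn]
      nlinarith [sq_nonneg α]
    rw [indicator_of_mem hxb]
    set N := Ng α g with hN
    set k := g⁻¹ with hk
    have hk0 : 0 < k := by positivity
    have hkα : k ≤ α⁻¹ := inv_anti₀ hα hgα
    have hkg : g * k = 1 := mul_inv_cancel₀ hg0.ne'
    have hNe : 2 * hn x = N * g ^ 2 := by
      rw [hN]; unfold Ng; field_simp; linarith
    have hN1 : N ≤ 1 := by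
      rw [hN]; unfold Ng
      have : 0 ≤ α ^ 2 / g ^ 2 := by positivity
      linarith
    have hN0 : 0 ≤ N := by
      have : 0 ≤ N * g ^ 2 := by rw [← hNe]; positivity
      exact nonneg_of_mul_nonneg_left this (by positivity)
    have h1N : 1 - N = α ^ 2 * k ^ 2 := by
      rw [hN, hk]; unfold Ng; field_simp; ring
    have hsN := sN_le hα hgα (hF.s0 g hT') (hF.sS g hgα hT')
    rw [← hN] at hsN
    have hs0 := hF.s0 g hT'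
    obtain ⟨Φ0, Φ1⟩ := hF.Φ01 g
    obtain ⟨l0, l1⟩ := hC.nn g
    have b1 := hC.b1 g
    have b2 := hC.b2 g
    have hsq : √(g ^ 2 - α ^ 2) = ‖x‖ := by
      rw [← hgn, add_sub_cancel_left, Real.sqrt_sq (norm_nonneg x)]
    have hV1 := hF.F1 g hgα
    have hV2 := hF.F2 g hgα
    rw [hsq] at hV1 hV2
    set y1 := k * A with hy1
    set y2 := k * B with hy2
    have hyG : y1 ^ 2 + y2 ^ 2 ≤ N * G := by
      have e : y1 ^ 2 + y2 ^ 2 = k ^ 2 * (A ^ 2 + B ^ 2) := by rw [hy1, hy2]; ring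
      rw [e]
      calc k ^ 2 * (A ^ 2 + B ^ 2) ≤ k ^ 2 * (2 * hn x * G) := by gcongr
        _ = (g * k) ^ 2 * (N * G) := by rw [hNe]; ring
        _ = N * G := by rw [hkg]; ring
    have hVN : (κ / α) ^ 2 < N → W ‖x‖ = N * F g := by
      intro h
      refine hV2 ?_
      have e : g ^ 2 - α ^ 2 = N * g ^ 2 := by rw [← hNe]; linarith
      rw [e]
      have h2 : (κ / α) ^ 2 * g ^ 2 < N * g ^ 2 := by gcongr
      refine lt_of_le_of_lt ?_ h2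
      rw [div_pow, div_mul_eq_mul_div, le_div_iff₀ (by positivity)]
      gcongr
    set m := lam g * Φ g with hm
    have hm0 : 0 ≤ m := mul_nonneg l0 Φ0
    have hm1 : m ≤ 1 := mul_le_one₀ l1 Φ0 Φ1
    have hmain := alg2 n N k α⁻¹ (s g) (Φ g) (lam g) (lam1 g) (lam2 g) (F g) (W ‖x‖) Vm
      (2 * S / α) μ (κ / α) p q y1 y2 G hn1' hN0 hN1 hk0 hkα hs0 hsN Φ0 Φ1 l0 l1 b1 b2
      (hW0 _) hV1 hWm (by positivity) hVN (hF.F0 g) hG hyG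
      m (mg Φ s lam lam1 g) (mgg F Φ s lam lam1 lam2 g) (PP n α s g) (PPg n α F s g)
      (p * y1 + q * y2) (p ^ 2 + q ^ 2) rfl rfl rfl rfl rfl rfl rfl
    -- identification of the terms
    set M1 := mg Φ s lam lam1 g with hM1
    set M2 := mgg F Φ s lam lam1 lam2 g with hM2
    set P := PP n α s g with hP
    set Pg := PPg n α F s g with hPg
    have ec0 : c0 α Φ lam (hn x) = m * k := rfl
    have ec1 : c1 α Φ s lam lam1 (hn x) = M1 * k ^ 2 - m * k ^ 3 := rfl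
    have ec2 : c2 α F Φ s lam lam1 lam2 (hn x) = M2 * k ^ 3 - 3 * M1 * k ^ 4 + 3 * m * k ^ 5 :=
      rfl
    have ef0 : f0 n α Φ s lam (hn x) = -(m * P * k) := rfl
    have ef1 : f1 n α F Φ s lam lam1 (hn x) = -(M1 * P + m * Pg) * k ^ 2 + m * P * k ^ 3 := rfl
    have hA : A = g * y1 := by rw [hy1, ← mul_assoc, hkg, one_mul]
    have hB : B = g * y2 := by rw [hy2, ← mul_assoc, hkg, one_mul]
    have gk2 : g ^ 2 * k ^ 2 = 1 := by rw [← mul_pow, hkg, one_pow]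
    have gk3 : g ^ 2 * k ^ 3 = k := by
      calc g ^ 2 * k ^ 3 = (g ^ 2 * k ^ 2) * k := by ring
        _ = k := by rw [gk2, one_mul]
    have hD : n * c0 α Φ lam (hn x) + 2 * hn x * c1 α Φ s lam lam1 (hn x) =
        (n - N) * m * k + N * M1 := by
      rw [ec0, ec1, hNe]
      linear_combination (N * M1) * gk2 - (N * m) * gk3
    have hT1 : 2 * c1 α Φ s lam lam1 (hn x) * (A ^ 2 + B ^ 2) =
        2 * (M1 - m * k) * (y1 ^ 2 + y2 ^ 2) := by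
      rw [ec1, hA, hB]
      linear_combination (2 * M1 * (y1 ^ 2 + y2 ^ 2)) * gk2 - (2 * m * (y1 ^ 2 + y2 ^ 2)) * gk3
    have hT2 : ((n + 2) * c1 α Φ s lam lam1 (hn x)
        + 2 * hn x * c2 α F Φ s lam lam1 lam2 (hn x)) * (p * A + q * B) =
        ((n + 2) * (M1 * k - m * k ^ 2) + N * (M2 - 3 * M1 * k + 3 * m * k ^ 2))
          * (p * y1 + q * y2) := by
      rw [ec1, ec2, hNe, hA, hB]
      have e1 : g * k ^ 2 = k := by rw [pow_two, ← mul_assoc, hkg, one_mul]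
      have e2 : g * k ^ 3 = k ^ 2 := by rw [pow_succ', ← mul_assoc, hkg, one_mul]
      have e3 : g ^ 3 * k ^ 3 = 1 := by rw [← mul_pow, hkg, one_pow]
      have e4 : g ^ 3 * k ^ 4 = k := by
        calc g ^ 3 * k ^ 4 = (g ^ 3 * k ^ 3) * k := by ring
          _ = k := by rw [e3, one_mul]
      have e5 : g ^ 3 * k ^ 5 = k ^ 2 := by
        calc g ^ 3 * k ^ 5 = (g ^ 3 * k ^ 3) * k ^ 2 := by ring
          _ = k ^ 2 := by rw [e3, one_mul]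
      linear_combination (p * y1 + q * y2) * ((n + 2) * M1 * e1 - (n + 2) * m * e2
        + N * M2 * e3 - 3 * N * M1 * e4 + 3 * N * m * e5)
    have hT3 : 2 * c0 α Φ lam (hn x) * (p * A + q * B) = 2 * m * (p * y1 + q * y2) := by
      rw [ec0, hA, hB]
      linear_combination (2 * m * (p * y1 + q * y2)) * hkg
    have hT4 : 2 * f0 n α Φ s lam (hn x) * (p * A + q * B) =
        -(2 * m * P * (p * y1 + q * y2)) := by
      rw [ef0, hA, hB]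
      linear_combination (-2 * m * P * (p * y1 + q * y2)) * hkg
    have hT5 : n * f0 n α Φ s lam (hn x) + 2 * hn x * f1 n α F Φ s lam lam1 (hn x) =
        -((n - N) * m * P * k + N * (M1 * P + m * Pg)) := by
      rw [ef0, ef1, hNe]
      linear_combination (-N * (M1 * P + m * Pg)) * gk2 + (N * m * P) * gk3
    have hT6 : 2 * c0 α Φ lam (hn x) * (z1 * A + z2 * B) = 2 * m * (z1 * y1 + z2 * y2) := by
      rw [ec0, hA, hB]
      linear_combination (2 * m * (z1 * y1 + z2 * y2)) * hkg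
    rw [hD, hT1, hT2, hT3, hT4, hT5, hT6]
    -- the repulsive part
    have hu2 : c0 α Φ lam (hn x) * u ≤ 1 / 2 * m * (k ^ 3 * ((n - 1) * (n - 3)
        + 6 * (n - 3) * (1 - N) + 15 * (1 - N) ^ 2)) := by
      rw [ec0]
      have e1 : (1 : ℝ) / 2 * ((n - 1) * (n - 3) / (α ^ 2 + ‖x‖ ^ 2)
        + 6 * (n - 3) * α ^ 2 / (α ^ 2 + ‖x‖ ^ 2) ^ 2 + 15 * α ^ 4 / (α ^ 2 + ‖x‖ ^ 2) ^ 3) =
          1 / 2 * (k ^ 2 * ((n - 1) * (n - 3) + 6 * (n - 3) * (1 - N) + 15 * (1 - N) ^ 2)) := by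
        rw [hgn, h1N, hk]
        field_simp
      rw [e1] at hu
      calc m * k * u ≤ m * k * (1 / 2 * (k ^ 2 * ((n - 1) * (n - 3) + 6 * (n - 3) * (1 - N)
            + 15 * (1 - N) ^ 2))) := by gcongr
        _ = _ := by ring
    have hu3 : c0 α Φ lam (hn x) * u * (p ^ 2 + q ^ 2) ≤ 1 / 2 * m * (k ^ 3 *
        ((n - 1) * (n - 3) + 6 * (n - 3) * (1 - N) + 15 * (1 - N) ^ 2)) * (p ^ 2 + q ^ 2) := by
      gcongr
    -- the divergence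
    set D := (n - N) * m * k + N * M1 with hDdef
    have hl2 : |N * (lam1 g * Φ g)| ≤ μ := by
      rw [abs_mul, abs_mul, abs_of_nonneg Φ0, abs_of_nonneg hN0]
      calc N * (|lam1 g| * Φ g) ≤ 1 * (μ * 1) := by gcongr
        _ = μ := by ring
    have hDe : D = (n - N) * m * k + N * (lam1 g * Φ g) + 2 * (-s g * N) * m := by
      rw [hDdef, hM1, hm]; unfold mg; ring
    have hsN0 : 0 ≤ -s g * N := mul_nonneg (by linarith) hN0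
    have hmk : 0 ≤ m * k := by positivity
    have hD1 : (n - 1) * (m * k) - μ ≤ D := by
      have := (abs_le.1 hl2).1
      have h2 : 0 ≤ 2 * (-s g * N) * m := by positivity
      have h3 : N * (m * k) ≤ 1 * (m * k) := by gcongr
      rw [hDe]
      linarith
    have hD2 : |D| ≤ n * α⁻¹ + μ + 2 * (2 * S / α) := by
      have h1 := abs_le.1 hl2
      have h2 : 0 ≤ 2 * (-s g * N) * m := by positivity
      have h3 : 2 * (-s g * N) * m ≤ 2 * (2 * S / α) * 1 := by gcongr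
      have h4 : (n - N) * m * k ≤ n * α⁻¹ := by
        calc (n - N) * m * k ≤ n * 1 * α⁻¹ := by gcongr; linarith
          _ = n * α⁻¹ := by ring
      have h5 : 0 ≤ (n - N) * m * k := by
        have : 0 ≤ (n : ℝ) - N := by linarith
        positivity
      have h6 : 0 ≤ n * α⁻¹ := by positivity
      rw [hDe, abs_le]
      constructor <;> linarith [h1.1, h1.2]
    -- the quartic term
    have hq4 := quart (ρ := p ^ 2 + q ^ 2) hD1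
    -- the error terms
    have he1 := err1 (z1 := z1) (z2 := z2) hθ hm0 hm1 hG hN1 hyG
    have he2 := err2 (p := p) (q := q) (z1 := z1) (z2 := z2) hθ hD2
    clear_value m M1 M2 P Pg D y1 y2 N k
    set D0 := n * α⁻¹ + μ + 2 * (2 * S / α) with hD0
    have e1 : θ⁻¹ * (1 + D0 ^ 2) * (z1 ^ 2 + z2 ^ 2) =
        θ⁻¹ * (z1 ^ 2 + z2 ^ 2) + θ⁻¹ * D0 ^ 2 * (z1 ^ 2 + z2 ^ 2) := by
      ring
    set KK := (3 + (n + 5) * α⁻¹ + 4 * (2 * S / α) + Vm + (2 * S / α) ^ 2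
        + n * α⁻¹ * (2 * S / α) + (n + 2) * α⁻¹ ^ 2) * μ + Vm * (κ / α) with hKK
    have e2 : (KK + θ) * ((p ^ 2 + q ^ 2) + G) =
        KK * ((p ^ 2 + q ^ 2) + G) + (θ * (p ^ 2 + q ^ 2) + θ * G) := by
      ring
    rw [e1, e2]
    rw [ec0] at hu3 ⊢
    linarith

end

end Pool.Agent.Lib_helper40.NLM
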