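import Pool.Agent.Lib_helper40.NLM.Vir

/-!
# The integrated virial inequality for the multiplier `λ Φ ∇√(α²+|x|²)`
-/

namespace Pool.Agent.Lib_helper40.NLM

open MeasureTheory Set Filter Topology
open Pool.Agent.Lib_helper40.NLN

noncomputable section

section

variable {n : ℕ} {α : ℝ} {F Φ s lam lam1 lam2 : ℝ → ℝ}

lemma ggx_cont : Continuous fun x : E n => gg α (hn x) := gg_cont.comp hn_cont

lemma ggi_cont (hα : 0 < α) : Continuous fun x : E n => (gg α (hn x))⁻¹ :=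
  ggx_cont.inv₀ fun x => (gg_pos hα (hn_nonneg x)).ne'

lemma Ng_cont (hα : 0 < α) : Continuous fun x : E n => Ng α (gg α (hn x)) := by
  have e : (fun x : E n => Ng α (gg α (hn x))) =
      fun x => 1 - α ^ 2 * (gg α (hn x))⁻¹ ^ 2 := by
    funext x; unfold Ng; rw [inv_pow]; ring
  rw [e]
  have := ggi_cont (n := n) hα
  fun_prop

lemma conts (hα : 0 < α) (cF : Continuous F) (cΦ : Continuous Φ) (cs : Continuous s)
    (cl : Continuous lam) (cl1 : Continuous lam1) (cl2 : Continuous lam2) :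
    (Continuous fun x : E n => c0 α Φ lam (hn x)) ∧
    (Continuous fun x : E n => c1 α Φ s lam lam1 (hn x)) ∧
    (Continuous fun x : E n => c2 α F Φ s lam lam1 lam2 (hn x)) ∧
    (Continuous fun x : E n => f0 n α Φ s lam (hn x)) ∧
    (Continuous fun x : E n => f1 n α F Φ s lam lam1 (hn x)) := by
  have k1 := ggx_cont (n := n) (α := α)
  have k2 := ggi_cont (n := n) hα
  have k3 := Ng_cont (n := n) hα
  have j1 : Continuous fun x : E n => F (gg α (hn x)) := cF.comp k1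
  have j2 : Continuous fun x : E n => Φ (gg α (hn x)) := cΦ.comp k1
  have j3 : Continuous fun x : E n => s (gg α (hn x)) := cs.comp k1
  have j4 : Continuous fun x : E n => lam (gg α (hn x)) := cl.comp k1
  have j5 : Continuous fun x : E n => lam1 (gg α (hn x)) := cl1.comp k1
  have j6 : Continuous fun x : E n => lam2 (gg α (hn x)) := cl2.comp k1
  refine ⟨?_, ?_, ?_, ?_, ?_⟩
  · unfold c0 mm; fun_prop
  · unfold c1 mg mm; fun_prop
  · unfold c2 mgg mg mm; fun_prop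
  · unfold f0 mm PP; fun_prop
  · unfold f1 mg mm PP PPg; fun_prop

lemma zeros {μ b : ℝ} (hC : CutG lam lam1 lam2 μ b) {τ : ℝ} (h : b ≤ gg α τ) (m : ℝ) :
    c0 α Φ lam τ = 0 ∧ c1 α Φ s lam lam1 τ = 0 ∧ c2 α F Φ s lam lam1 lam2 τ = 0 ∧
    f0 m α Φ s lam τ = 0 ∧ f1 m α F Φ s lam lam1 τ = 0 := by
  obtain ⟨l0, l1, l2⟩ := hC.z _ h
  refine ⟨?_, ?_, ?_, ?_, ?_⟩
  · unfold c0 mm; rw [l0]; ring
  · unfold c1 mg mm; rw [l0, l1]; ring
  · unfold c2 mgg mg mm; rw [l0, l1, l2]; ring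
  · unfold f0 mm; rw [l0]; ring
  · unfold f1 mg mm; rw [l0, l1]; ring

lemma le_ggx {b : ℝ} {x : E n} (h : b < ‖x‖) : b ≤ gg α (hn x) := by
  by_cases hb : 0 ≤ b
  · refine Real.le_sqrt_of_sq_le ?_
    have h1 : b ^ 2 ≤ ‖x‖ ^ 2 := by gcongr
    unfold hn
    nlinarith [sq_nonneg α]
  · exact (not_le.1 hb).le.trans (Real.sqrt_nonneg _)

end

/-- radial vector fields -/
def Xr {n : ℕ} (c : ℝ → ℝ) (j : Fin n) (x : E n) : ℝ := c (hn x) * x j

def Xr1 {n : ℕ} (c c' : ℝ → ℝ) (i j : Fin n) (x : E n) : ℝ :=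
  c' (hn x) * x i * x j + c (hn x) * (if j = i then 1 else 0)

lemma Xr_PD {n : ℕ} {c c' : ℝ → ℝ} (h : ∀ τ, 0 ≤ τ → HasDerivAt c (c' τ) τ) (i j : Fin n) :
    PD i (Xr c j) (Xr1 c c' i j) := by
  have := (PDr (i := i) h).mul (PD.coord i j)
  exact this

lemma Xr1_sum {n : ℕ} (c c' : ℝ → ℝ) (x : E n) :
    ∑ j, Xr1 c c' j j x = n * c (hn x) + 2 * hn x * c' (hn x) := by
  unfold Xr1
  simp only [if_true, mul_one]
  rw [Finset.sum_add_distrib, Finset.sum_const, Finset.card_univ, Fintype.card_fin,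
    nsmul_eq_mul]
  have : ∑ j, c' (hn x) * x j * x j = c' (hn x) * ∑ j, x j ^ 2 := by
    rw [Finset.mul_sum]
    exact Finset.sum_congr rfl fun j _ => by ring
  rw [this, ← hn_eq]
  ring

lemma Xr1_sum_PD {n : ℕ} {c c' c'' : ℝ → ℝ} (h : ∀ τ, 0 ≤ τ → HasDerivAt c (c' τ) τ)
    (h' : ∀ τ, 0 ≤ τ → HasDerivAt c' (c'' τ) τ) (i : Fin n) :
    PD i (fun x => ∑ j, Xr1 c c' j j x)
      (fun x => ((n + 2) * c' (hn x) + 2 * hn x * c'' (hn x)) * x i) := by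
  have e : (fun x : E n => ∑ j, Xr1 c c' j j x) =
      fun x => n * c (hn x) + (2 * hn x) * c' (hn x) := by
    funext x; rw [Xr1_sum]
  rw [e]
  have := ((PDr (i := i) h).const_mul (n : ℝ)).add (((PD.hn i).const_mul 2).mul (PDr (i := i) h'))
  refine this.congr fun x => ?_
  ring

lemma Xr_quad {n : ℕ} (c c' : ℝ → ℝ) (f : Fin n → E n → ℝ) (x : E n) :
    ∑ i, ∑ j, Xr1 c c' i j x * (f i x * f j x) =
      c' (hn x) * rad f x ^ 2 + c (hn x) * ∑ i, f i x ^ 2 := by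
  have e : ∀ i, ∑ j, Xr1 c c' i j x * (f i x * f j x) =
      c' (hn x) * ((x i * f i x) * rad f x) + c (hn x) * f i x ^ 2 := by
    intro i
    unfold Xr1 rad
    simp only [add_mul]
    rw [Finset.sum_add_distrib, Finset.mul_sum, Finset.mul_sum]
    congr 1
    · exact Finset.sum_congr rfl fun j _ => by ring
    · rw [Finset.sum_eq_single i]
      · rw [if_pos rfl]; ring
      · intro j _ hj; simp [hj]
      · intro h; exact absurd (Finset.mem_univ i) h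
  simp only [e, Finset.sum_add_distrib, ← Finset.mul_sum, ← Finset.sum_mul]
  rw [pow_two (rad f x)]
  rfl

section

variable {n : ℕ} {a b v1 v2 e1 e2 : E n → ℝ} {a1 b1 w1 w2 : Fin n → E n → ℝ}
  {a2 b2 : Fin n → Fin n → E n → ℝ}

/-- The virial inequality. -/
theorem vir_ineq (alg2 : Alg2Stmt) (virx : VirXStmt) (repx : RepXStmt) (hn1 : 1 ≤ n)
    {Φ s F lam lam1 lam2 W : ℝ → ℝ} {U : E n → ℝ} {α κ β S μ θ Vm : ℝ}
    (hα : 0 < α) (hκ : 0 < κ) (hθ : 0 < θ) (hαb : α < β)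
    (hC : CutG lam lam1 lam2 μ β) (hF : FieldG W F Φ s α κ β S)
    (hW : Continuous W) (hW0 : ∀ r, 0 ≤ W r)
    (hWm : ∀ x : E n, W ‖x‖ ≤ Vm) (hU : ContDiff ℝ 1 U)
    (hUr : ∀ x, fderiv ℝ U x x ≤ 1 / 2 * ((n - 1) * (n - 3) / (α ^ 2 + ‖x‖ ^ 2)
      + 6 * (n - 3) * α ^ 2 / (α ^ 2 + ‖x‖ ^ 2) ^ 2 + 15 * α ^ 4 / (α ^ 2 + ‖x‖ ^ 2) ^ 3))
    (hS : SnapN (fun x => W ‖x‖ + U x) a b a1 b1 a2 b2 v1 v2 w1 w2 e1 e2)
    (iρ : Integrable (fun x => a x ^ 2 + b x ^ 2)) (iG : Integrable (gsq a1 b1))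
    (iρ2 : Integrable (fun x => (a x ^ 2 + b x ^ 2) ^ 2)) :
    (n - 1) / 2 * (∫ x, c0 α Φ lam (hn x) * (a x ^ 2 + b x ^ 2) ^ 2)
      - μ / 2 * (∫ x, (a x ^ 2 + b x ^ 2) ^ 2)
      - ((3 + (n + 5) * α⁻¹ + 4 * (2 * S / α) + Vm + (2 * S / α) ^ 2 + n * α⁻¹ * (2 * S / α)
        + (n + 2) * α⁻¹ ^ 2) * μ + Vm * (κ / α) + θ) *
        ((∫ x, (a x ^ 2 + b x ^ 2)) + ∫ x, gsq a1 b1 x)
      - θ⁻¹ * (1 + (n * α⁻¹ + μ + 2 * (2 * S / α)) ^ 2) *
        (∫ x in Metric.closedBall (0 : E n) β, (e1 x ^ 2 + e2 x ^ 2)) ≤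
      ∫ x, ∑ i, c0 α Φ lam (hn x) * x i *
        (v1 x * b1 i x + a x * w2 i x - v2 x * a1 i x - b x * w1 i x) := by
  have ca := hS.ca
  have cb := hS.cb
  have ca1 := hS.ca1
  have cb1 := hS.cb1
  have ce1 := hS.ce1
  have ce2 := hS.ce2
  have cU := hU.continuous
  have kh : Continuous (hn : E n → ℝ) := hn_cont
  have kra := rad_cont hS.ca1
  have krb := rad_cont hS.cb1
  have kg := gsq_cont hS.ca1 hS.cb1
  have cV : Continuous fun x : E n => W ‖x‖ + U x := (hW.comp continuous_norm).add cU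
  have cW : Continuous fun x : E n => W ‖x‖ := hW.comp continuous_norm
  have cΦ : Continuous Φ := cont_of_d hF.F.dΦ
  have cs : Continuous s := cont_of_d hF.F.ds
  have cl : Continuous lam := cont_of_d hC.d1
  have cl1 : Continuous lam1 := cont_of_d hC.d2
  obtain ⟨k0, k1, k2, k3, k4⟩ := conts (n := n) hα hF.cF cΦ cs cl cl1 hC.c2
  have q0 : ∀ τ, 0 ≤ τ → HasDerivAt (c0 α Φ lam) (c1 α Φ s lam lam1 τ) τ := fun τ hτ =>
    c0_d hα hF.F hC.d1 hτ
  have q1 : ∀ τ, 0 ≤ τ → HasDerivAt (c1 α Φ s lam lam1) (c2 α F Φ s lam lam1 lam2 τ) τ :=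
    fun τ hτ => c1_d hα hF.F hC.d1 hC.d2 hτ
  have q2 : ∀ τ, 0 ≤ τ → HasDerivAt (f0 n α Φ s lam) (f1 n α F Φ s lam lam1 τ) τ :=
    fun τ hτ => f0_d hα hF.F hC.d1 hτ
  have hz := fun (x : E n) (hx : β < ‖x‖) =>
    zeros (F := F) (Φ := Φ) (s := s) hC (le_ggx (α := α) hx) (n : ℝ)
  have ck : ∀ {f : E n → ℝ}, Continuous f → (∀ x, β < ‖x‖ → f x = 0) → CK f := fun hf h =>
    CK.of_zero hf h
  set C0 := c0 α Φ lam with hC0
  set C1 := c1 α Φ s lam lam1 with hC1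
  set C2 := c2 α F Φ s lam lam1 lam2 with hC2
  set G0 := f0 n α Φ s lam with hG0
  set G1 := f1 n α F Φ s lam lam1 with hG1
  obtain ⟨p0, hp0, kp0⟩ : ∃ p0 : E n → ℝ, (∀ x, C0 (hn x) = p0 x) ∧ Continuous p0 :=
    ⟨_, fun _ => rfl, k0⟩
  obtain ⟨p1, hp1, kp1⟩ : ∃ p0 : E n → ℝ, (∀ x, C1 (hn x) = p0 x) ∧ Continuous p0 :=
    ⟨_, fun _ => rfl, k1⟩
  obtain ⟨p2, hp2, kp2⟩ : ∃ p0 : E n → ℝ, (∀ x, C2 (hn x) = p0 x) ∧ Continuous p0 :=
    ⟨_, fun _ => rfl, k2⟩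
  obtain ⟨p3, hp3, kp3⟩ : ∃ p0 : E n → ℝ, (∀ x, G0 (hn x) = p0 x) ∧ Continuous p0 :=
    ⟨_, fun _ => rfl, k3⟩
  obtain ⟨p4, hp4, kp4⟩ : ∃ p0 : E n → ℝ, (∀ x, G1 (hn x) = p0 x) ∧ Continuous p0 :=
    ⟨_, fun _ => rfl, k4⟩
  obtain ⟨pW, hpW, kpW⟩ : ∃ p0 : E n → ℝ, (∀ x, W ‖x‖ = p0 x) ∧ Continuous p0 :=
    ⟨_, fun _ => rfl, cW⟩
  obtain ⟨pU, hpU, kpU⟩ : ∃ p0 : E n → ℝ, (∀ x, fderiv ℝ U x x = p0 x) ∧ Continuous p0 :=
    ⟨_, fun _ => rfl, (hU.continuous_fderiv (by norm_num)).clm_apply continuous_id⟩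
  have KX : ∀ i : Fin n, CK (Xr C0 i) := fun i => ck (by unfold Xr; simp only [hp0, hp3]; fun_prop) fun x hx => by
    unfold Xr; rw [(hz x hx).1, zero_mul]
  have KX1 : ∀ i j : Fin n, CK (Xr1 C0 C1 i j) := fun i j =>
    ck (by unfold Xr1; simp only [hp0, hp1, hp3, hp4]; fun_prop) fun x hx => by
      unfold Xr1; rw [(hz x hx).1, (hz x hx).2.1]; ring
  have KD1 : ∀ i : Fin n, CK (fun x => ((n + 2) * C1 (hn x) + 2 * hn x * C2 (hn x)) * x i) :=
    fun i => ck (by simp only [hp1, hp2]; fun_prop) fun x hx => by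
      rw [(hz x hx).2.1, (hz x hx).2.2.1]; ring
  have KY : ∀ i : Fin n, CK (Xr G0 i) := fun i => ck (by unfold Xr; simp only [hp0, hp3]; fun_prop) fun x hx => by
    unfold Xr; rw [(hz x hx).2.2.2.1, zero_mul]
  have KY1 : ∀ i j : Fin n, CK (Xr1 G0 G1 i j) := fun i j =>
    ck (by unfold Xr1; simp only [hp0, hp1, hp3, hp4]; fun_prop) fun x hx => by
      unfold Xr1; rw [(hz x hx).2.2.2.1, (hz x hx).2.2.2.2]; ring
  have I1 := virx n _ a b v1 v2 e1 e2 a1 b1 w1 w2 a2 b2 cV hS (Xr C0) (Xr1 C0 C1)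
    (fun i x => ((n + 2) * C1 (hn x) + 2 * hn x * C2 (hn x)) * x i) KX
    (fun i j => Xr_PD q0 i j) KX1 (fun i => Xr1_sum_PD q0 q1 i) KD1
  have I2 := repx n U hU a b a1 b1 hS.da hS.db ca cb ca1 cb1 (Xr C0) (fun i => Xr1 C0 C1 i i)
    KX (fun i => Xr_PD q0 i i) (fun i => KX1 i i)
  have I3 := repx n (fun _ => 1) contDiff_const a b a1 b1 hS.da hS.db ca cb ca1 cb1 (Xr G0)
    (fun i => Xr1 G0 G1 i i) KY (fun i => Xr_PD q2 i i) (fun i => KY1 i i)
  -- rewriting the integrands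
  have sX : ∀ (c : ℝ → ℝ) (x : E n), ∑ i, Xr c i x * (a x * a1 i x + b x * b1 i x) =
      c (hn x) * (a x * rad a1 x + b x * rad b1 x) := by
    intro c x
    unfold Xr rad
    rw [Finset.mul_sum, Finset.mul_sum, ← Finset.sum_add_distrib, Finset.mul_sum]
    exact Finset.sum_congr rfl fun i _ => by ring
  have sE : ∀ x : E n, ∑ i, Xr C0 i x * (e1 x * a1 i x + e2 x * b1 i x) =
      C0 (hn x) * (e1 x * rad a1 x + e2 x * rad b1 x) := by
    intro x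
    unfold Xr rad
    rw [Finset.mul_sum, Finset.mul_sum, ← Finset.sum_add_distrib, Finset.mul_sum]
    exact Finset.sum_congr rfl fun i _ => by ring
  have sD : ∀ x : E n, ∑ i, ((n + 2) * C1 (hn x) + 2 * hn x * C2 (hn x)) * x i
      * (a x * a1 i x + b x * b1 i x) =
      ((n + 2) * C1 (hn x) + 2 * hn x * C2 (hn x)) * (a x * rad a1 x + b x * rad b1 x) := by
    intro x
    unfold rad
    rw [Finset.mul_sum, Finset.mul_sum, ← Finset.sum_add_distrib, Finset.mul_sum]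
    exact Finset.sum_congr rfl fun i _ => by ring
  have sU : ∀ x : E n, ∑ i, Xr C0 i x * fderiv ℝ U x (bv i) = C0 (hn x) * fderiv ℝ U x x := by
    intro x
    conv_rhs => rw [RepM.fderiv_eq (fderiv ℝ U x) x]
    unfold Xr
    rw [Finset.mul_sum]
    exact Finset.sum_congr rfl fun i _ => by ring
  have sQ : ∀ x : E n, ∑ i, ∑ j, Xr1 C0 C1 i j x * (a1 i x * a1 j x + b1 i x * b1 j x) =
      C1 (hn x) * (rad a1 x ^ 2 + rad b1 x ^ 2) + C0 (hn x) * gsq a1 b1 x := by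
    intro x
    have e : ∑ i, ∑ j, Xr1 C0 C1 i j x * (a1 i x * a1 j x + b1 i x * b1 j x) =
        (∑ i, ∑ j, Xr1 C0 C1 i j x * (a1 i x * a1 j x)) +
        ∑ i, ∑ j, Xr1 C0 C1 i j x * (b1 i x * b1 j x) := by
      rw [← Finset.sum_add_distrib]
      refine Finset.sum_congr rfl fun i _ => ?_
      rw [← Finset.sum_add_distrib]
      exact Finset.sum_congr rfl fun j _ => by ring
    rw [e, Xr_quad, Xr_quad]
    unfold gsq
    rw [Finset.sum_add_distrib]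
    ring
  simp only [sX, sE, sD, sQ, Xr1_sum] at I1
  simp only [sX, sU, Xr1_sum] at I2
  have hone : ∀ x : E n, fderiv ℝ (fun _ : E n => (1 : ℝ)) x = 0 := fun x => by simp
  simp only [sX, Xr1_sum, hone, ContinuousLinearMap.zero_apply, mul_zero, Finset.sum_const_zero,
    zero_mul, integral_zero, neg_zero, one_mul] at I3
  have hL : ∫ x, ∑ i, Xr C0 i x *
        (v1 x * b1 i x + a x * w2 i x - v2 x * a1 i x - b x * w1 i x) =
      ∫ x, ∑ i, C0 (hn x) * x i *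
        (v1 x * b1 i x + a x * w2 i x - v2 x * a1 i x - b x * w1 i x) := rfl
  rw [← hL, I1]
  -- the four integrands
  set J1 : E n → ℝ := fun x => 2 * (C1 (hn x) * (rad a1 x ^ 2 + rad b1 x ^ 2)
      + C0 (hn x) * gsq a1 b1 x)
      + ((n + 2) * C1 (hn x) + 2 * hn x * C2 (hn x)) * (a x * rad a1 x + b x * rad b1 x)
      + (W ‖x‖ + U x) * (2 * (C0 (hn x) * (a x * rad a1 x + b x * rad b1 x))
        + (n * C0 (hn x) + 2 * hn x * C1 (hn x)) * (a x ^ 2 + b x ^ 2))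
      + 1 / 2 * (n * C0 (hn x) + 2 * hn x * C1 (hn x)) * (a x ^ 2 + b x ^ 2) ^ 2
      + 2 * (C0 (hn x) * (e1 x * rad a1 x + e2 x * rad b1 x))
      + (n * C0 (hn x) + 2 * hn x * C1 (hn x)) * (a x * e1 x + b x * e2 x) with hJ1
  set J2 : E n → ℝ := fun x => U x * (2 * (C0 (hn x) * (a x * rad a1 x + b x * rad b1 x))
        + (n * C0 (hn x) + 2 * hn x * C1 (hn x)) * (a x ^ 2 + b x ^ 2)) with hJ2
  set J2' : E n → ℝ := fun x => C0 (hn x) * fderiv ℝ U x x * (a x ^ 2 + b x ^ 2) with hJ2'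
  set J3 : E n → ℝ := fun x => 2 * (G0 (hn x) * (a x * rad a1 x + b x * rad b1 x))
        + (n * G0 (hn x) + 2 * hn x * G1 (hn x)) * (a x ^ 2 + b x ^ 2) with hJ3
  have K1 : CK J1 := ck (by rw [hJ1]; simp only [hp0, hp1, hp2, hp3, hp4, hpW, hpU]; fun_prop) fun x hx => by
    obtain ⟨z0, z1, z2, -, -⟩ := hz x hx
    simp only [hJ1, z0, z1, z2]; ring
  have K2 : CK J2 := ck (by rw [hJ2]; simp only [hp0, hp1, hp2, hp3, hp4, hpW, hpU]; fun_prop) fun x hx => by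
    obtain ⟨z0, z1, z2, -, -⟩ := hz x hx
    simp only [hJ2, z0, z1]; ring
  have K2' : CK J2' := ck (by rw [hJ2']; simp only [hp0, hp1, hp2, hp3, hp4, hpW, hpU]; fun_prop) fun x hx => by
    obtain ⟨z0, z1, z2, -, -⟩ := hz x hx
    simp only [hJ2', z0]; ring
  have K3 : CK J3 := ck (by rw [hJ3]; simp only [hp0, hp1, hp2, hp3, hp4, hpW, hpU]; fun_prop) fun x hx => by
    obtain ⟨-, -, -, z3, z4⟩ := hz x hx
    simp only [hJ3, z3, z4]; ring
  have hI : ∫ x, J1 x = ∫ x, (J1 x - J2 x - J2' x - J3 x) := by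
    have i12 : Integrable fun x => J1 x - J2 x := K1.int.sub K2.int
    have i122 : Integrable fun x => J1 x - J2 x - J2' x := i12.sub K2'.int
    rw [integral_sub i122 K3.int, integral_sub i12 K2'.int, integral_sub K1.int K2.int, I3, I2]
    ring
  rw [hI]
  have iJ : Integrable fun x => J1 x - J2 x - J2' x - J3 x :=
    ((K1.int.sub K2.int).sub K2'.int).sub K3.int
  -- the lower bound is integrable
  have iq : Integrable fun x : E n => C0 (hn x) * (a x ^ 2 + b x ^ 2) ^ 2 :=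
    CK.int (ck (by simp only [hp0]; fun_prop) fun x hx => by rw [(hz x hx).1, zero_mul])
  have ie : IntegrableOn (fun x : E n => e1 x ^ 2 + e2 x ^ 2)
      (Metric.closedBall (0 : E n) β) :=
    (by fun_prop : Continuous fun x : E n => e1 x ^ 2 + e2 x ^ 2).continuousOn.integrableOn_compact
      (isCompact_closedBall _ _)
  have ie' : Integrable ((Metric.closedBall (0 : E n) β).indicator
      (fun x => e1 x ^ 2 + e2 x ^ 2)) := ie.integrable_indicator measurableSet_closedBall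
  set KK := (3 + (n + 5) * α⁻¹ + 4 * (2 * S / α) + Vm + (2 * S / α) ^ 2 + n * α⁻¹ * (2 * S / α)
        + (n + 2) * α⁻¹ ^ 2) * μ + Vm * (κ / α) + θ with hKK
  set KE := θ⁻¹ * (1 + (n * α⁻¹ + μ + 2 * (2 * S / α)) ^ 2) with hKE
  have hpt : ∀ x, (n - 1) / 2 * (C0 (hn x) * (a x ^ 2 + b x ^ 2) ^ 2)
      - μ / 2 * (a x ^ 2 + b x ^ 2) ^ 2
      - KK * ((a x ^ 2 + b x ^ 2) + gsq a1 b1 x)
      - KE * (Metric.closedBall (0 : E n) β).indicator (fun x => e1 x ^ 2 + e2 x ^ 2) x ≤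
      J1 x - J2 x - J2' x - J3 x := by
    intro x
    have h := vir_pt alg2 hn1 hα hκ hθ hαb hC hF hW0 x (hWm x) (fderiv ℝ U x x) (rad a1 x)
      (rad b1 x) (gsq a1 b1 x)
      (a x) (b x) (e1 x) (e2 x) (gsq_nonneg _ _ _) (rad_le a1 b1 x) (hUr x)
    have e0 : (Metric.closedBall (0 : E n) β).indicator (fun x => e1 x ^ 2 + e2 x ^ 2) x
      = (Metric.closedBall (0 : E n) β).indicator (fun _ => e1 x ^ 2 + e2 x ^ 2) x := by
      by_cases hx : x ∈ Metric.closedBall (0 : E n) β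
      · rw [indicator_of_mem hx, indicator_of_mem hx]
      · rw [indicator_of_notMem hx, indicator_of_notMem hx]
    rw [e0]
    refine h.trans (le_of_eq ?_)
    simp only [hJ1, hJ2, hJ2', hJ3]
    ring
  have iA : Integrable fun x : E n => ((n : ℝ) - 1) / 2 * (C0 (hn x) *
      (a x ^ 2 + b x ^ 2) ^ 2) := iq.const_mul _
  have iB : Integrable fun x : E n => μ / 2 * (a x ^ 2 + b x ^ 2) ^ 2 := iρ2.const_mul _
  have iD : Integrable fun x : E n => KK * ((a x ^ 2 + b x ^ 2) + gsq a1 b1 x) :=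
    (iρ.add iG).const_mul _
  have iE : Integrable fun x : E n => KE *
        (Metric.closedBall (0 : E n) β).indicator (fun x => e1 x ^ 2 + e2 x ^ 2) x :=
    ie'.const_mul _
  have iAB : Integrable fun x : E n => ((n : ℝ) - 1) / 2 * (C0 (hn x) *
      (a x ^ 2 + b x ^ 2) ^ 2) - μ / 2 * (a x ^ 2 + b x ^ 2) ^ 2 := iA.sub iB
  have iABD : Integrable fun x : E n => ((n : ℝ) - 1) / 2 * (C0 (hn x) *
      (a x ^ 2 + b x ^ 2) ^ 2) - μ / 2 * (a x ^ 2 + b x ^ 2) ^ 2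
      - KK * ((a x ^ 2 + b x ^ 2) + gsq a1 b1 x) := iAB.sub iD
  have hm := integral_mono (iABD.sub iE) iJ hpt
  simp only [Pi.sub_apply] at hm
  rw [integral_sub iABD iE, integral_sub iAB iD, integral_sub iA iB,
    integral_const_mul, integral_const_mul, integral_const_mul,
    integral_const_mul, integral_add iρ iG, integral_indicator measurableSet_closedBall] at hm
  exact hm

end

end

end Pool.Agent.Lib_helper40.NLM
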